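import Pool.Agent.H305R2.MertensE
import Pool.Agent.H438R3.BSD.Prod

/-! The constants in the theorem of Mertens, for the prime zeta function and for the prime sums. -/

set_option autoImplicit false

open Filter Topology Finset

namespace Pool.Agent.H930R3.BK

open Pool.Agent.H305R2 Pool.Agent.H341R2

/-- `∑_p (-log (1 - 1/p) - 1/p)` -/
noncomputable def K0 : ℝ := ∑' n, kk 0 n

lemma lam_eq {w : ℝ} (hw : 0 < w) : lam w = ∑' n : ℕ, fp n * (n : ℝ) ^ (-w) := by
  rw [← (Pool.Agent.H438R3.BSD.lam_hasSum hw).tsum_eq]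
  refine tsum_congr fun n => ?_
  unfold fp
  split_ifs with hn
  · have hn0 : (0 : ℝ) < n := by exact_mod_cast hn.pos
    rw [neg_add, Real.rpow_add hn0, Real.rpow_neg_one, one_div]
  · simp

theorem lam_lim : Tendsto (fun w : ℝ => lam w + Real.log w) (𝓝[>] 0) (𝓝 (-K0)) := by
  have hlog : Tendsto (fun d : ℝ => Real.log (riemannZeta ((1 + d : ℝ) : ℂ)).re + Real.log d) (𝓝[>] 0)
      (𝓝 0) := by
    have h1 := log_riemannZeta_add_log_sub_isLittleO_ofReal.tendsto_div_nhds_zero
    simp only [div_one] at h1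
    have h2 : Tendsto (fun d : ℝ => 1 + d) (𝓝[>] 0) (𝓝[>] 1) := by
      refine tendsto_nhdsWithin_iff.2 ⟨?_, ?_⟩
      · have : Tendsto (fun d : ℝ => 1 + d) (𝓝 0) (𝓝 (1 + 0)) := by
          exact (continuous_const.add continuous_id).tendsto 0
        rw [add_zero] at this
        exact this.mono_left nhdsWithin_le_nhds
      · filter_upwards [self_mem_nhdsWithin] with d hd
        have hd : 0 < d := hd
        simp only [Set.mem_Ioi]
        linarith
    have h3 := h1.comp h2
    refine h3.congr fun d => ?_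
    simp only [Function.comp, add_sub_cancel_left]
  have h := hlog.sub tendsto_tsum_kk
  rw [zero_sub] at h
  refine h.congr' ?_
  filter_upwards [self_mem_nhdsWithin] with d hd
  have hd : 0 < d := hd
  rw [log_zeta_eq hd, lam_eq hd]
  ring

theorem mertens_S : Tendsto (fun N : ℕ => ∑ p ∈ (Finset.Icc 1 N).filter Nat.Prime, (1 : ℝ) / p -
    Real.log (Real.log N)) atTop (𝓝 (Real.eulerMascheroniConstant - K0)) := by
  have h1 := mertens_three.log (Real.exp_pos _).ne'
  rw [Real.log_exp] at h1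
  have hs : Tendsto (fun N : ℕ => ∑ n ∈ Finset.range (N + 1), kk 0 n) atTop (𝓝 (∑' n, kk 0 n)) :=
    ((summable_kk le_rfl).hasSum.tendsto_sum_nat).comp (tendsto_add_atTop_nat 1)
  have h2 := h1.sub hs
  refine h2.congr' ?_
  have hlog : ∀ᶠ x : ℕ in atTop, (1 : ℝ) < Real.log x :=
    (Real.tendsto_log_atTop.comp tendsto_natCast_atTop_atTop).eventually_gt_atTop _
  filter_upwards [hlog] with N hN
  have hpos : ∀ p ∈ (Finset.Icc 1 N).filter Nat.Prime, (1 - (p : ℝ)⁻¹)⁻¹ ≠ 0 := by
    intro p hp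
    have hp2 : (2 : ℝ) ≤ p := by exact_mod_cast (Finset.mem_filter.1 hp).2.two_le
    have : (p : ℝ)⁻¹ ≤ 2⁻¹ := inv_anti₀ (by norm_num) hp2
    have : 0 < 1 - (p : ℝ)⁻¹ := by linarith
    positivity
  rw [Real.log_div (Finset.prod_ne_zero_iff.2 hpos) (by linarith), Real.log_prod hpos]
  have e : ∑ n ∈ Finset.range (N + 1), kk 0 n = ∑ p ∈ (Finset.Icc 1 N).filter Nat.Prime,
      (Real.log ((1 - (p : ℝ)⁻¹)⁻¹) - 1 / p) := by
    unfold kk
    rw [← Finset.sum_filter]
    have e1 : (Finset.range (N + 1)).filter Nat.Prime = (Finset.Icc 1 N).filter Nat.Prime := by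
      ext k
      simp only [Finset.mem_filter, Finset.mem_range, Finset.mem_Icc]
      constructor
      · rintro ⟨h1, h2⟩
        exact ⟨⟨h2.one_le, by omega⟩, h2⟩
      · rintro ⟨⟨h1, h2⟩, h3⟩
        exact ⟨by omega, h3⟩
    rw [e1]
    refine Finset.sum_congr rfl fun p hp => ?_
    rw [Real.log_inv, add_zero, Real.rpow_neg_one, one_div]
  rw [e, Finset.sum_sub_distrib]
  ring

end Pool.Agent.H930R3.BK
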