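import Pool.Agent.H930R3.BK.A

/-! The square terms and the local remainder terms. -/

set_option autoImplicit false

open Complex Filter Topology Finset

namespace Pool.Agent.H930R3.BK

open Pool.Agent.H438R3.BSD Pool.Agent.H341R2

section

variable (good : ℕ → Prop) [DecidablePred good] (α : ℕ → ℂ)

/-- half of the sum of the squares of the two numbers `α/p` -/
noncomputable def uu (p : ℕ) : ℝ := if good p then ((α p) ^ 2).re / (p : ℝ) ^ 2 else 0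

/-- `uu p` at `n = p ^ 2` -/
noncomputable def sq (n : ℕ) : ℝ := if Nat.sqrt n * Nat.sqrt n = n then uu good α (Nat.sqrt n) else 0

/-- the coefficients -/
noncomputable def mt (ε κ θ : ℝ) (n : ℕ) : ℝ := mm good α ε κ n - ε * θ * (uu good α n - sq good α n)

/-- the local remainder -/
noncomputable def cc (θ : ℝ) (p : ℕ) (s : ℂ) : ℂ :=
  dd good α p s - θ * (uu good α p : ℂ) * ((p : ℂ) ^ (2 - 2 * s) - (p : ℂ) ^ (1 - s))

variable {good α}
variable (hgood : ∀ p, good p → p.Prime) (hα : ∀ p, good p → ‖α p‖ = (p : ℝ) ^ (1 / 2 : ℝ))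

include hgood hα

lemma norm_al_sq {p : ℕ} (hp : good p) : ‖α p‖ ^ 2 = p := by
  rw [hα p hp, ← Real.rpow_natCast, ← Real.rpow_mul (Nat.cast_nonneg p)]
  norm_num

lemma uu_le (p : ℕ) (hp0 : 1 ≤ p) : |uu good α p| ≤ (p : ℝ)⁻¹ := by
  have hp : (0 : ℝ) < p := by exact_mod_cast hp0
  unfold uu
  split_ifs with h
  · rw [abs_div, abs_of_pos (by positivity : (0 : ℝ) < (p : ℝ) ^ 2), div_le_iff₀ (by positivity)]
    calc |((α p) ^ 2).re| ≤ ‖(α p) ^ 2‖ := Complex.abs_re_le_norm _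
      _ = p := by rw [norm_pow, norm_al_sq hgood hα h]
      _ = (p : ℝ)⁻¹ * (p : ℝ) ^ 2 := by field_simp
  · rw [abs_zero]; positivity

lemma uu_not {p : ℕ} (hp : ¬ p.Prime) : uu good α p = 0 := by
  unfold uu
  rw [if_neg (fun h => hp (hgood p h))]

lemma sq_le (n : ℕ) (hn : 1 ≤ n) : |sq good α n| ≤ (n : ℝ) ^ (-(1 / 2) : ℝ) := by
  have hn0 : (0 : ℝ) < n := by exact_mod_cast hn
  unfold sq
  split_ifs with h
  · have h1 : 1 ≤ Nat.sqrt n := by
      by_contra hcon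
      have : Nat.sqrt n = 0 := by omega
      rw [this] at h
      omega
    refine (uu_le hgood hα _ h1).trans (le_of_eq ?_)
    have h2 : (n : ℝ) = (Nat.sqrt n : ℝ) * (Nat.sqrt n : ℝ) := by exact_mod_cast h.symm
    rw [Real.rpow_neg hn0.le, ← Real.sqrt_eq_rpow, h2, Real.sqrt_mul_self (by positivity)]
  · rw [abs_zero]; positivity

lemma mt_le (ε κ θ : ℝ) (hε : |ε| = 1) (n : ℕ) (hn : 1 ≤ n) :
    |mt good α ε κ θ n| ≤ (|κ| + 5 + 2 * |θ|) * (n : ℝ) ^ (-(1 / 2) : ℝ) := by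
  have hn1 : (1 : ℝ) ≤ n := by exact_mod_cast hn
  have h1 := mm_le hgood hα ε κ hε n hn
  have h2 := uu_le hgood hα n hn
  have h3 := sq_le hgood hα n hn
  have h4 : (n : ℝ)⁻¹ ≤ (n : ℝ) ^ (-(1 / 2) : ℝ) := by
    rw [← Real.rpow_neg_one]
    exact Real.rpow_le_rpow_of_exponent_le hn1 (by norm_num)
  unfold mt
  have h5 : |ε * θ * (uu good α n - sq good α n)| ≤ 2 * |θ| * (n : ℝ) ^ (-(1 / 2) : ℝ) := by
    rw [abs_mul, abs_mul, hε, one_mul]
    have h6 : |uu good α n - sq good α n| ≤ 2 * (n : ℝ) ^ (-(1 / 2) : ℝ) :=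
      (abs_sub _ _).trans (by linarith)
    calc |θ| * |uu good α n - sq good α n| ≤ |θ| * (2 * (n : ℝ) ^ (-(1 / 2) : ℝ)) :=
          mul_le_mul_of_nonneg_left h6 (abs_nonneg _)
      _ = _ := by ring
  refine (abs_sub _ _).trans ?_
  linarith

omit hgood hα in
lemma PS_le_gen {m : ℕ → ℝ} {K : ℝ} (hK : 0 ≤ K)
    (hm : ∀ n : ℕ, 1 ≤ n → |m n| ≤ K * (n : ℝ) ^ (-(1 / 2) : ℝ)) (C : ℝ) (n : ℕ) (hn : 1 ≤ n) :
    |PS C m n| ≤ (|C| + 2 * K) * (n : ℝ) ^ (1 / 2 : ℝ) := by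
  have hn1 : (1 : ℝ) ≤ n := by exact_mod_cast hn
  have h1 : (1 : ℝ) ≤ (n : ℝ) ^ (1 / 2 : ℝ) := Real.one_le_rpow hn1 (by norm_num)
  unfold PS
  calc |C + ∑ k ∈ Icc 1 n, m k| ≤ |C| + |∑ k ∈ Icc 1 n, m k| := abs_add_le _ _
    _ ≤ |C| + ∑ k ∈ Icc 1 n, K * (k : ℝ) ^ (-(1 / 2) : ℝ) := by
        refine add_le_add_right ((Finset.abs_sum_le_sum_abs _ _).trans ?_) _
        exact Finset.sum_le_sum fun k hk => hm k (mem_Icc.1 hk).1
    _ = |C| * 1 + K * ∑ k ∈ Icc 1 n, (k : ℝ) ^ (-(1 / 2) : ℝ) := by rw [Finset.mul_sum, mul_one]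
    _ ≤ |C| * (n : ℝ) ^ (1 / 2 : ℝ) + K * (2 * (n : ℝ) ^ (1 / 2 : ℝ)) := by
        have := sum_rpow_half n
        gcongr
    _ = _ := by ring

lemma uu_term_le (θ : ℝ) (p : ℕ) (s : ℂ) (hs : 1 ≤ s.re) :
    ‖(θ : ℂ) * (uu good α p : ℂ) * ((p : ℂ) ^ (2 - 2 * s) - (p : ℂ) ^ (1 - s))‖ ≤
      2 * |θ| * (p : ℝ) ^ (-s.re) := by
  by_cases hp : good p
  · have hpp := hgood p hp
    have hp0 : (0 : ℝ) < p := by exact_mod_cast hpp.pos
    have hp1 : (1 : ℝ) ≤ p := by exact_mod_cast hpp.one_le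
    rw [norm_mul, norm_mul, Complex.norm_real, Complex.norm_real, Real.norm_eq_abs, Real.norm_eq_abs]
    have h1 := uu_le hgood hα p hpp.one_le
    have h2 : ‖(p : ℂ) ^ (2 - 2 * s)‖ ≤ (p : ℝ) ^ (1 - s.re) := by
      rw [Complex.norm_natCast_cpow_of_pos hpp.pos]
      apply Real.rpow_le_rpow_of_exponent_le hp1
      simp
      linarith
    have h3 : ‖(p : ℂ) ^ (1 - s)‖ = (p : ℝ) ^ (1 - s.re) := by
      rw [Complex.norm_natCast_cpow_of_pos hpp.pos]; simp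
    have h4 : ‖(p : ℂ) ^ (2 - 2 * s) - (p : ℂ) ^ (1 - s)‖ ≤ 2 * (p : ℝ) ^ (1 - s.re) := by
      refine (norm_sub_le _ _).trans ?_
      rw [h3]; linarith
    calc |θ| * |uu good α p| * ‖(p : ℂ) ^ (2 - 2 * s) - (p : ℂ) ^ (1 - s)‖
        ≤ |θ| * (p : ℝ)⁻¹ * (2 * (p : ℝ) ^ (1 - s.re)) := by gcongr
      _ = 2 * |θ| * ((p : ℝ) ^ (-1 : ℝ) * (p : ℝ) ^ (1 - s.re)) := by rw [Real.rpow_neg_one]; ring
      _ = 2 * |θ| * (p : ℝ) ^ (-s.re) := by
          rw [← Real.rpow_add hp0]; congr 2; ring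
  · unfold uu
    rw [if_neg hp]
    simp only [ofReal_zero, mul_zero, zero_mul, norm_zero]
    positivity

lemma cc_le (θ : ℝ) (p : ℕ) (s : ℂ) (hs : 1 ≤ s.re) :
    ‖cc good α θ p s‖ ≤ (8 + 2 * |θ|) * (p : ℝ) ^ (-s.re) := by
  unfold cc
  refine (norm_sub_le _ _).trans ?_
  have h1 := dd_le hgood hα p s hs
  have h2 := uu_term_le hgood hα θ p s hs
  linarith

lemma cc_summable (θ : ℝ) {s : ℂ} (hs : 1 < s.re) : Summable (fun p => cc good α θ p s) := by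
  refine Summable.of_norm_bounded ((Real.summable_nat_rpow.2 (by linarith : -s.re < -1)).mul_left
    (8 + 2 * |θ|)) ?_
  exact fun p => cc_le hgood hα θ p s hs.le

lemma cc_diffAt (θ : ℝ) (p : ℕ) {s : ℂ} (hs : 1 ≤ s.re) : DifferentiableAt ℂ (cc good α θ p) s := by
  unfold cc dd uu
  by_cases hp : good p
  · simp only [if_pos hp]
    have hpc : (p : ℂ) ≠ 0 := by exact_mod_cast (hgood p hp).ne_zero
    have d1 : DifferentiableAt ℂ (fun s : ℂ => (p : ℂ) ^ (2 - 2 * s)) s :=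
      DifferentiableAt.const_cpow (by fun_prop) (Or.inl hpc)
    have d2 : DifferentiableAt ℂ (fun s : ℂ => (p : ℂ) ^ (1 - s)) s :=
      DifferentiableAt.const_cpow (by fun_prop) (Or.inl hpc)
    exact ((del_differentiable (hgood p hp) (hα p hp) hs).add
      (del_differentiable (hgood p hp) (norm_conj_alpha hgood hα hp) hs)).sub
        ((d1.sub d2).const_mul _)
  · simp only [if_neg hp, ofReal_zero, mul_zero, zero_mul, sub_zero]
    exact differentiableAt_const _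

lemma CC_differentiable (θ : ℝ) : DifferentiableOn ℂ (fun s => ∑' p, cc good α θ p s) {s | 1 < s.re} := by
  intro s0 hs0
  have hs0' : 1 < s0.re := hs0
  set t := (1 + s0.re) / 2 with ht
  have ht1 : 1 < t := by rw [ht]; linarith
  have ht2 : t < s0.re := by rw [ht]; linarith
  have hd : DifferentiableOn ℂ (fun s => ∑' p, cc good α θ p s) {s | t < s.re} := by
    refine differentiableOn_tsum_of_summable_norm (u := fun p : ℕ => (8 + 2 * |θ|) * (p : ℝ) ^ (-t))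
      ((Real.summable_nat_rpow.2 (by linarith : -t < -1)).mul_left _) (fun p => ?_) (Pool.Agent.H438R3.BSD.isOpen_re_gt t)
      (fun p s hs => ?_)
    · intro s hs
      have hs1 : 1 ≤ s.re := by have : t < s.re := hs; linarith
      exact (cc_diffAt hgood hα θ p hs1).differentiableWithinAt
    · have hs' : t < s.re := hs
      refine (cc_le hgood hα θ p s (by linarith)).trans ?_
      rcases Nat.eq_zero_or_pos p with h0 | h0
      · rw [h0]
        simp only [Nat.cast_zero]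
        rw [Real.zero_rpow (by linarith), Real.zero_rpow (by linarith)]
      · have hp1 : (1 : ℝ) ≤ p := by exact_mod_cast h0
        refine mul_le_mul_of_nonneg_left ?_ (by positivity)
        exact Real.rpow_le_rpow_of_exponent_le hp1 (by linarith)
  exact (hd.differentiableAt ((Pool.Agent.H438R3.BSD.isOpen_re_gt t).mem_nhds ht2)).differentiableWithinAt

omit hgood hα in
omit [DecidablePred good] in
lemma del_cubic {p : ℕ} (hp : p.Prime) {β : ℂ} (hβ : ‖β‖ = (p : ℝ) ^ (1 / 2 : ℝ)) (σ : ℝ) (hs : 1 ≤ σ) :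
    ‖del p β σ - β ^ 2 / 2 / (p : ℂ) ^ 2 * ((p : ℂ) ^ (2 - 2 * (σ : ℂ)) - (p : ℂ) ^ (1 - (σ : ℂ)))‖ ≤
      4 * (p : ℝ) ^ (-(3 / 2) : ℝ) := by
  have hp0 : (0 : ℝ) < p := by exact_mod_cast hp.pos
  have hp2 : (2 : ℝ) ≤ p := by exact_mod_cast hp.two_le
  have hpc : (p : ℂ) ≠ 0 := by exact_mod_cast hp.ne_zero
  have h1 := norm_a hp hβ (σ : ℂ)
  have h2 := norm_b hp hβ
  have h3 : ‖(p : ℂ) ^ (1 - (σ : ℂ))‖ = (p : ℝ) ^ (1 - σ) := by
    rw [Complex.norm_natCast_cpow_of_pos hp.pos]; simp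
  simp only [ofReal_re] at h1
  have h4 := rr_le3 (z := β * (p : ℂ) ^ (-(σ : ℂ))) (by rw [h1]; exact x_rpow_le hp2 (by linarith))
  have h5 := rr_le3 (z := β / (p : ℂ)) (by rw [h2]; exact x_rpow_le hp2 (by linarith))
  rw [h1] at h4
  rw [h2] at h5
  set A := rr (β * (p : ℂ) ^ (-(σ : ℂ))) - (β * (p : ℂ) ^ (-(σ : ℂ))) ^ 2 / 2 with hA
  set B := rr (β / (p : ℂ)) - (β / (p : ℂ)) ^ 2 / 2 with hB
  have e1 : del p β σ - β ^ 2 / 2 / (p : ℂ) ^ 2 * ((p : ℂ) ^ (2 - 2 * (σ : ℂ)) - (p : ℂ) ^ (1 - (σ : ℂ))) =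
      A - (p : ℂ) ^ (1 - (σ : ℂ)) * B := by
    have e2 : (p : ℂ) ^ (2 - 2 * (σ : ℂ)) = (p : ℂ) ^ 2 * ((p : ℂ) ^ (-(σ : ℂ))) ^ 2 := by
      have : (2 - 2 * (σ : ℂ)) = 2 + (-(σ : ℂ) + -(σ : ℂ)) := by ring
      rw [this, Complex.cpow_add _ _ hpc, Complex.cpow_add _ _ hpc]
      have e3 : (p : ℂ) ^ (2 : ℂ) = (p : ℂ) ^ 2 := by
        rw [← Complex.cpow_natCast]; norm_num
      rw [e3]; ring
    unfold del
    rw [hA, hB, e2]
    field_simp
    ring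
  rw [e1]
  have h6 : ((p : ℝ) ^ (1 / 2 - σ)) ^ 3 ≤ (p : ℝ) ^ (-(3 / 2) : ℝ) := by
    rw [← Real.rpow_natCast, ← Real.rpow_mul hp0.le]
    apply Real.rpow_le_rpow_of_exponent_le (by linarith)
    push_cast
    linarith
  have h7 : (p : ℝ) ^ (1 - σ) * ((p : ℝ) ^ (-(1 / 2) : ℝ)) ^ 3 ≤ (p : ℝ) ^ (-(3 / 2) : ℝ) := by
    rw [← Real.rpow_natCast, ← Real.rpow_mul hp0.le, ← Real.rpow_add hp0]
    apply Real.rpow_le_rpow_of_exponent_le (by linarith)
    push_cast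
    linarith
  calc ‖A - (p : ℂ) ^ (1 - (σ : ℂ)) * B‖ ≤ ‖A‖ + ‖(p : ℂ) ^ (1 - (σ : ℂ)) * B‖ := norm_sub_le _ _
    _ ≤ 2 * ((p : ℝ) ^ (1 / 2 - σ)) ^ 3 + (p : ℝ) ^ (1 - σ) * (2 * ((p : ℝ) ^ (-(1 / 2) : ℝ)) ^ 3) := by
        rw [norm_mul, h3]
        gcongr
    _ = 2 * ((p : ℝ) ^ (1 / 2 - σ)) ^ 3 + 2 * ((p : ℝ) ^ (1 - σ) * ((p : ℝ) ^ (-(1 / 2) : ℝ)) ^ 3) := by ring
    _ ≤ 2 * (p : ℝ) ^ (-(3 / 2) : ℝ) + 2 * (p : ℝ) ^ (-(3 / 2) : ℝ) := by gcongr
    _ = _ := by ring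

lemma cc_one_le (p : ℕ) (σ : ℝ) (hs : 1 ≤ σ) : ‖cc good α 1 p σ‖ ≤ 8 * (p : ℝ) ^ (-(3 / 2) : ℝ) := by
  unfold cc dd uu
  by_cases hp : good p
  · simp only [if_pos hp]
    have h1 := del_cubic (hgood p hp) (hα p hp) σ hs
    have h2 := del_cubic (hgood p hp) (norm_conj_alpha hgood hα hp) σ hs
    set X := (p : ℂ) ^ (2 - 2 * (σ : ℂ)) - (p : ℂ) ^ (1 - (σ : ℂ)) with hX
    have e : del p (α p) σ + del p (starRingEnd ℂ (α p)) σ -
        ((1 : ℝ) : ℂ) * ((((α p) ^ 2).re / (p : ℝ) ^ 2 : ℝ) : ℂ) * X =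
        (del p (α p) σ - (α p) ^ 2 / 2 / (p : ℂ) ^ 2 * X) +
        (del p (starRingEnd ℂ (α p)) σ - (starRingEnd ℂ (α p)) ^ 2 / 2 / (p : ℂ) ^ 2 * X) := by
      have e2 : ((((α p) ^ 2).re : ℝ) : ℂ) = ((α p) ^ 2 + (starRingEnd ℂ (α p)) ^ 2) / 2 := by
        rw [← map_pow, Complex.add_conj]
        push_cast
        ring
      push_cast
      rw [e2]
      ring
    rw [e]
    refine (norm_add_le _ _).trans ?_
    linarith
  · simp only [if_neg hp, ofReal_zero, mul_zero, zero_mul, sub_zero, norm_zero]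
    positivity

lemma cc_at_one (p : ℕ) : cc good α 1 p 1 = 0 := by
  unfold cc dd uu
  by_cases hp : good p
  · simp only [if_pos hp]
    have hpc : (p : ℂ) ≠ 0 := by exact_mod_cast (hgood p hp).ne_zero
    unfold del
    have e1 : (p : ℂ) ^ (-(1 : ℂ)) = (p : ℂ)⁻¹ := Complex.cpow_neg_one _
    have e2 : (p : ℂ) ^ (1 - (1 : ℂ)) = 1 := by rw [sub_self, Complex.cpow_zero]
    have e3 : (p : ℂ) ^ (2 - 2 * (1 : ℂ)) = 1 := by
      rw [show (2 - 2 * (1 : ℂ)) = 0 by ring, Complex.cpow_zero]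
    rw [e1, e2, e3, div_eq_mul_inv, div_eq_mul_inv]
    ring
  · simp only [if_neg hp, ofReal_zero, mul_zero, zero_mul, sub_zero]

lemma CC_one_tendsto : Tendsto (fun w : ℝ => ∑' p, cc good α 1 p (1 + w)) (𝓝[>] 0) (𝓝 0) := by
  have h0 : (∑' p : ℕ, (0 : ℂ)) = 0 := tsum_zero
  rw [← h0]
  have hb : Summable (fun p : ℕ => 8 * (p : ℝ) ^ (-(3 / 2) : ℝ)) :=
    (Real.summable_nat_rpow.2 (by norm_num)).mul_left 8
  refine tendsto_tsum_of_dominated_convergence hb ?_ ?_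
  · intro p
    have h1 : ContinuousAt (cc good α 1 p) 1 :=
      (cc_diffAt hgood hα 1 p (by simp : (1 : ℝ) ≤ (1 : ℂ).re)).continuousAt
    have h2 : Tendsto (fun w : ℝ => (1 : ℂ) + w) (𝓝[>] 0) (𝓝 1) := by
      have : ContinuousAt (fun w : ℝ => (1 : ℂ) + (w : ℂ)) 0 := by fun_prop
      have h3 := this.tendsto
      simp only [ofReal_zero, add_zero] at h3
      exact h3.mono_left nhdsWithin_le_nhds
    have h3 := h1.tendsto.comp h2
    rw [cc_at_one hgood hα] at h3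
    exact h3
  · filter_upwards [self_mem_nhdsWithin] with w hw p
    have hw : (0 : ℝ) < w := hw
    have e1 : (1 : ℂ) + w = ((1 + w : ℝ) : ℂ) := by push_cast; rfl
    rw [e1]
    exact cc_one_le hgood hα p (1 + w) (by linarith)

/-- `|Re ∑ cc(1 + w)| ≤ (1 - θ) log 2 + o(1)` -/
theorem CC_bound (θ : ℝ) (h0 : 0 ≤ θ) (h1 : θ ≤ 1) (δ : ℝ) (hδ : 0 < δ) :
    ∀ᶠ w : ℝ in 𝓝[>] 0, |(∑' p, cc good α θ p (1 + w)).re| ≤ (1 - θ) * Real.log 2 + δ := by
  have hA : ∀ᶠ w : ℝ in 𝓝[>] 0, ‖∑' p, cc good α 1 p (1 + w)‖ < δ / 2 := by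
    have := (CC_one_tendsto hgood hα).norm
    rw [norm_zero] at this
    exact this.eventually_lt_const (by positivity)
  have hB : Tendsto (fun w : ℝ => lam w - lam (2 * w)) (𝓝[>] 0) (𝓝 (Real.log 2)) := by
    have ht : Tendsto (fun w : ℝ => 2 * w) (𝓝[>] 0) (𝓝[>] 0) := by
      rw [tendsto_nhdsWithin_iff]
      constructor
      · have : ContinuousAt (fun w : ℝ => 2 * w) 0 := by fun_prop
        have h2 := this.tendsto
        simp only [mul_zero] at h2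
        exact h2.mono_left nhdsWithin_le_nhds
      · filter_upwards [self_mem_nhdsWithin] with w hw
        have : (0 : ℝ) < w := hw
        show (0 : ℝ) < 2 * w
        linarith
    have h2 := (lam_lim.sub (lam_lim.comp ht)).add_const (Real.log 2)
    rw [sub_self, zero_add] at h2
    refine h2.congr' ?_
    filter_upwards [self_mem_nhdsWithin] with w hw
    have hw : (0 : ℝ) < w := hw
    simp only [Function.comp]
    rw [Real.log_mul (by norm_num) hw.ne']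
    ring
  have hB' : ∀ᶠ w : ℝ in 𝓝[>] 0, lam w - lam (2 * w) < Real.log 2 + δ / 2 :=
    hB.eventually_lt_const (by linarith)
  filter_upwards [hA, hB', self_mem_nhdsWithin] with w h2 h3 h4
  have hw : (0 : ℝ) < w := h4
  have hre : (1 : ℝ) < ((1 : ℂ) + w).re := by simp [hw]
  have hs1 := cc_summable hgood hα θ hre
  have hs2 := cc_summable hgood hα 1 hre
  have hdiff : ‖∑' p, (cc good α θ p (1 + w) - cc good α 1 p (1 + w))‖ ≤ (1 - θ) * (lam w - lam (2 * w)) := by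
    have hl1 := lam_hasSum hw
    have hl2 := lam_hasSum (w := 2 * w) (by linarith)
    refine tsum_of_norm_bounded ((hl1.sub hl2).mul_left (1 - θ)) fun p => ?_
    have e : cc good α θ p (1 + w) - cc good α 1 p (1 + w) =
        ((1 - θ : ℝ) : ℂ) * (uu good α p : ℂ) * ((p : ℂ) ^ (2 - 2 * ((1 : ℂ) + w)) - (p : ℂ) ^ (1 - ((1 : ℂ) + w))) := by
      unfold cc
      push_cast
      ring
    rw [e]
    by_cases hp : good p
    · have hpp := hgood p hp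
      rw [if_pos hpp, if_pos hpp]
      have hp0 : (0 : ℝ) < p := by exact_mod_cast hpp.pos
      have hp1 : (1 : ℝ) ≤ p := by exact_mod_cast hpp.one_le
      have hu := uu_le hgood hα p hpp.one_le
      have e2 : (p : ℂ) ^ (2 - 2 * ((1 : ℂ) + w)) = (((p : ℝ) ^ (-(2 * w)) : ℝ) : ℂ) := by
        rw [Complex.ofReal_cpow hp0.le]; push_cast; congr 1; ring
      have e3 : (p : ℂ) ^ (1 - ((1 : ℂ) + w)) = (((p : ℝ) ^ (-w) : ℝ) : ℂ) := by
        rw [Complex.ofReal_cpow hp0.le]; push_cast; congr 1; ring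
      rw [e2, e3, ← Complex.ofReal_sub, norm_mul, norm_mul, Complex.norm_real, Complex.norm_real,
        Complex.norm_real, Real.norm_eq_abs, Real.norm_eq_abs, Real.norm_eq_abs,
        abs_of_nonneg (by linarith : (0 : ℝ) ≤ 1 - θ)]
      have h5 : (p : ℝ) ^ (-(2 * w)) ≤ (p : ℝ) ^ (-w) :=
        Real.rpow_le_rpow_of_exponent_le hp1 (by linarith)
      rw [abs_of_nonpos (by linarith : (p : ℝ) ^ (-(2 * w)) - (p : ℝ) ^ (-w) ≤ 0), neg_sub]
      have e4 : (p : ℝ) ^ (-(1 + w)) = (p : ℝ)⁻¹ * (p : ℝ) ^ (-w) := by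
        rw [neg_add, Real.rpow_add hp0, Real.rpow_neg_one]
      have e5 : (p : ℝ) ^ (-(1 + 2 * w)) = (p : ℝ)⁻¹ * (p : ℝ) ^ (-(2 * w)) := by
        rw [neg_add, Real.rpow_add hp0, Real.rpow_neg_one]
      rw [e4, e5, ← mul_sub, mul_assoc]
      refine mul_le_mul_of_nonneg_left ?_ (by linarith)
      exact mul_le_mul_of_nonneg_right hu (by linarith)
    · have hu : uu good α p = 0 := by unfold uu; rw [if_neg hp]
      rw [hu]
      simp only [ofReal_zero, mul_zero, zero_mul, norm_zero]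
      split_ifs with hpp
      · have hp1 : (1 : ℝ) ≤ p := by exact_mod_cast hpp.one_le
        have h7 : (p : ℝ) ^ (-(1 + 2 * w)) ≤ (p : ℝ) ^ (-(1 + w)) :=
          Real.rpow_le_rpow_of_exponent_le hp1 (by linarith)
        exact mul_nonneg (by linarith) (by linarith)
      · simp
  rw [hs1.tsum_sub hs2] at hdiff
  have h6 : ‖∑' p, cc good α θ p (1 + w)‖ ≤ (1 - θ) * (lam w - lam (2 * w)) + δ / 2 := by
    have e : ∑' p, cc good α θ p (1 + w) = (∑' p, cc good α θ p (1 + w) - ∑' p, cc good α 1 p (1 + w)) +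
      ∑' p, cc good α 1 p (1 + w) := by ring
    rw [e]
    refine (norm_add_le _ _).trans ?_
    linarith
  refine (Complex.abs_re_le_norm _).trans (h6.trans ?_)
  have h7 : (1 - θ) * (lam w - lam (2 * w)) ≤ (1 - θ) * (Real.log 2 + δ / 2) :=
    mul_le_mul_of_nonneg_left h3.le (by linarith)
  nlinarith

end

end Pool.Agent.H930R3.BK
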