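import Pool.Agent.H930R3.BK.B
import Pool.Agent.H438R3.BSD.Prod2

/-! The sharp form of the one-sided theorem for Euler products of degree two at the centre. -/

set_option autoImplicit false

open Complex Filter Topology Finset

namespace Pool.Agent.H930R3.BK

open Pool.Agent.H438R3.BSD Pool.Agent.H341R2

section

variable {good : ℕ → Prop} [DecidablePred good] {α : ℕ → ℂ}
variable (hgood : ∀ p, good p → p.Prime) (hα : ∀ p, good p → ‖α p‖ = (p : ℝ) ^ (1 / 2 : ℝ))

include hgood hα

lemma uu1_summable {s : ℂ} (hs : 1 < s.re) :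
    Summable (fun n : ℕ => (uu good α n : ℂ) * (n : ℂ) ^ (1 - s)) := by
  refine Summable.of_norm_bounded (Real.summable_nat_rpow.2 (by linarith : -s.re < -1)) fun n => ?_
  rcases Nat.eq_zero_or_pos n with h0 | h0
  · rw [h0, uu_not hgood hα Nat.not_prime_zero]
    simp only [ofReal_zero, zero_mul, norm_zero]
    positivity
  · have hn0 : (0 : ℝ) < n := by exact_mod_cast h0
    rw [norm_mul, Complex.norm_real, Real.norm_eq_abs, Complex.norm_natCast_cpow_of_pos h0]
    have h1 := uu_le hgood hα n h0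
    calc |uu good α n| * (n : ℝ) ^ (1 - s).re ≤ (n : ℝ)⁻¹ * (n : ℝ) ^ (1 - s).re :=
          mul_le_mul_of_nonneg_right h1 (by positivity)
      _ = (n : ℝ) ^ (-s.re) := by
          rw [← Real.rpow_neg_one, ← Real.rpow_add hn0]; congr 1; simp; ring

lemma uu2_summable {s : ℂ} (hs : 1 < s.re) :
    Summable (fun n : ℕ => (uu good α n : ℂ) * (n : ℂ) ^ (2 - 2 * s)) := by
  refine Summable.of_norm_bounded (Real.summable_nat_rpow.2 (by linarith : -s.re < -1)) fun n => ?_
  rcases Nat.eq_zero_or_pos n with h0 | h0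
  · rw [h0, uu_not hgood hα Nat.not_prime_zero]
    simp only [ofReal_zero, zero_mul, norm_zero]
    positivity
  · have hn0 : (0 : ℝ) < n := by exact_mod_cast h0
    have hn1 : (1 : ℝ) ≤ n := by exact_mod_cast h0
    rw [norm_mul, Complex.norm_real, Real.norm_eq_abs, Complex.norm_natCast_cpow_of_pos h0]
    have h1 := uu_le hgood hα n h0
    calc |uu good α n| * (n : ℝ) ^ (2 - 2 * s).re ≤ (n : ℝ)⁻¹ * (n : ℝ) ^ (1 - s.re) := by
          refine mul_le_mul h1 ?_ (by positivity) (by positivity)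
          apply Real.rpow_le_rpow_of_exponent_le hn1
          simp
          linarith
      _ = (n : ℝ) ^ (-s.re) := by
          rw [← Real.rpow_neg_one, ← Real.rpow_add hn0]; congr 1; ring

lemma sq_hasSum {s : ℂ} (hs : 1 < s.re) :
    HasSum (fun n : ℕ => (sq good α n : ℂ) * (n : ℂ) ^ (1 - s))
      (∑' n : ℕ, (uu good α n : ℂ) * (n : ℂ) ^ (2 - 2 * s)) := by
  have hinj : Function.Injective (fun p : ℕ => p * p) := by
    intro a b hab
    exact Nat.mul_self_inj.1 hab
  have h1 := (uu2_summable hgood hα hs).hasSum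
  refine (hinj.hasSum_iff ?_).1 ?_
  · intro n hn
    have : ¬ (Nat.sqrt n * Nat.sqrt n = n) := fun h => hn ⟨Nat.sqrt n, h⟩
    unfold sq
    rw [if_neg this, ofReal_zero, zero_mul]
  · convert h1 using 1
    funext p
    simp only [Function.comp]
    unfold sq
    rw [Nat.sqrt_eq, if_pos rfl]
    rcases Nat.eq_zero_or_pos p with h0 | h0
    · rw [h0, uu_not hgood hα Nat.not_prime_zero]
      simp
    · congr 1
      have hpc : (p : ℂ) ≠ 0 := by exact_mod_cast h0.ne'
      have e : ((p * p : ℕ) : ℂ) ^ (1 - s) = (p : ℂ) ^ (1 - s) * (p : ℂ) ^ (1 - s) := by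
        push_cast
        exact Complex.natCast_mul_natCast_cpow p p (1 - s)
      rw [e, ← Complex.cpow_add _ _ hpc]
      congr 1
      ring

/-- The abstract theorem, for logarithmic averages, with constants. -/
theorem main_sharp (ε κ θ C D : ℝ) (hε : ε = 1 ∨ ε = -1) (hθ0 : 0 ≤ θ) (hθ1 : θ ≤ 1)
    (hG : ∀ n, 0 ≤ AS C (mt good α ε κ θ) n + D) (F : ℂ → ℂ) (hF : Differentiable ℂ F)
    (hprod : ∀ s : ℂ, 3 / 2 < s.re → HasProd (fun p : ℕ => if good p then
      ((1 - α p * (p : ℂ) ^ (-s)) * (1 - starRingEnd ℂ (α p) * (p : ℂ) ^ (-s)))⁻¹ else 1) (F s))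
    (hreal : ε = -1 → ∀ σ : ℝ, 1 < σ → F σ ≠ 0) :
    (∀ s : ℂ, 1 < s.re → F s ≠ 0) ∧
    ∀ δ : ℝ, 0 < δ → ∀ᶠ w : ℝ in 𝓝[>] 0,
      -(ε * (κ * lam w)) - C - (1 - θ) * Real.log 2 - δ ≤ ε * Real.log ‖F (1 + w)‖ := by
  have hε1 : |ε| = 1 := by rcases hε with h | h <;> rw [h] <;> simp
  have hε2 : (ε : ℂ) * ε = 1 := by
    rcases hε with h | h <;> rw [h] <;> push_cast <;> ring
  have hε3 : ε * ε = 1 := by rcases hε with h | h <;> rw [h] <;> norm_num
  set m := mt good α ε κ θ with hm
  set Kc : ℝ := |C| + 2 * (|κ| + 5 + 2 * |θ|) with hKc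
  have hKc0 : 0 ≤ Kc := by positivity
  have hPS : ∀ n : ℕ, 1 ≤ n → |PS C m n| ≤ Kc * (n : ℝ) ^ (1 / 2 : ℝ) :=
    fun n hn => PS_le_gen (by positivity) (fun k hk => mt_le hgood hα ε κ θ hε1 k hk) C n hn
  have hAS : ∀ n : ℕ, 1 ≤ n → |AS C m n| ≤ 2 * Kc * (n : ℝ) ^ (1 / 2 : ℝ) :=
    fun n _ => AS_le hKc0 hPS n
  set E2 : ℂ → ℂ := EE 0 (fun k => PS C m k / k) with hE2
  set W : ℂ → ℂ := fun s => (∑' p, cc good α θ p s) - κ * LSeries pr s - ε * (EE C m s + C)
    - ε * ((s - 1) * E2 s) - ε * ((s - 1) * ((s - 1) * (D * riemannZeta s))) with hW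
  have hWd : DifferentiableOn ℂ W {s | 1 < s.re} := by
    apply DifferentiableOn.sub
    · apply DifferentiableOn.sub
      · apply DifferentiableOn.sub
        · exact (CC_differentiable hgood hα θ).sub (pr_differentiable.const_mul _)
        · exact ((EE_differentiable hKc0 hPS).add_const _).const_mul _
      · apply DifferentiableOn.const_mul
        apply DifferentiableOn.mul (by fun_prop)
        exact EE_differentiable (by positivity : (0 : ℝ) ≤ 2 * Kc) hAS
    · apply DifferentiableOn.const_mul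
      apply DifferentiableOn.mul (by fun_prop)
      apply DifferentiableOn.mul (by fun_prop)
      apply DifferentiableOn.const_mul
      intro s hs
      have hs' : 1 < s.re := hs
      exact (differentiableAt_riemannZeta (by
        intro h; rw [h] at hs'; simp at hs')).differentiableWithinAt
  have hGsum : ∀ s : ℂ, 3 / 2 < s.re → LSeriesSummable (fun n => ((AS C m n + D : ℝ) : ℂ)) s ∧
      LSeries (fun n => ((AS C m n + D : ℝ) : ℂ)) s =
        LSeries (fun n => (AS C m n : ℂ)) s + D * riemannZeta s := by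
    intro s hs
    have hs1 : 1 < s.re := by linarith
    have e : (fun n => ((AS C m n + D : ℝ) : ℂ)) =
        (fun n => (AS C m n : ℂ)) + (D : ℂ) • (1 : ℕ → ℂ) := by
      funext n
      simp
    have h1 : LSeriesSummable (1 : ℕ → ℂ) s := LSeriesSummable_one_iff.2 hs1
    have h2 := PS_summable (C := 0) (m := fun k => PS C m k / k) hAS s hs
    have h2' : LSeriesSummable (fun n => (AS C m n : ℂ)) s := h2
    have h3 : LSeriesSummable ((D : ℂ) • (1 : ℕ → ℂ)) s := h1.smul _
    rw [e]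
    refine ⟨h2'.add h3, ?_⟩
    rw [LSeries_add h2' h3, LSeries_smul, LSeries_one_eq_riemannZeta hs1]
  have hrel : ∀ s : ℂ, 3 / 2 < s.re →
      F s = exp (W s + ε * (s - 1) ^ 2 * LSeries (fun n => ((AS C m n + D : ℝ) : ℂ)) s) := by
    intro s hs
    have hs1 : 1 < s.re := by linarith
    have hL : Summable (fun n : ℕ => (ell good α n : ℂ) * (n : ℂ) ^ (1 - s)) := by
      refine Summable.of_norm_bounded
        ((Real.summable_nat_rpow.2 (by linarith : 1 / 2 - s.re < -1)).mul_left 5) (fun n => ?_)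
      rcases Nat.eq_zero_or_pos n with h0 | h0
      · rw [h0]
        have : ¬ good 0 := fun h => Nat.not_prime_zero (hgood 0 h)
        simp only [ell, if_neg this, Complex.ofReal_zero, zero_mul, norm_zero]
        positivity
      · have hn0 : (0 : ℝ) < n := by exact_mod_cast h0
        rw [norm_mul, Complex.norm_real, Real.norm_eq_abs, Complex.norm_natCast_cpow_of_pos h0]
        have h1 := ell_le hgood hα n h0
        calc |ell good α n| * (n : ℝ) ^ (1 - s).re ≤
            (5 * (n : ℝ) ^ (-(1 / 2) : ℝ)) * (n : ℝ) ^ (1 - s).re :=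
              mul_le_mul_of_nonneg_right h1 (by positivity)
          _ = 5 * ((n : ℝ) ^ (-(1 / 2) : ℝ) * (n : ℝ) ^ (1 - s).re) := by ring
          _ = 5 * (n : ℝ) ^ (1 / 2 - s.re) := by
              rw [← Real.rpow_add hn0]; congr 2; simp; ring
    have hU1 := uu1_summable hgood hα hs1
    have hU2 := uu2_summable hgood hα hs1
    set SL := ∑' n : ℕ, (ell good α n : ℂ) * (n : ℂ) ^ (1 - s) with hSL
    set S1 := ∑' n : ℕ, (uu good α n : ℂ) * (n : ℂ) ^ (1 - s) with hS1
    set S2 := ∑' n : ℕ, (uu good α n : ℂ) * (n : ℂ) ^ (2 - 2 * s) with hS2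
    have hD := cc_summable hgood hα θ hs1
    have hLL : HasSum (fun p => LL good α p s)
        ((∑' p, cc good α θ p s) + θ * (S2 - S1) - SL) := by
      have h1 := (hD.hasSum.add ((hU2.hasSum.sub hU1.hasSum).mul_left (θ : ℂ))).sub hL.hasSum
      have e : (fun p => LL good α p s) = fun p => cc good α θ p s +
          θ * ((uu good α p : ℂ) * (p : ℂ) ^ (2 - 2 * s) - (uu good α p : ℂ) * (p : ℂ) ^ (1 - s)) -
          (ell good α p : ℂ) * (p : ℂ) ^ (1 - s) := by
        funext p
        unfold cc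
        rw [dd_eq hgood hα]
        ring
      rw [e]
      exact h1
    have hFe : F s = exp ((∑' p, cc good α θ p s) + θ * (S2 - S1) - SL) := by
      refine (hprod s hs).unique ?_
      have h2 := hLL.cexp
      convert h2 using 1
      funext p
      simp only [Function.comp_apply]
      unfold LL
      split_ifs with hp
      · have hpp := hgood p hp
        have hp2 : (2 : ℝ) ≤ p := by exact_mod_cast hpp.two_le
        have hne : ∀ β : ℂ, ‖β‖ = (p : ℝ) ^ (1 / 2 : ℝ) → 1 - β * (p : ℂ) ^ (-s) ≠ 0 := by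
          intro β hβ h0
          have h3 := norm_a hpp hβ s
          have h4 : ‖β * (p : ℂ) ^ (-s)‖ < 1 := by
            rw [h3]; exact lt_of_le_of_lt (x_rpow_le hp2 (by linarith)) (by norm_num)
          have h5 : β * (p : ℂ) ^ (-s) = 1 := (sub_eq_zero.1 h0).symm
          rw [h5, norm_one] at h4
          exact lt_irrefl _ h4
        rw [Complex.exp_add, Complex.exp_neg, Complex.exp_neg, Complex.exp_log (hne _ (hα p hp)),
          Complex.exp_log (hne _ (norm_conj_alpha hgood hα hp)), mul_inv]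
      · rw [Complex.exp_zero]
    have hP : HasSum (fun n : ℕ => (m (n + 1) : ℂ) * ((n + 1 : ℕ) : ℂ) ^ (1 - s))
        (ε * (κ * LSeries pr s - SL - θ * (S1 - S2))) := by
      have h1 : HasSum (LSeries.term pr s) (LSeries pr s) := (pr_summable hs1).hasSum
      have h2 := (((h1.mul_left (κ : ℂ)).sub hL.hasSum).sub
        ((hU1.hasSum.sub (sq_hasSum hgood hα hs1)).mul_left (θ : ℂ))).mul_left (ε : ℂ)
      have e : (fun n : ℕ => (ε : ℂ) * (κ * LSeries.term pr s n - (ell good α n : ℂ) * (n : ℂ) ^ (1 - s)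
          - θ * ((uu good α n : ℂ) * (n : ℂ) ^ (1 - s) - (sq good α n : ℂ) * (n : ℂ) ^ (1 - s)))) =
          fun n : ℕ => (m n : ℂ) * ((n : ℕ) : ℂ) ^ (1 - s) := by
        funext n
        have e1 : (ε : ℂ) * (κ * LSeries.term pr s n - (ell good α n : ℂ) * (n : ℂ) ^ (1 - s)) =
            (mm good α ε κ n : ℂ) * (n : ℂ) ^ (1 - s) := by
          by_cases hp : n.Prime
          · have hnc : (n : ℂ) ≠ 0 := by exact_mod_cast hp.ne_zero
            rw [LSeries.term_of_ne_zero hp.ne_zero]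
            unfold mm pr
            rw [if_pos hp, if_pos hp, sub_eq_add_neg 1 s, Complex.cpow_add _ _ hnc, Complex.cpow_one,
              Complex.cpow_neg]
            have hns : (n : ℂ) ^ s ≠ 0 := by
              rw [Complex.cpow_ne_zero_iff]; exact Or.inl hnc
            push_cast
            field_simp
          · have hng : ¬ good n := fun h => hp (hgood n h)
            unfold mm ell LSeries.term pr
            simp [hp, hng]
        rw [hm]
        unfold mt
        push_cast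
        linear_combination e1
      rw [e] at h2
      have h3 := (hasSum_nat_add_iff' (f := fun n : ℕ => (m n : ℂ) * ((n : ℕ) : ℂ) ^ (1 - s)) 1).2 h2
      have h4 : m 0 = 0 := by
        rw [hm]; unfold mt mm sq
        rw [uu_not hgood hα Nat.not_prime_zero]
        simp [Nat.not_prime_zero, uu_not hgood hα Nat.not_prime_zero]
      simp only [sum_range_one, h4, Complex.ofReal_zero, zero_mul, sub_zero] at h3
      exact h3
    have hab := abel_rel hKc0 hPS s hs _ hP
    have hP2 : HasSum (fun n : ℕ => ((PS C m (n + 1) / ((n + 1 : ℕ) : ℝ) : ℝ) : ℂ) * ((n + 1 : ℕ) : ℂ) ^ (1 - s))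
        (LSeries (fun n => (PS C m n : ℂ)) s) := by
      have h3 : HasSum (LSeries.term (fun n => (PS C m n : ℂ)) s) (LSeries (fun n => (PS C m n : ℂ)) s) :=
        (PS_summable hPS s hs).hasSum
      have h4 := (hasSum_nat_add_iff' (f := LSeries.term (fun n => (PS C m n : ℂ)) s) 1).2 h3
      simp only [sum_range_one, LSeries.term_zero, sub_zero] at h4
      have e : (fun n : ℕ => ((PS C m (n + 1) / ((n + 1 : ℕ) : ℝ) : ℝ) : ℂ) * ((n + 1 : ℕ) : ℂ) ^ (1 - s)) =
          fun n => LSeries.term (fun n => (PS C m n : ℂ)) s (n + 1) := by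
        funext n
        have hn : ((n + 1 : ℕ) : ℂ) ≠ 0 := by exact_mod_cast (by omega : n + 1 ≠ 0)
        have hns : ((n + 1 : ℕ) : ℂ) ^ s ≠ 0 := by
          rw [Complex.cpow_ne_zero_iff]; exact Or.inl hn
        rw [LSeries.term_of_ne_zero (by omega : n + 1 ≠ 0), sub_eq_add_neg 1 s,
          Complex.cpow_add _ _ hn, Complex.cpow_one, Complex.cpow_neg]
        push_cast at hn hns ⊢
        field_simp
      rw [e]
      exact h4
    have hab2 := abel_rel (C := 0) (m := fun k => PS C m k / k) (by positivity : (0 : ℝ) ≤ 2 * Kc) hAS s hs _ hP2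
    have hab2' : (s - 1) * LSeries (fun n => (AS C m n : ℂ)) s = E2 s + LSeries (fun n => (PS C m n : ℂ)) s := by
      have := hab2
      simp only [Complex.ofReal_zero, add_zero] at this
      exact this
    rw [hFe, (hGsum s hs).2]
    congr 1
    have e6 : (ε : ℂ) * (s - 1) ^ 2 * (LSeries (fun n => (AS C m n : ℂ)) s + D * riemannZeta s) =
        ε * ((s - 1) * E2 s) + ε * (EE C m s + C + ε * (κ * LSeries pr s - SL - θ * (S1 - S2))) +
          ε * ((s - 1) * ((s - 1) * (D * riemannZeta s))) := by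
      have e7 : (ε : ℂ) * (s - 1) ^ 2 * (LSeries (fun n => (AS C m n : ℂ)) s + D * riemannZeta s) =
          ε * ((s - 1) * ((s - 1) * LSeries (fun n => (AS C m n : ℂ)) s)) +
          ε * ((s - 1) * ((s - 1) * (D * riemannZeta s))) := by ring
      rw [e7, hab2', ← hab]; ring
    rw [e6, hW]
    simp only
    linear_combination (-(κ * LSeries pr s - SL - θ * (S1 - S2))) * hε2
  obtain ⟨hsum, hall⟩ := core2 (fun n => AS C m n + D) hG ε hε F W hF hWd (fun s hs => (hGsum s hs).1)
    hrel hreal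
  refine ⟨fun s hs => by rw [hall s hs]; exact Complex.exp_ne_zero _, fun δ hδ => ?_⟩
  have hCC := CC_bound hgood hα θ hθ0 hθ1 (δ / 4) (by positivity)
  have hK32 : 0 ≤ K32 := tsum_nonneg fun n => by positivity
  have hw1 : ∀ᶠ w : ℝ in 𝓝[>] 0, w ≤ 1 := by
    have : Set.Iic (1 : ℝ) ∈ 𝓝 (0 : ℝ) := Iic_mem_nhds one_pos
    exact mem_nhdsWithin_of_mem_nhds this
  have hsmall : ∀ᶠ w : ℝ in 𝓝[>] 0, w * (8 * Kc * K32) < δ / 4 := by
    have h1 : Tendsto (fun w : ℝ => w * (8 * Kc * K32)) (𝓝[>] 0) (𝓝 0) := by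
      have : ContinuousAt (fun w : ℝ => w * (8 * Kc * K32)) 0 := by fun_prop
      have h2 := this.tendsto
      rw [zero_mul] at h2
      exact h2.mono_left nhdsWithin_le_nhds
    exact h1.eventually_lt_const (by positivity)
  have hzeta : ∀ᶠ w : ℝ in 𝓝[>] 0, ‖(w : ℂ) * ((w : ℂ) * (D * riemannZeta (1 + w)))‖ < δ / 4 := by
    have hpath : Tendsto (fun w : ℝ => (1 + w : ℂ)) (𝓝[>] 0) (𝓝[≠] 1) := by
      rw [tendsto_nhdsWithin_iff]
      constructor
      · have : ContinuousAt (fun w : ℝ => (1 : ℂ) + (w : ℂ)) 0 := by fun_prop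
        have h2 := this.tendsto
        simp only [ofReal_zero, add_zero] at h2
        exact h2.mono_left nhdsWithin_le_nhds
      · filter_upwards [self_mem_nhdsWithin] with ε hε
        have hε' : (0 : ℝ) < ε := hε
        simp only [Set.mem_compl_iff, Set.mem_singleton_iff, add_eq_left]
        exact_mod_cast hε'.ne'
    have h1 := riemannZeta_residue_one.comp hpath
    have h2 : Tendsto (fun w : ℝ => (w : ℂ)) (𝓝[>] 0) (𝓝 0) := by
      have : ContinuousAt (fun w : ℝ => (w : ℂ)) 0 := by fun_prop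
      have h3 := this.tendsto
      simp only [ofReal_zero] at h3
      exact h3.mono_left nhdsWithin_le_nhds
    have h3 := ((h2.mul_const (D : ℂ)).mul h1).norm
    rw [zero_mul, zero_mul, norm_zero] at h3
    have h4 := h3.eventually_lt_const (by positivity : (0 : ℝ) < δ / 4)
    filter_upwards [h4] with w h5
    refine lt_of_eq_of_lt ?_ h5
    congr 1
    simp only [Function.comp_apply, add_sub_cancel_left]
    ring
  filter_upwards [hCC, hsmall, hzeta, self_mem_nhdsWithin, hw1] with w h1 h2 hz h3 h4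
  have hw : (0 : ℝ) < w := h3
  have hre : (1 : ℝ) < ((1 : ℂ) + w).re := by simp [hw]
  have h5 := hall (1 + w) hre
  set G : ℕ → ℝ := fun n => AS C m n + D with hGdef
  have h6 : Real.log ‖F (1 + w)‖ = (W (1 + w)).re +
      (ε * ((1 + w : ℂ) - 1) ^ 2 * LSeries (fun n => (G n : ℂ)) (1 + w)).re := by
    rw [h5, Complex.norm_exp, Real.log_exp, add_re]
  have h7 : (ε * ((1 + w : ℂ) - 1) ^ 2 * LSeries (fun n => (G n : ℂ)) (1 + w)).re =
      ε * (w ^ 2 * (LSeries (fun n => (G n : ℂ)) ((1 + w : ℝ) : ℂ)).re) := by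
    have e1 : (ε : ℂ) * ((1 + w : ℂ) - 1) ^ 2 = ((ε * w ^ 2 : ℝ) : ℂ) := by push_cast; ring
    have e2 : ((1 : ℂ) + w) = ((1 + w : ℝ) : ℂ) := by push_cast; rfl
    rw [e1, Complex.re_ofReal_mul, e2]
    ring
  have h8 := re_LSeries_nonneg G hG (1 + w)
  have h9 : 0 ≤ w ^ 2 * (LSeries (fun n => (G n : ℂ)) ((1 + w : ℝ) : ℂ)).re := mul_nonneg (by positivity) h8
  have h10 : ε * Real.log ‖F (1 + w)‖ = ε * (W (1 + w)).re +
      w ^ 2 * (LSeries (fun n => (G n : ℂ)) ((1 + w : ℝ) : ℂ)).re := by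
    rw [h6, h7, mul_add, ← mul_assoc ε ε, hε3, one_mul]
  rw [h10]
  have h11 : (W (1 + w)).re = (∑' p, cc good α θ p (1 + w)).re - κ * lam w -
      ε * ((EE C m (1 + w)).re + C) - ε * (w * (E2 (1 + w)).re) -
      ε * ((w : ℂ) * ((w : ℂ) * (D * riemannZeta (1 + w)))).re := by
    rw [hW]
    simp only
    rw [pr_eq_lam hw]
    have e8 : ((1 : ℂ) + w - 1) * E2 (1 + w) = (w : ℂ) * E2 (1 + w) := by ring
    have e9 : ((1 : ℂ) + w - 1) * (((1 : ℂ) + w - 1) * (D * riemannZeta (1 + w))) =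
      (w : ℂ) * ((w : ℂ) * (D * riemannZeta (1 + w))) := by ring
    rw [e8, e9]
    simp only [sub_re, re_ofReal_mul, add_re, ofReal_re]
  have h13 : |(EE C m (1 + w)).re| ≤ w * (2 * Kc * K32) := by
    refine (Complex.abs_re_le_norm _).trans ((EE_bound hKc0 hPS (1 + w) hre.le).2.trans ?_)
    have e3 : ‖(1 : ℂ) + w - 1‖ = w := by
      rw [add_sub_cancel_left, Complex.norm_real, Real.norm_eq_abs, abs_of_pos hw]
    have e4 : ‖(1 : ℂ) + w‖ = 1 + w := by
      have : ((1 : ℂ) + w) = ((1 + w : ℝ) : ℂ) := by push_cast; rfl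
      rw [this, Complex.norm_real, Real.norm_eq_abs, abs_of_pos (by linarith)]
    rw [e3, e4]
    calc w * (1 + w) * Kc * K32 ≤ w * 2 * Kc * K32 := by gcongr; linarith
      _ = _ := by ring
  have h13b : |w * (E2 (1 + w)).re| ≤ w * (4 * Kc * K32) := by
    rw [abs_mul, abs_of_pos hw]
    refine mul_le_mul_of_nonneg_left ?_ hw.le
    refine (Complex.abs_re_le_norm _).trans
      ((EE_bound (by positivity : (0 : ℝ) ≤ 2 * Kc) hAS (1 + w) hre.le).2.trans ?_)
    have e3 : ‖(1 : ℂ) + w - 1‖ = w := by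
      rw [add_sub_cancel_left, Complex.norm_real, Real.norm_eq_abs, abs_of_pos hw]
    have e4 : ‖(1 : ℂ) + w‖ = 1 + w := by
      have : ((1 : ℂ) + w) = ((1 + w : ℝ) : ℂ) := by push_cast; rfl
      rw [this, Complex.norm_real, Real.norm_eq_abs, abs_of_pos (by linarith)]
    rw [e3, e4]
    have e5 : w * (1 + w) ≤ 2 := by nlinarith
    calc w * (1 + w) * (2 * Kc) * K32 ≤ 2 * (2 * Kc) * K32 := by gcongr
      _ = 4 * Kc * K32 := by ring
  have h14 : |((w : ℂ) * ((w : ℂ) * (D * riemannZeta (1 + w)))).re| ≤ δ / 4 :=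
    (Complex.abs_re_le_norm _).trans hz.le
  rw [h11]
  set x1 := (∑' p, cc good α θ p (1 + w)).re
  set x2 := (EE C m (1 + w)).re
  set x3 := w * (E2 (1 + w)).re
  set x4 := ((w : ℂ) * ((w : ℂ) * (D * riemannZeta (1 + w)))).re
  have h15 := abs_le.1 h1
  have h16 := abs_le.1 h13
  have h19 := abs_le.1 h13b
  have h20 := abs_le.1 h14
  have e10 : ε * (x1 - κ * lam w - ε * (x2 + C) - ε * x3 - ε * x4) =
      ε * x1 - ε * (κ * lam w) - (ε * ε) * (x2 + C + x3 + x4) := by ring
  rw [e10, hε3]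
  have h21 : -((1 - θ) * Real.log 2 + δ / 4) ≤ ε * x1 := by
    rcases hε with h | h <;> rw [h] <;> linarith [h15.1, h15.2]
  have h22 : w * (2 * Kc * K32) + w * (4 * Kc * K32) ≤ w * (8 * Kc * K32) := by
    have : 0 ≤ w * (Kc * K32) := by positivity
    nlinarith
  linarith [h16.2, h19.2, h20.2]

end

end Pool.Agent.H930R3.BK
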