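import Pool.Agent.H930R3.BK.C
import Pool.Agent.H438R3.BSD.Main2

/-! The products of Birch and Swinnerton-Dyer and the leading coefficient. -/

set_option autoImplicit false

open Complex Filter Topology Finset

namespace Pool.Agent.H930R3.BK

open Pool.Agent.H438R3.BSD Pool.Agent.H341R2

/-- the primes `p ≤ n`, sum of `1/p` -/
noncomputable def SP (n : ℕ) : ℝ := ∑ p ∈ (Finset.Icc 1 n).filter Nat.Prime, (1 : ℝ) / p

open Classical in
/-- `∑_{√x < p ≤ x} (a_p² - 2 p) / (2 p²)`, over the good primes -/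
noncomputable def UU (a b : ℤ) (x : ℕ) : ℝ :=
  ∑ p ∈ (Finset.Icc 1 x).filter (fun p => Good a b p ∧ x < p ^ 2),
    (((p : ℝ) - Np a b p) ^ 2 - 2 * p) / (2 * (p : ℝ) ^ 2)

open Classical in
lemma uu_eq {a b : ℤ} {p : ℕ} (h : Good a b p) :
    uu (Good a b) (al a b) p = (((p : ℝ) - Np a b p) ^ 2 - 2 * p) / (2 * (p : ℝ) ^ 2) := by
  have hp0 : (0 : ℝ) < p := by exact_mod_cast h.1.pos
  unfold uu
  rw [if_pos h]
  have h2 : (((al a b p) ^ 2).re : ℝ) = (((p : ℝ) - Np a b p) ^ 2 - 2 * p) / 2 := by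
    have h3 : ((((al a b p) ^ 2).re : ℝ) : ℂ) = (((((p : ℝ) - Np a b p) ^ 2 - 2 * p) / 2 : ℝ) : ℂ) := by
      have e2 : ((((al a b p) ^ 2).re : ℝ) : ℂ) = ((al a b p) ^ 2 + (starRingEnd ℂ (al a b p)) ^ 2) / 2 := by
        rw [← map_pow, Complex.add_conj]
        push_cast
        ring
      rw [e2]
      have h4 := al_mul_conj h
      have h5 := al_add_conj a b p
      push_cast
      rw [← h5]
      linear_combination -h4
    exact_mod_cast h3
  rw [h2]
  field_simp

open Classical in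
lemma sum_uu (a b : ℤ) (n : ℕ) : ∑ k ∈ Finset.Icc 1 n, (uu (Good a b) (al a b) k - sq (Good a b) (al a b) k) =
    UU a b n := by
  rw [Finset.sum_sub_distrib]
  have h1 : ∑ k ∈ Finset.Icc 1 n, sq (Good a b) (al a b) k =
      ∑ p ∈ (Finset.Icc 1 n).filter (fun p => p ^ 2 ≤ n), uu (Good a b) (al a b) p := by
    unfold sq
    rw [← Finset.sum_filter]
    refine Finset.sum_nbij' (fun k => Nat.sqrt k) (fun p => p * p) ?_ ?_ ?_ ?_ ?_
    · intro k hk
      simp only [Finset.mem_filter, Finset.mem_Icc] at hk ⊢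
      have h2 : 1 ≤ Nat.sqrt k := by
        by_contra hcon
        have : Nat.sqrt k = 0 := by omega
        rw [this] at hk
        omega
      refine ⟨⟨h2, ?_⟩, ?_⟩
      · exact (Nat.sqrt_le_self k).trans hk.1.2
      · rw [pow_two]; exact hk.2.le.trans hk.1.2
    · intro p hp
      simp only [Finset.mem_filter, Finset.mem_Icc] at hp ⊢
      refine ⟨⟨?_, ?_⟩, ?_⟩
      · exact Nat.mul_pos hp.1.1 hp.1.1
      · have := hp.2; rw [pow_two] at this; exact this
      · rw [Nat.sqrt_eq]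
    · intro k hk
      simp only [Finset.mem_filter] at hk
      exact hk.2
    · intro p hp
      exact Nat.sqrt_eq p
    · intro k hk
      rfl
  rw [h1]
  unfold UU
  have h2 : ∑ k ∈ Finset.Icc 1 n, uu (Good a b) (al a b) k =
      ∑ p ∈ (Finset.Icc 1 n).filter (fun p => p ^ 2 ≤ n), uu (Good a b) (al a b) p +
      ∑ p ∈ (Finset.Icc 1 n).filter (fun p => ¬ p ^ 2 ≤ n), uu (Good a b) (al a b) p :=
    (Finset.sum_filter_add_sum_filter_not _ _ _).symm
  rw [h2, add_sub_cancel_left]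
  have h3 : (Finset.Icc 1 n).filter (fun p => Good a b p ∧ n < p ^ 2) =
      ((Finset.Icc 1 n).filter (fun p => ¬ p ^ 2 ≤ n)).filter (Good a b) := by
    ext p
    simp only [Finset.mem_filter, not_le]
    tauto
  rw [h3]
  conv_rhs => rw [Finset.sum_filter]
  refine Finset.sum_congr rfl fun p _ => ?_
  by_cases h : Good a b p
  · rw [if_pos h, uu_eq h]
  · rw [if_neg h]; unfold uu; rw [if_neg h]

/-- the logarithm of the product, with the weight `θ` on the square terms -/
noncomputable def LE (a b : ℤ) (θ : ℝ) (n : ℕ) : ℝ := Real.log (EP a b n) + θ * UU a b n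

open Classical in
lemma PS_mt (a b : ℤ) (ε κ θ C : ℝ) (n : ℕ) :
    PS C (mt (Good a b) (al a b) ε κ θ) n = C + ε * (κ * SP n - LE a b θ n) := by
  have h1 := PS_eq a b ε κ C n
  unfold PS at h1 ⊢
  unfold mt LE
  rw [Finset.sum_sub_distrib, ← Finset.mul_sum, sum_uu]
  have e : C + (∑ x ∈ Icc 1 n, mm (Good a b) (al a b) ε κ x - ε * θ * UU a b n) =
    (C + ∑ x ∈ Icc 1 n, mm (Good a b) (al a b) ε κ x) - ε * θ * UU a b n := by ring
  rw [e, h1]
  unfold SP
  ring

lemma harm_le (n : ℕ) (hn : 1 ≤ n) : ∑ k ∈ Finset.Icc 2 n, (1 : ℝ) / k ≤ Real.log n := by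
  induction n, hn using Nat.le_induction with
  | base => simp
  | succ n hn ih =>
    have hn0 : (0 : ℝ) < n := by exact_mod_cast hn
    rw [Finset.sum_Icc_succ_top (by omega)]
    have h5 : (1 : ℝ) / ((n + 1 : ℕ) : ℝ) ≤ Real.log ((n + 1 : ℕ) : ℝ) - Real.log n := by
      rw [← Real.log_div (by positivity) hn0.ne']
      have h6 := Real.one_sub_inv_le_log_of_pos (x := ((n + 1 : ℕ) : ℝ) / n) (by positivity)
      refine le_trans (le_of_eq ?_) h6
      push_cast
      field_simp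
      ring
    linarith

/-- Harmonic sums: `∑_{2 ≤ k ≤ n} 1/k` is `log n + O(1)`. -/
lemma harm_bounds (n : ℕ) (hn : 1 ≤ n) : |∑ k ∈ Finset.Icc 2 n, (1 : ℝ) / k - Real.log n| ≤ 1 := by
  have h1 := log_le_sum n hn
  have hn0 : (0 : ℝ) < n := by exact_mod_cast hn
  have h2 : Real.log n ≤ Real.log (n + 1) := Real.log_le_log hn0 (by linarith)
  have h3 := harm_le n hn
  rw [abs_le]
  constructor <;> linarith

/-- Averages: if `f n ≤ c` for large `n`, the weighted sums are at most `(c + δ) log n`. -/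
lemma avg_le (f : ℕ → ℝ) (c δ : ℝ) (hδ : 0 < δ) (h : ∀ᶠ n : ℕ in atTop, f n ≤ c) :
    ∀ᶠ n : ℕ in atTop, ∑ k ∈ Finset.Icc 2 n, f k / k ≤ (c + δ) * Real.log n := by
  obtain ⟨N, hN⟩ := eventually_atTop.1 h
  set B : ℝ := ∑ k ∈ Finset.range (N + 1), |f k - c| with hB
  have hlog : Tendsto (fun x : ℕ => δ * Real.log x) atTop atTop :=
    (Real.tendsto_log_atTop.comp tendsto_natCast_atTop_atTop).const_mul_atTop hδ
  filter_upwards [hlog.eventually_ge_atTop (B + |c|), eventually_ge_atTop 1] with n hn hn1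
  have h1 : ∑ k ∈ Finset.Icc 2 n, f k / k = ∑ k ∈ Finset.Icc 2 n, (f k - c) / k +
      c * ∑ k ∈ Finset.Icc 2 n, (1 : ℝ) / k := by
    rw [Finset.mul_sum, ← Finset.sum_add_distrib]
    refine Finset.sum_congr rfl fun k _ => ?_
    ring
  have h2 : ∑ k ∈ Finset.Icc 2 n, (f k - c) / k ≤ B := by
    have h3 : ∀ k ∈ Finset.Icc 2 n, (f k - c) / k ≤ if k ∈ Finset.range (N + 1) then |f k - c| else 0 := by
      intro k hk
      have hk2 : 2 ≤ k := (Finset.mem_Icc.1 hk).1
      have hk1 : (1 : ℝ) ≤ k := by exact_mod_cast (by omega : 1 ≤ k)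
      split_ifs with hkN
      · rw [div_le_iff₀ (by linarith)]
        have := le_abs_self (f k - c)
        have h4 := abs_nonneg (f k - c)
        nlinarith
      · have h5 : N ≤ k := by
          have : ¬ k < N + 1 := fun hh => hkN (Finset.mem_range.2 hh)
          omega
        have h6 := hN k h5
        exact div_nonpos_of_nonpos_of_nonneg (by linarith) (by linarith)
    refine (Finset.sum_le_sum h3).trans ?_
    rw [← Finset.sum_filter, hB]
    refine Finset.sum_le_sum_of_subset_of_nonneg ?_ fun k _ _ => abs_nonneg _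
    intro k hk
    exact (Finset.mem_filter.1 hk).2
  have h4 := harm_bounds n hn1
  have h5 : c * ∑ k ∈ Finset.Icc 2 n, (1 : ℝ) / k ≤ c * Real.log n + |c| := by
    have h6 : |c * (∑ k ∈ Finset.Icc 2 n, (1 : ℝ) / k - Real.log n)| ≤ |c| * 1 := by
      rw [abs_mul]; exact mul_le_mul_of_nonneg_left h4 (abs_nonneg _)
    have h7 := (abs_le.1 h6).2
    rw [mul_one] at h7
    linarith
  rw [h1]
  linarith

lemma F_lead {F : ℂ → ℂ} {m : ℕ} {c : ℂ} (hc0 : c ≠ 0)
    (hc : Tendsto (fun s : ℂ => F s / (s - 1) ^ m) (𝓝[≠] 1) (𝓝 c)) :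
    Tendsto (fun w : ℝ => Real.log ‖F (1 + w)‖ - m * Real.log w) (𝓝[>] 0) (𝓝 (Real.log ‖c‖)) := by
  have hpath : Tendsto (fun w : ℝ => (1 + w : ℂ)) (𝓝[>] 0) (𝓝[≠] 1) := by
    rw [tendsto_nhdsWithin_iff]
    constructor
    · have : ContinuousAt (fun w : ℝ => (1 : ℂ) + (w : ℂ)) 0 := by fun_prop
      have h2 := this.tendsto
      simp only [ofReal_zero, add_zero] at h2
      exact h2.mono_left nhdsWithin_le_nhds
    · filter_upwards [self_mem_nhdsWithin] with ε hε
      have hε' : (0 : ℝ) < ε := hε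
      simp only [Set.mem_compl_iff, Set.mem_singleton_iff, add_eq_left]
      exact_mod_cast hε'.ne'
  have h1 := hc.comp hpath
  have h2 := h1.norm.log (norm_ne_zero_iff.2 hc0)
  have h3 := h1.eventually_ne hc0
  refine h2.congr' ?_
  filter_upwards [h3, self_mem_nhdsWithin] with w h4 h5
  have hw : (0 : ℝ) < w := h5
  simp only [Function.comp_apply, add_sub_cancel_left] at h4 ⊢
  have hF0 : F (1 + w) ≠ 0 := by
    intro h6; rw [h6, zero_div] at h4; exact h4 rfl
  have hw0 : ((w : ℂ)) ^ m ≠ 0 := pow_ne_zero _ (by exact_mod_cast hw.ne')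
  rw [norm_div, Real.log_div (norm_ne_zero_iff.2 hF0) (norm_ne_zero_iff.2 hw0), norm_pow,
    Complex.norm_real, Real.norm_eq_abs, abs_of_pos hw, Real.log_pow]

open Classical in
/-- One-sided bounds for logarithmic averages, with constants. -/
theorem one_side_sharp {a b : ℤ} {F : ℂ → ℂ} (hF : IsL a b F) (ε θ : ℝ) (hε : ε = 1 ∨ ε = -1)
    (hθ0 : 0 ≤ θ) (hθ1 : θ ≤ 1) (m : ℕ) (c : ℂ) (hc0 : c ≠ 0)
    (hc : Tendsto (fun s : ℂ => F s / (s - 1) ^ m) (𝓝[≠] 1) (𝓝 c))
    (hreal : ε = -1 → ∀ σ : ℝ, 1 < σ → F σ ≠ 0) (δ : ℝ) (hδ : 0 < δ) :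
    ¬ (∀ᶠ n : ℕ in atTop, ε * (∑ k ∈ Finset.Icc 2 n,
      (Real.log ‖c‖ + LE a b θ k - m * (Real.eulerMascheroniConstant + Real.log (Real.log k))) / k) ≤
        (-((1 - θ) * Real.log 2) - δ) * Real.log n) := by
  intro h
  have hε1 : |ε| = 1 := by rcases hε with h | h <;> rw [h] <;> simp
  have hg : ∀ p, Good a b p → p.Prime := fun p hp => hp.1
  have ha : ∀ p, Good a b p → ‖al a b p‖ = (p : ℝ) ^ (1 / 2 : ℝ) := fun p hp => al_norm hp
  -- comparison with the sums of `1/p`
  have hS : ∀ᶠ n : ℕ in atTop, -(ε * (Real.log ‖c‖ - m * Real.eulerMascheroniConstant +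
      m * (SP n - Real.log (Real.log n)))) ≤ -(ε * (Real.log ‖c‖ - m * K0)) + δ / 4 := by
    have h1 := ((mertens_S.const_mul (m : ℝ)).const_add
      (Real.log ‖c‖ - m * Real.eulerMascheroniConstant)).const_mul (-ε)
    have e : -ε * (Real.log ‖c‖ - m * Real.eulerMascheroniConstant + m * (Real.eulerMascheroniConstant - K0)) =
      -(ε * (Real.log ‖c‖ - m * K0)) := by ring
    rw [e] at h1
    filter_upwards [h1.eventually_lt_const (by linarith :
      -(ε * (Real.log ‖c‖ - m * K0)) < -(ε * (Real.log ‖c‖ - m * K0)) + δ / 4)] with n hn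
    refine le_trans (le_of_eq ?_) hn.le
    unfold SP
    ring
  have hS2 := avg_le _ _ (δ / 4) (by positivity) hS
  set C : ℝ := -((1 - θ) * Real.log 2) - ε * (Real.log ‖c‖ - m * K0) - δ / 2 with hC
  set mtt := mt (Good a b) (al a b) ε m θ with hmtt
  -- the sums are bounded below
  have hlow : ∀ᶠ n : ℕ in atTop, -|C| ≤ AS C mtt n := by
    filter_upwards [h, hS2, eventually_ge_atTop 1] with n h1 h2 h3
    have hAS : AS C mtt n = C * ∑ k ∈ Finset.Icc 1 n, (1 : ℝ) / k + ∑ k ∈ Finset.Icc 2 n,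
        ε * (m * SP k - LE a b θ k) / k := by
      unfold AS
      rw [PS, zero_add, Icc_split h3, Finset.sum_insert (by simp), Finset.sum_insert (by simp)]
      have e1 : PS C mtt 1 = C := by
        rw [hmtt, PS_mt]
        have e2 : SP 1 = 0 := by
          unfold SP
          simp [Finset.filter_singleton, Nat.not_prime_one]
        have e3 : LE a b θ 1 = 0 := by
          have hn1 : ¬ Good a b 1 := fun hh => Nat.not_prime_one hh.1
          unfold LE EP UU
          simp [Finset.filter_singleton, hn1]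
        rw [e2, e3]; ring
      rw [e1]
      have e4 : ∑ k ∈ Finset.Icc 2 n, PS C mtt k / k = ∑ k ∈ Finset.Icc 2 n,
          (C * (1 / (k : ℝ)) + ε * (m * SP k - LE a b θ k) / k) := by
        refine Finset.sum_congr rfl fun k _ => ?_
        rw [hmtt, PS_mt]
        ring
      rw [e4, Finset.sum_add_distrib, ← Finset.mul_sum]
      push_cast
      ring
    rw [hAS]
    have e5 : ∑ k ∈ Finset.Icc 2 n, ε * (m * SP k - LE a b θ k) / k =
        -(ε * (∑ k ∈ Finset.Icc 2 n,
      (Real.log ‖c‖ + LE a b θ k - m * (Real.eulerMascheroniConstant + Real.log (Real.log k))) / k)) -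
        ∑ k ∈ Finset.Icc 2 n, -(ε * (Real.log ‖c‖ - m * Real.eulerMascheroniConstant +
      m * (SP k - Real.log (Real.log k)))) / k := by
      rw [Finset.mul_sum, ← Finset.sum_neg_distrib, ← Finset.sum_sub_distrib]
      refine Finset.sum_congr rfl fun k _ => ?_
      ring
    rw [e5]
    have h4 := harm_bounds n h3
    have h5 : C * ∑ k ∈ Finset.Icc 1 n, (1 : ℝ) / k = C + C * Real.log n +
        C * (∑ k ∈ Finset.Icc 2 n, (1 : ℝ) / k - Real.log n) := by
      rw [Icc_split h3, Finset.sum_insert (by simp)]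
      push_cast
      ring
    have h6 : |C + C * (∑ k ∈ Finset.Icc 2 n, (1 : ℝ) / k - Real.log n)| ≤ |C| := by
      have e6 : C + C * (∑ k ∈ Finset.Icc 2 n, (1 : ℝ) / k - Real.log n) =
        C * (1 + (∑ k ∈ Finset.Icc 2 n, (1 : ℝ) / k - Real.log n)) := by ring
      rw [e6, abs_mul]
      have h7 : |1 + (∑ k ∈ Finset.Icc 2 n, (1 : ℝ) / k - Real.log n)| ≤ 1 := by
        have h8 : ∑ k ∈ Finset.Icc 2 n, (1 : ℝ) / k ≤ Real.log n := harm_le n h3
        rw [abs_le] at h4 ⊢
        constructor <;> linarith [h4.1]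
      calc |C| * _ ≤ |C| * 1 := mul_le_mul_of_nonneg_left h7 (abs_nonneg _)
        _ = _ := mul_one _
    have h9 := (abs_le.1 h6).1
    have hlogn : 0 ≤ Real.log n := Real.log_natCast_nonneg n
    rw [h5]
    have h10 : C * Real.log n - (-((1 - θ) * Real.log 2) - δ) * Real.log n -
        (-(ε * (Real.log ‖c‖ - m * K0)) + δ / 4 + δ / 4) * Real.log n = 0 := by
      rw [hC]; ring
    linarith
  obtain ⟨N, hN⟩ := eventually_atTop.1 hlow
  set D : ℝ := |C| + ∑ k ∈ Finset.range N, |AS C mtt k| with hD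
  have hG : ∀ n, 0 ≤ AS C mtt n + D := by
    intro n
    rcases Nat.lt_or_ge n N with hn | hn
    · have h1 : |AS C mtt n| ≤ ∑ k ∈ Finset.range N, |AS C mtt k| :=
        Finset.single_le_sum (f := fun k => |AS C mtt k|) (fun k _ => abs_nonneg _) (Finset.mem_range.2 hn)
      have h2 := neg_abs_le (AS C mtt n)
      have h3 := abs_nonneg C
      linarith
    · have h1 := hN n hn
      have h2 : 0 ≤ ∑ k ∈ Finset.range N, |AS C mtt k| := Finset.sum_nonneg fun k _ => abs_nonneg _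
      linarith
  obtain ⟨-, hmain⟩ := main_sharp hg ha ε m θ C D hε hθ0 hθ1 hG F hF.1 (prod_of_isL hF) hreal
  have h1 := hmain (δ / 8) (by positivity)
  have h2 := (F_lead hc0 hc).const_mul ε
  have h3 := (lam_lim.const_mul (m : ℝ)).const_mul ε
  have h4 := (h2.add h3).eventually_lt_const (by linarith :
    ε * Real.log ‖c‖ + ε * (m * -K0) < ε * Real.log ‖c‖ + ε * (m * -K0) + δ / 8)
  obtain ⟨w, hw1, hw2⟩ := (h1.and h4).exists
  have e7 : ε * (Real.log ‖F (1 + w)‖ - m * Real.log w) + ε * (m * (lam w + Real.log w)) =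
    ε * Real.log ‖F (1 + w)‖ + ε * (m * lam w) := by ring
  rw [e7] at hw2
  have e8 : C = -((1 - θ) * Real.log 2) - (ε * Real.log ‖c‖ + ε * (m * -K0)) - δ / 2 := by
    rw [hC]; ring
  linarith

end Pool.Agent.H930R3.BK
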