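import Pool.Agent.H930R3.BK.D

/-! The truncated L-functions and their leading coefficients. -/

set_option autoImplicit false

open Complex Filter Topology Finset

namespace Pool.Agent.H930R3.BK

open Pool.Agent.H438R3.BSD

open Classical in
/-- `L(C, s)` without the Euler factors at the primes `p ≤ x` -/
noncomputable def TL (a b : ℤ) (F : ℂ → ℂ) (x : ℕ) (s : ℂ) : ℂ :=
  F s * ∏ p ∈ (Finset.Icc 1 x).filter (Good a b),
    (1 - ((p : ℂ) - (Np a b p : ℂ)) * (p : ℂ) ^ (-s) + (p : ℂ) ^ (1 - 2 * s))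

/-- the normalised product `c EP(x) exp(θ Q(x)) / (e ^ γ log x) ^ m` -/
noncomputable def RR (a b : ℤ) (m : ℕ) (c θ : ℝ) (x : ℕ) : ℝ :=
  c * EP a b x * Real.exp (θ * UU a b x) / (Real.exp Real.eulerMascheroniConstant * Real.log x) ^ m

/-- the logarithmic average of `log RR(n)` over `2 ≤ n ≤ x` -/
noncomputable def LR (a b : ℤ) (m : ℕ) (c θ : ℝ) (x : ℕ) : ℝ :=
  (∑ n ∈ Finset.Icc 2 x, Real.log (RR a b m c θ n) / n) / Real.log x

lemma RR_pos (a b : ℤ) (m : ℕ) {c : ℝ} (hc : 0 < c) (θ : ℝ) {x : ℕ} (hx : 2 ≤ x) :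
    0 < RR a b m c θ x := by
  have h1 : 0 < Real.log x := Real.log_pos (by exact_mod_cast (by omega : 1 < x))
  have h2 := EP_pos a b x
  unfold RR
  positivity

lemma log_RR (a b : ℤ) (m : ℕ) {c : ℝ} (hc : 0 < c) (θ : ℝ) {x : ℕ} (hx : 2 ≤ x) :
    Real.log (RR a b m c θ x) =
      Real.log c + LE a b θ x - m * (Real.eulerMascheroniConstant + Real.log (Real.log x)) := by
  have h1 : 0 < Real.log x := Real.log_pos (by exact_mod_cast (by omega : 1 < x))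
  have h2 := EP_pos a b x
  unfold RR LE
  rw [Real.log_div (by positivity) (by positivity), Real.log_mul (by positivity) (by positivity),
    Real.log_mul hc.ne' h2.ne', Real.log_exp, Real.log_pow, Real.log_mul (by positivity) h1.ne',
    Real.log_exp]
  ring

open Classical in
lemma TL_lead {a b : ℤ} {F : ℂ → ℂ} {m : ℕ} {c : ℂ}
    (hc : Tendsto (fun s : ℂ => F s / (s - 1) ^ m) (𝓝[≠] 1) (𝓝 c)) (x : ℕ) :
    Tendsto (fun s : ℂ => TL a b F x s / (s - 1) ^ m) (𝓝[≠] 1) (𝓝 (c * (EP a b x : ℂ))) := by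
  have h1 : Tendsto (fun s : ℂ => ∏ p ∈ (Finset.Icc 1 x).filter (Good a b),
      (1 - ((p : ℂ) - (Np a b p : ℂ)) * (p : ℂ) ^ (-s) + (p : ℂ) ^ (1 - 2 * s))) (𝓝[≠] 1)
      (𝓝 (EP a b x : ℂ)) := by
    unfold EP
    push_cast
    refine tendsto_finsetProd _ fun p hp => ?_
    have hg : Good a b p := (Finset.mem_filter.1 hp).2
    have hpc : (p : ℂ) ≠ 0 := by exact_mod_cast hg.1.ne_zero
    have d1 : DifferentiableAt ℂ (fun s : ℂ => (p : ℂ) ^ (-s)) 1 :=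
      DifferentiableAt.const_cpow (by fun_prop) (Or.inl hpc)
    have d2 : DifferentiableAt ℂ (fun s : ℂ => (p : ℂ) ^ (1 - 2 * s)) 1 :=
      DifferentiableAt.const_cpow (by fun_prop) (Or.inl hpc)
    have d3 : DifferentiableAt ℂ (fun s : ℂ => 1 - ((p : ℂ) - (Np a b p : ℂ)) * (p : ℂ) ^ (-s) +
        (p : ℂ) ^ (1 - 2 * s)) 1 := ((d1.const_mul _).const_sub 1).add d2
    have h2 := d3.continuousAt.tendsto
    have e : (1 - ((p : ℂ) - (Np a b p : ℂ)) * (p : ℂ) ^ (-(1 : ℂ)) + (p : ℂ) ^ (1 - 2 * (1 : ℂ))) =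
        ((Np a b p : ℂ) + 1) / p := by
      rw [show (1 - 2 * (1 : ℂ)) = -1 by ring, Complex.cpow_neg_one]
      field_simp
      ring
    rw [e] at h2
    exact h2.mono_left nhdsWithin_le_nhds
  refine (hc.mul h1).congr fun s => ?_
  unfold TL
  ring

lemma exists_lead {a b : ℤ} {F : ℂ → ℂ} (hF : IsL a b F) : ∃ (m : ℕ) (c : ℂ), analyticOrderAt F 1 = m ∧
    c ≠ 0 ∧ Tendsto (fun s : ℂ => F s / (s - 1) ^ m) (𝓝[≠] 1) (𝓝 c) := by
  obtain ⟨m, hm⟩ := order_finite hF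
  have han : AnalyticAt ℂ F 1 := hF.1.analyticAt 1
  obtain ⟨g, hg, hg0, hgF⟩ := (han.analyticOrderAt_eq_natCast).1 hm
  refine ⟨m, g 1, hm, hg0, ?_⟩
  have h1 : Tendsto g (𝓝[≠] 1) (𝓝 (g 1)) := hg.continuousAt.tendsto.mono_left nhdsWithin_le_nhds
  refine h1.congr' ?_
  filter_upwards [hgF.filter_mono nhdsWithin_le_nhds, self_mem_nhdsWithin] with s h2 h3
  have h4 : (s - 1) ^ m ≠ 0 := pow_ne_zero _ (sub_ne_zero.2 h3)
  rw [h2, smul_eq_mul]
  field_simp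

/-- One-sided bounds: `ε = 1` from below, `ε = -1` from above. -/
theorem avg_side {a b : ℤ} {F : ℂ → ℂ} (hF : IsL a b F) (ε θ : ℝ) (hε : ε = 1 ∨ ε = -1)
    (hθ0 : 0 ≤ θ) (hθ1 : θ ≤ 1) (m : ℕ) (c : ℂ) (hc0 : c ≠ 0)
    (hc : Tendsto (fun s : ℂ => F s / (s - 1) ^ m) (𝓝[≠] 1) (𝓝 c))
    (hreal : ε = -1 → ∀ σ : ℝ, 1 < σ → F σ ≠ 0) (δ : ℝ) (hδ : 0 < δ) :
    (∃ᶠ x : ℕ in atTop, -((1 - θ) * Real.log 2) - δ < ε * LR a b m ‖c‖ θ x) ∧
    ∃ᶠ x : ℕ in atTop, -((1 - θ) * Real.log 2) - δ < ε * Real.log (RR a b m ‖c‖ θ x) := by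
  have hcn : 0 < ‖c‖ := norm_pos_iff.2 hc0
  have hlog : ∀ᶠ x : ℕ in atTop, (1 : ℝ) < Real.log x :=
    (Real.tendsto_log_atTop.comp tendsto_natCast_atTop_atTop).eventually_gt_atTop _
  have key : ∀ δ' : ℝ, 0 < δ' → ¬ (∀ᶠ n : ℕ in atTop, ∑ k ∈ Finset.Icc 2 n,
      (ε * Real.log (RR a b m ‖c‖ θ k)) / k ≤ (-((1 - θ) * Real.log 2) - δ') * Real.log n) := by
    intro δ' hδ' hcon
    refine one_side_sharp hF ε θ hε hθ0 hθ1 m c hc0 hc hreal δ' hδ' ?_
    filter_upwards [hcon] with n hn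
    refine le_trans (le_of_eq ?_) hn
    rw [Finset.mul_sum]
    refine Finset.sum_congr rfl fun k hk => ?_
    rw [log_RR a b m hcn θ (Finset.mem_Icc.1 hk).1]
    ring
  constructor
  · intro hcon
    refine key δ hδ ?_
    filter_upwards [hcon, hlog] with n h1 h2
    push Not at h1
    unfold LR at h1
    have h3 : ∑ k ∈ Finset.Icc 2 n, (ε * Real.log (RR a b m ‖c‖ θ k)) / k =
        ε * ∑ k ∈ Finset.Icc 2 n, Real.log (RR a b m ‖c‖ θ k) / k := by
      rw [Finset.mul_sum]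
      exact Finset.sum_congr rfl fun k _ => by ring
    rw [h3]
    rw [← mul_div_assoc, div_le_iff₀ (by linarith)] at h1
    exact h1
  · intro hcon
    refine key (δ / 2) (by positivity) ?_
    have h1 : ∀ᶠ n : ℕ in atTop, ε * Real.log (RR a b m ‖c‖ θ n) ≤ -((1 - θ) * Real.log 2) - δ := by
      filter_upwards [hcon] with n h2
      exact not_lt.1 h2
    filter_upwards [avg_le _ _ (δ / 2) (by positivity) h1] with n h2
    refine h2.trans (le_of_eq ?_)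
    ring

/-- The final theorem. -/
theorem main {a b : ℤ} {F : ℂ → ℂ} (hF : IsL a b F) :
    ∃ (m : ℕ) (c : ℂ), analyticOrderAt F 1 = m ∧ c ≠ 0 ∧
    (∀ x : ℕ, Tendsto (fun s : ℂ => TL a b F x s / (s - 1) ^ m) (𝓝[≠] 1) (𝓝 (c * (EP a b x : ℂ)))) ∧
    ∀ θ : ℝ, 0 ≤ θ → θ ≤ 1 → ∀ δ : ℝ, 0 < δ →
      ((∃ᶠ x : ℕ in atTop, -((1 - θ) * Real.log 2) - δ < LR a b m ‖c‖ θ x) ∧
        ∃ᶠ x : ℕ in atTop, (1 - δ) / 2 ^ (1 - θ) < RR a b m ‖c‖ θ x) ∧
      ((∀ σ : ℝ, 1 < σ → F σ ≠ 0) →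
        (∃ᶠ x : ℕ in atTop, LR a b m ‖c‖ θ x < (1 - θ) * Real.log 2 + δ) ∧
        ∃ᶠ x : ℕ in atTop, RR a b m ‖c‖ θ x < (1 + δ) * 2 ^ (1 - θ)) := by
  obtain ⟨m, c, hm, hc0, hc⟩ := exists_lead hF
  have hcn : 0 < ‖c‖ := norm_pos_iff.2 hc0
  refine ⟨m, c, hm, hc0, TL_lead hc, fun θ hθ0 hθ1 δ hδ => ⟨?_, fun hreal => ?_⟩⟩
  · constructor
    · have h1 := (avg_side hF 1 θ (Or.inl rfl) hθ0 hθ1 m c hc0 hc (by norm_num) δ hδ).1
      simpa using h1
    · rcases le_or_gt 1 δ with h1 | h1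
      · have h2 : ∀ᶠ x : ℕ in atTop, (1 - δ) / 2 ^ (1 - θ) < RR a b m ‖c‖ θ x := by
          filter_upwards [eventually_ge_atTop 2] with x hx
          have h3 := RR_pos a b m hcn θ hx
          have h4 : (1 - δ) / (2 : ℝ) ^ (1 - θ) ≤ 0 := div_nonpos_of_nonpos_of_nonneg (by linarith) (by positivity)
          linarith
        exact h2.frequently
      · have h2 : 0 < -Real.log (1 - δ) := by
          have := Real.log_neg (by linarith : 0 < 1 - δ) (by linarith)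
          linarith
        have h3 := (avg_side hF 1 θ (Or.inl rfl) hθ0 hθ1 m c hc0 hc (by norm_num) _ h2).2
        refine (h3.and_eventually (eventually_ge_atTop 2)).mono fun x hx => ?_
        obtain ⟨h4, h5⟩ := hx
        have h6 := RR_pos a b m hcn θ h5
        have h7 : (0 : ℝ) < (1 - δ) / 2 ^ (1 - θ) := div_pos (by linarith) (by positivity)
        rw [← Real.log_lt_log_iff h7 h6, Real.log_div (by linarith) (by positivity), Real.log_rpow (by norm_num)]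
        linarith
  · constructor
    · have h1 := (avg_side hF (-1) θ (Or.inr rfl) hθ0 hθ1 m c hc0 hc (fun _ => hreal) δ hδ).1
      refine h1.mono fun x hx => ?_
      linarith
    · have h2 : 0 < Real.log (1 + δ) := Real.log_pos (by linarith)
      have h3 := (avg_side hF (-1) θ (Or.inr rfl) hθ0 hθ1 m c hc0 hc (fun _ => hreal) _ h2).2
      refine (h3.and_eventually (eventually_ge_atTop 2)).mono fun x hx => ?_
      obtain ⟨h4, h5⟩ := hx
      have h6 := RR_pos a b m hcn θ h5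
      have h7 : (0 : ℝ) < (1 + δ) * 2 ^ (1 - θ) := by positivity
      rw [← Real.log_lt_log_iff h6 h7, Real.log_mul (by linarith) (by positivity), Real.log_rpow (by norm_num)]
      linarith

end Pool.Agent.H930R3.BK
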