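import Pool.Agent.H930R3.BK.C

/-! The version of `H438R3.BSD.Core2` (helper438) for quotients. -/

set_option autoImplicit false

open Complex Filter Topology Set

namespace Pool.Agent.H930R3.BK

open Pool.Agent.H438R3.BSD

/-- the relation between `F` and the series spreads to the half plane of convergence -/
theorem spread2q (a : ℕ → ℂ) (ε : ℂ) (F F2 W : ℂ → ℂ) (hF : Differentiable ℂ F) (hF2 : Differentiable ℂ F2)
    (hW : DifferentiableOn ℂ W {s | 1 < s.re})
    (hrel : ∀ s : ℂ, 3 / 2 < s.re → F s = F2 s * exp (W s + ε * (s - 1) ^ 2 * LSeries a s))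
    (t : ℝ) (ht : 1 ≤ t) (ht2 : t ≤ 3 / 2) (habs : LSeries.abscissaOfAbsConv a ≤ (t : EReal)) :
    ∀ s : ℂ, t < s.re → F s = F2 s * exp (W s + ε * (s - 1) ^ 2 * LSeries a s) := by
  have hL : DifferentiableOn ℂ (LSeries a) {s : ℂ | t < s.re} := by
    intro s hs
    refine (LSeries_analyticOnNhd a s ?_).differentiableAt.differentiableWithinAt
    exact lt_of_le_of_lt habs (by exact_mod_cast hs)
  have hW' : DifferentiableOn ℂ W {s : ℂ | t < s.re} :=
    hW.mono (fun s (hs : t < s.re) => lt_of_le_of_lt ht hs)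
  have hR : DifferentiableOn ℂ (fun s => F2 s * exp (W s + ε * (s - 1) ^ 2 * LSeries a s)) {s : ℂ | t < s.re} := by
    apply hF2.differentiableOn.mul
    apply DifferentiableOn.cexp
    apply hW'.add
    apply DifferentiableOn.mul _ hL
    fun_prop
  have h1 := (hF.differentiableOn (s := {s : ℂ | t < s.re})).analyticOnNhd (Pool.Agent.H438R3.BSD.isOpen_re_gt t)
  have h2 := hR.analyticOnNhd (Pool.Agent.H438R3.BSD.isOpen_re_gt t)
  have h3 := h1.eqOn_of_preconnected_of_eventuallyEq h2 (Pool.Agent.H438R3.BSD.preconn_re_gt t)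
    (z₀ := (2 : ℂ)) (by show t < (2 : ℂ).re; simp only [re_ofNat]; linarith) (by
      have : {s : ℂ | 3 / 2 < s.re} ∈ 𝓝 (2 : ℂ) :=
        (Pool.Agent.H438R3.BSD.isOpen_re_gt (3 / 2)).mem_nhds (by show (3:ℝ) / 2 < (2 : ℂ).re; simp only [re_ofNat]; norm_num)
      filter_upwards [this] with s hs
      exact hrel s hs)
  exact fun s hs => h3 hs

theorem core2q (G : ℕ → ℝ) (hG : ∀ n, 0 ≤ G n) (ε : ℝ) (hε : ε = 1 ∨ ε = -1) (F F2 W : ℂ → ℂ)
    (hF : Differentiable ℂ F) (hF2 : Differentiable ℂ F2) (hW : DifferentiableOn ℂ W {s | 1 < s.re})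
    (hsum : ∀ s : ℂ, 3 / 2 < s.re → LSeriesSummable (fun n => (G n : ℂ)) s)
    (hrel : ∀ s : ℂ, 3 / 2 < s.re →
      F s = F2 s * exp (W s + ε * (s - 1) ^ 2 * LSeries (fun n => (G n : ℂ)) s))
    (hreal1 : ε = 1 → ∀ σ : ℝ, 1 < σ → F2 σ ≠ 0) (hreal : ε = -1 → ∀ σ : ℝ, 1 < σ → F σ ≠ 0) :
    (∀ s : ℂ, 1 < s.re → LSeriesSummable (fun n => (G n : ℂ)) s) ∧
    ∀ s : ℂ, 1 < s.re → F s = F2 s * exp (W s + ε * (s - 1) ^ 2 * LSeries (fun n => (G n : ℂ)) s) := by
  set a : ℕ → ℂ := fun n => (G n : ℂ) with ha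
  have hup : LSeries.abscissaOfAbsConv a ≤ ((3 / 2 : ℝ) : EReal) :=
    LSeries.abscissaOfAbsConv_le_of_forall_lt_LSeriesSummable fun y hy =>
      hsum y (by simpa using hy)
  have hε2 : (ε : ℂ) * ε = 1 := by
    rcases hε with h | h <;> rw [h] <;> push_cast <;> ring
  -- the abscissa is at most 1
  have hone : LSeries.abscissaOfAbsConv a ≤ ((1 : ℝ) : EReal) := by
    by_contra hcon
    push Not at hcon
    obtain ⟨a0, ha0⟩ : ∃ a0 : ℝ, LSeries.abscissaOfAbsConv a = (a0 : EReal) := by
      induction h : LSeries.abscissaOfAbsConv a using EReal.rec with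
      | bot => rw [h] at hcon; exact absurd hcon (by simp)
      | coe x => exact ⟨x, rfl⟩
      | top => rw [h] at hup; exact absurd hup (by simp)
    rw [ha0] at hcon hup
    have h1a : 1 < a0 := by exact_mod_cast hcon
    have ha32 : a0 ≤ 3 / 2 := by exact_mod_cast hup
    have hR := spread2q a ε F F2 W hF hF2 hW hrel a0 h1a.le ha32 ha0.le
    have hWc : ContinuousAt W (a0 : ℂ) :=
      (hW.differentiableAt ((Pool.Agent.H438R3.BSD.isOpen_re_gt 1).mem_nhds (by simpa using h1a))).continuousAt
    -- `F a0 ≠ 0` and `F2 a0 ≠ 0`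
    have hWc1 : Tendsto (fun σ : ℝ => Real.exp (W σ).re) (𝓝[>] a0) (𝓝 (Real.exp (W a0).re)) := by
      have hc : ContinuousAt (fun σ : ℝ => Real.exp (W σ).re) a0 := by
        apply Real.continuous_exp.continuousAt.comp
        apply Complex.continuous_re.continuousAt.comp
        exact ContinuousAt.comp (f := fun σ : ℝ => (σ : ℂ)) hWc Complex.continuous_ofReal.continuousAt
      exact hc.tendsto.mono_left nhdsWithin_le_nhds
    have hWc2 : Tendsto (fun σ : ℝ => Real.exp (-(W σ).re)) (𝓝[>] a0) (𝓝 (Real.exp (-(W a0).re))) := by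
      have hc : ContinuousAt (fun σ : ℝ => Real.exp (-(W σ).re)) a0 := by
        apply Real.continuous_exp.continuousAt.comp
        apply ContinuousAt.neg
        apply Complex.continuous_re.continuousAt.comp
        exact ContinuousAt.comp (f := fun σ : ℝ => (σ : ℂ)) hWc Complex.continuous_ofReal.continuousAt
      exact hc.tendsto.mono_left nhdsWithin_le_nhds
    have hcF : ∀ F : ℂ → ℂ, Differentiable ℂ F → Tendsto (fun σ : ℝ => ‖F σ‖) (𝓝[>] a0) (𝓝 ‖F a0‖) := by
      intro F hF
      have : ContinuousAt (fun σ : ℝ => ‖F σ‖) a0 := by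
        have := hF.continuous
        fun_prop
      exact this.tendsto.mono_left nhdsWithin_le_nhds
    have hnorm : ∀ σ : ℝ, a0 < σ → ‖F σ‖ = ‖F2 σ‖ * Real.exp ((W σ).re + ε * ((σ - 1) ^ 2 * (LSeries a σ).re)) := by
      intro σ hσ
      rw [hR σ (by simpa using hσ), norm_mul, Complex.norm_exp]
      congr 2
      rw [add_re]
      congr 1
      have : (ε : ℂ) * ((σ : ℂ) - 1) ^ 2 = ((ε * (σ - 1) ^ 2 : ℝ) : ℂ) := by push_cast; ring
      rw [this, Complex.re_ofReal_mul]
      ring
    have hboth : F a0 ≠ 0 ∧ F2 a0 ≠ 0 := by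
      rcases hε with h | h
      · have h2 := hreal1 h a0 h1a
        refine ⟨fun h0 => ?_, h2⟩
        have h3 : ‖F2 a0‖ * Real.exp (W a0).re ≤ ‖F a0‖ := by
          refine le_of_tendsto_of_tendsto ((hcF F2 hF2).mul hWc1) (hcF F hF) ?_
          filter_upwards [self_mem_nhdsWithin] with σ hσ
          have hσ' : a0 < σ := hσ
          rw [hnorm σ hσ', h]
          refine mul_le_mul_of_nonneg_left ?_ (norm_nonneg _)
          apply Real.exp_le_exp.2
          have h4 := re_LSeries_nonneg G hG σ
          have h6 : 0 ≤ (σ - 1) ^ 2 * (LSeries a σ).re := mul_nonneg (by positivity) h4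
          linarith
        rw [h0, norm_zero] at h3
        have h7 : 0 < ‖F2 a0‖ * Real.exp (W a0).re := mul_pos (norm_pos_iff.2 h2) (Real.exp_pos _)
        linarith
      · have h2 := hreal h a0 h1a
        refine ⟨h2, fun h0 => ?_⟩
        have h3 : ‖F a0‖ * Real.exp (-(W a0).re) ≤ ‖F2 a0‖ := by
          refine le_of_tendsto_of_tendsto ((hcF F hF).mul hWc2) (hcF F2 hF2) ?_
          filter_upwards [self_mem_nhdsWithin] with σ hσ
          have hσ' : a0 < σ := hσ
          rw [hnorm σ hσ', h, mul_assoc, ← Real.exp_add]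
          have h4 := re_LSeries_nonneg G hG σ
          have h6 : 0 ≤ (σ - 1) ^ 2 * (LSeries a σ).re := mul_nonneg (by positivity) h4
          calc ‖F2 σ‖ * _ ≤ ‖F2 σ‖ * 1 := by
                refine mul_le_mul_of_nonneg_left ?_ (norm_nonneg _)
                rw [Real.exp_le_one_iff]
                linarith
            _ = _ := mul_one _
        rw [h0, norm_zero] at h3
        have h7 : 0 < ‖F a0‖ * Real.exp (-(W a0).re) := mul_pos (norm_pos_iff.2 h2) (Real.exp_pos _)
        linarith
    set q : ℂ → ℂ := fun s => F s / F2 s with hqdef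
    have hF0 : q a0 ≠ 0 := div_ne_zero hboth.1 hboth.2
    -- a logarithm near `a0`
    have hqc : ContinuousAt q (a0 : ℂ) :=
      (hF.continuous.continuousAt).div (hF2.continuous.continuousAt) hboth.2
    have hq : ContinuousAt (fun s => q s / q a0) (a0 : ℂ) := hqc.div_const _
    obtain ⟨r1, hr1, hball⟩ := Metric.continuousAt_iff.1 hq 1 one_pos
    have hF2ev : ∀ᶠ s in 𝓝 (a0 : ℂ), F2 s ≠ 0 := hF2.continuous.continuousAt.eventually_ne hboth.2
    obtain ⟨r2, hr2, hball2⟩ := Metric.eventually_nhds_iff_ball.1 hF2ev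
    set r := min (min r1 r2) (a0 - 1) with hr
    have hr0 : 0 < r := lt_min (lt_min hr1 hr2) (by linarith)
    have hF2ne : ∀ s ∈ Metric.ball (a0 : ℂ) r, F2 s ≠ 0 := by
      intro s hs
      refine hball2 s (Metric.ball_subset_ball ?_ hs)
      exact (min_le_left _ _).trans (min_le_right _ _)
    have hslit : ∀ s ∈ Metric.ball (a0 : ℂ) r, q s / q a0 ∈ slitPlane := by
      intro s hs
      have h2 := hball (lt_of_lt_of_le (Metric.mem_ball.1 hs) ((min_le_left _ _).trans (min_le_left _ _)))
      rw [div_self hF0, dist_eq_norm] at h2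
      have h3 := Complex.mem_slitPlane_of_norm_lt_one h2
      simpa using h3
    have hre : ∀ s ∈ Metric.ball (a0 : ℂ) r, 1 < s.re := by
      intro s hs
      have h2 : ‖s - a0‖ < a0 - 1 := by
        have := Metric.mem_ball.1 hs
        rw [dist_eq_norm] at this
        exact lt_of_lt_of_le this (min_le_right _ _)
      have h3 := (abs_lt.1 ((Complex.abs_re_le_norm (s - a0)).trans_lt h2)).1
      simp only [sub_re, ofReal_re] at h3
      linarith
    set Lg : ℂ → ℂ := fun s => Complex.log (q s / q a0) + Complex.log (q a0) with hLg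
    have hLgd : DifferentiableOn ℂ Lg (Metric.ball (a0 : ℂ) r) := by
      intro s hs
      have h2 : DifferentiableAt ℂ (fun s => q s / q a0) s :=
        ((hF.differentiableAt).div hF2.differentiableAt (hF2ne s hs)).div_const _
      exact ((h2.clog (hslit s hs)).add_const _).differentiableWithinAt
    have hexpLg : ∀ s ∈ Metric.ball (a0 : ℂ) r, exp (Lg s) = q s := by
      intro s hs
      rw [hLg]
      simp only
      have h2 := Complex.slitPlane_ne_zero (hslit s hs)
      rw [Complex.exp_add, Complex.exp_log h2, Complex.exp_log hF0, div_mul_cancel₀ _ hF0]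
    set c : ℝ := a0 + r / 4 with hc
    have hsub : Metric.ball (c : ℂ) (r / 2) ⊆ Metric.ball (a0 : ℂ) r := by
      apply Metric.ball_subset_ball'
      rw [dist_eq_norm]
      have : (c : ℂ) - a0 = ((r / 4 : ℝ) : ℂ) := by rw [hc]; push_cast; ring
      rw [this, Complex.norm_real, Real.norm_eq_abs, abs_of_pos (by positivity)]
      linarith
    have hLc : ContinuousAt (LSeries a) (c : ℂ) :=
      (LSeries_analyticOnNhd a (c : ℂ) (by
        show LSeries.abscissaOfAbsConv a < (((c : ℂ)).re : EReal)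
        rw [ha0]
        simp only [ofReal_re]
        exact_mod_cast (by rw [hc]; linarith : a0 < c))).continuousAt
    have hcmem : (c : ℂ) ∈ Metric.ball (a0 : ℂ) r := hsub (Metric.mem_ball_self (by positivity))
    set φ : ℂ → ℂ := fun s => Lg s - W s - ε * (s - 1) ^ 2 * LSeries a s with hφ
    have hφc : ContinuousAt φ (c : ℂ) := by
      apply ContinuousAt.sub
      · apply ContinuousAt.sub
        · exact (hLgd.differentiableAt (Metric.isOpen_ball.mem_nhds hcmem)).continuousAt
        · exact (hW.differentiableAt ((Pool.Agent.H438R3.BSD.isOpen_re_gt 1).mem_nhds (hre _ hcmem))).continuousAt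
      · apply ContinuousAt.mul _ hLc
        fun_prop
    have hev : ∀ᶠ s in 𝓝 (c : ℂ), exp (φ s) = 1 := by
      have h2 : Metric.ball (a0 : ℂ) r ∩ {s : ℂ | a0 < s.re} ∈ 𝓝 (c : ℂ) := by
        apply inter_mem (Metric.isOpen_ball.mem_nhds hcmem) ((Pool.Agent.H438R3.BSD.isOpen_re_gt a0).mem_nhds ?_)
        show a0 < ((c : ℂ)).re
        simp only [ofReal_re]
        rw [hc]; linarith
      filter_upwards [h2] with s hs
      have h3 := hexpLg s hs.1
      have h4 : q s = exp (W s + ε * (s - 1) ^ 2 * LSeries a s) := by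
        rw [hqdef]
        simp only
        rw [hR s hs.2, mul_div_cancel_left₀ _ (hF2ne s hs.1)]
      rw [h4] at h3
      have h5 : φ s = Lg s - (W s + ε * (s - 1) ^ 2 * LSeries a s) := by rw [hφ]; ring
      rw [h5, Complex.exp_sub, h3, div_self (Complex.exp_ne_zero _)]
    have hconst : ∀ᶠ s in 𝓝 (c : ℂ), φ s = φ c := by
      have h2 : ∀ᶠ s in 𝓝 (c : ℂ), ‖φ s - φ c‖ < 2 * Real.pi := by
        have := (Metric.tendsto_nhds.1 hφc) (2 * Real.pi) (by positivity)
        filter_upwards [this] with s hs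
        rwa [dist_eq_norm] at hs
      filter_upwards [hev, h2] with s hs1 hs2
      have h3 : exp (φ s - φ c) = 1 := by
        rw [Complex.exp_sub, hs1, hev.self_of_nhds, div_one]
      rw [Complex.exp_eq_one_iff] at h3
      obtain ⟨n, hn⟩ := h3
      rw [hn] at hs2
      have h4 : ‖(n : ℂ) * (2 * Real.pi * I)‖ = |(n : ℝ)| * (2 * Real.pi) := by
        rw [norm_mul, norm_mul, norm_mul, Complex.norm_I, mul_one, Complex.norm_real,
          Real.norm_eq_abs, abs_of_pos Real.pi_pos]
        simp
      rw [h4] at hs2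
      have h5 : |(n : ℝ)| < 1 := by
        by_contra hcon
        push Not at hcon
        have := mul_le_mul_of_nonneg_right hcon (by positivity : 0 ≤ 2 * Real.pi)
        linarith
      have h6 : n = 0 := by
        have : |n| < 1 := by exact_mod_cast h5
        rwa [Int.abs_lt_one_iff] at this
      rw [h6] at hn
      simp only [Int.cast_zero, zero_mul] at hn
      exact sub_eq_zero.1 hn
    set H : ℂ → ℂ := fun s => ε * (Lg s - W s - φ c) / (s - 1) ^ 2 with hH
    have hne1 : ∀ s ∈ Metric.ball (a0 : ℂ) r, s - 1 ≠ 0 := by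
      intro s hs h0
      have h2 := hre s hs
      have h3 : s = 1 := sub_eq_zero.1 h0
      rw [h3] at h2
      simp at h2
    have hHd : DifferentiableOn ℂ H (Metric.ball (c : ℂ) (r / 2)) := by
      apply DifferentiableOn.div _ (by fun_prop) (fun s hs => pow_ne_zero 2 (hne1 s (hsub hs)))
      apply DifferentiableOn.const_mul
      apply DifferentiableOn.sub_const
      exact (hLgd.mono hsub).sub (hW.mono (fun s hs => hre s (hsub hs)))
    have hHe : ∀ᶠ s in 𝓝 (c : ℂ), H s = LSeries a s := by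
      filter_upwards [hconst, Metric.isOpen_ball.mem_nhds hcmem] with s hs1 hs2
      rw [hH]
      simp only
      rw [← hs1, hφ]
      simp only
      rw [div_eq_iff (pow_ne_zero 2 (hne1 s hs2))]
      have : (ε : ℂ) * (Lg s - W s - (Lg s - W s - ε * (s - 1) ^ 2 * LSeries a s)) =
          (ε * ε) * ((s - 1) ^ 2 * LSeries a s) := by ring
      rw [this, hε2]
      ring
    have hcontr := landau_disc G hG H c (r / 2) (by positivity) hHd (by
      show LSeries.abscissaOfAbsConv a < (c : EReal)
      rw [ha0]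
      exact_mod_cast (by rw [hc]; linarith : a0 < c)) hHe (a0 - r / 8) (by rw [hc]; linarith)
      (by rw [hc]; linarith)
    have h7 := hcontr.abscissaOfAbsConv_le
    rw [ha0] at h7
    simp only [ofReal_re] at h7
    have h8 : a0 ≤ a0 - r / 8 := by exact_mod_cast h7
    linarith
  refine ⟨fun s hs => ?_, ?_⟩
  · apply LSeriesSummable_of_abscissaOfAbsConv_lt_re
    exact lt_of_le_of_lt hone (by exact_mod_cast hs)
  · exact spread2q a ε F F2 W hF hF2 hW hrel 1 le_rfl (by norm_num) hone

end Pool.Agent.H930R3.BK
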