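import Pool.Agent.H930R3.BK.Q1

/-! The one-sided theorem, with constants, for quotients of Euler products with the same square
terms. -/

set_option autoImplicit false

open Complex Filter Topology Finset

namespace Pool.Agent.H930R3.BK

open Pool.Agent.H438R3.BSD Pool.Agent.H341R2

section

variable {good : ℕ → Prop} [DecidablePred good]

lemma ell_summable {α : ℕ → ℂ} (hgood : ∀ p, good p → p.Prime)
    (hα : ∀ p, good p → ‖α p‖ = (p : ℝ) ^ (1 / 2 : ℝ)) {s : ℂ} (hs : 3 / 2 < s.re) :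
    Summable (fun n : ℕ => (ell good α n : ℂ) * (n : ℂ) ^ (1 - s)) := by
  refine Summable.of_norm_bounded
    ((Real.summable_nat_rpow.2 (by linarith : 1 / 2 - s.re < -1)).mul_left 5) (fun n => ?_)
  rcases Nat.eq_zero_or_pos n with h0 | h0
  · rw [h0]
    have : ¬ good 0 := fun h => Nat.not_prime_zero (hgood 0 h)
    simp only [ell, if_neg this, Complex.ofReal_zero, zero_mul, norm_zero]
    positivity
  · have hn0 : (0 : ℝ) < n := by exact_mod_cast h0
    rw [norm_mul, Complex.norm_real, Real.norm_eq_abs, Complex.norm_natCast_cpow_of_pos h0]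
    have h1 := ell_le hgood hα n h0
    calc |ell good α n| * (n : ℝ) ^ (1 - s).re ≤
        (5 * (n : ℝ) ^ (-(1 / 2) : ℝ)) * (n : ℝ) ^ (1 - s).re :=
          mul_le_mul_of_nonneg_right h1 (by positivity)
      _ = 5 * ((n : ℝ) ^ (-(1 / 2) : ℝ) * (n : ℝ) ^ (1 - s).re) := by ring
      _ = 5 * (n : ℝ) ^ (1 / 2 - s.re) := by
          rw [← Real.rpow_add hn0]; congr 2; simp; ring

lemma F_exp {α : ℕ → ℂ} (hgood : ∀ p, good p → p.Prime)
    (hα : ∀ p, good p → ‖α p‖ = (p : ℝ) ^ (1 / 2 : ℝ)) (F : ℂ → ℂ)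
    (hprod : ∀ s : ℂ, 3 / 2 < s.re → HasProd (fun p : ℕ => if good p then
      ((1 - α p * (p : ℂ) ^ (-s)) * (1 - starRingEnd ℂ (α p) * (p : ℂ) ^ (-s)))⁻¹ else 1) (F s))
    {s : ℂ} (hs : 3 / 2 < s.re) :
    F s = exp ((∑' p, cc good α 1 p s) + ((∑' n : ℕ, (uu good α n : ℂ) * (n : ℂ) ^ (2 - 2 * s)) -
      ∑' n : ℕ, (uu good α n : ℂ) * (n : ℂ) ^ (1 - s)) -
      ∑' n : ℕ, (ell good α n : ℂ) * (n : ℂ) ^ (1 - s)) := by
  have hs1 : 1 < s.re := by linarith
  have hL := ell_summable hgood hα hs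
  have hU1 := uu1_summable hgood hα hs1
  have hU2 := uu2_summable hgood hα hs1
  have hD := cc_summable hgood hα 1 hs1
  have hLL : HasSum (fun p => LL good α p s)
      ((∑' p, cc good α 1 p s) + ((∑' n : ℕ, (uu good α n : ℂ) * (n : ℂ) ^ (2 - 2 * s)) -
      ∑' n : ℕ, (uu good α n : ℂ) * (n : ℂ) ^ (1 - s)) -
      ∑' n : ℕ, (ell good α n : ℂ) * (n : ℂ) ^ (1 - s)) := by
    have h1 := (hD.hasSum.add (hU2.hasSum.sub hU1.hasSum)).sub hL.hasSum
    have e : (fun p => LL good α p s) = fun p => cc good α 1 p s +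
        ((uu good α p : ℂ) * (p : ℂ) ^ (2 - 2 * s) - (uu good α p : ℂ) * (p : ℂ) ^ (1 - s)) -
        (ell good α p : ℂ) * (p : ℂ) ^ (1 - s) := by
      funext p
      unfold cc
      rw [dd_eq hgood hα]
      push_cast
      ring
    rw [e]
    exact h1
  refine (hprod s hs).unique ?_
  have h2 := hLL.cexp
  convert h2 using 1
  funext p
  simp only [Function.comp_apply]
  unfold LL
  split_ifs with hp
  · have hpp := hgood p hp
    have hp2 : (2 : ℝ) ≤ p := by exact_mod_cast hpp.two_le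
    have hne : ∀ β : ℂ, ‖β‖ = (p : ℝ) ^ (1 / 2 : ℝ) → 1 - β * (p : ℂ) ^ (-s) ≠ 0 := by
      intro β hβ h0
      have h3 := norm_a hpp hβ s
      have h4 : ‖β * (p : ℂ) ^ (-s)‖ < 1 := by
        rw [h3]; exact lt_of_le_of_lt (x_rpow_le hp2 (by linarith)) (by norm_num)
      have h5 : β * (p : ℂ) ^ (-s) = 1 := (sub_eq_zero.1 h0).symm
      rw [h5, norm_one] at h4
      exact lt_irrefl _ h4
    rw [Complex.exp_add, Complex.exp_neg, Complex.exp_neg, Complex.exp_log (hne _ (hα p hp)),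
      Complex.exp_log (hne _ (norm_conj_alpha hgood hα hp)), mul_inv]
  · rw [Complex.exp_zero]

variable (good)

/-- the coefficients of the quotient -/
noncomputable def mq (α β : ℕ → ℂ) (ε κ : ℝ) (n : ℕ) : ℝ := mm good α ε κ n + ε * ell good β n

variable {good}

/-- The abstract theorem for quotients. -/
theorem main_q {α β : ℕ → ℂ} (hgood : ∀ p, good p → p.Prime)
    (hα : ∀ p, good p → ‖α p‖ = (p : ℝ) ^ (1 / 2 : ℝ))
    (hβ : ∀ p, good p → ‖β p‖ = (p : ℝ) ^ (1 / 2 : ℝ)) (huu : uu good α = uu good β)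
    (ε κ C D : ℝ) (hε : ε = 1 ∨ ε = -1)
    (hG : ∀ n, 0 ≤ AS C (mq good α β ε κ) n + D) (F F2 : ℂ → ℂ) (hF : Differentiable ℂ F)
    (hF2 : Differentiable ℂ F2)
    (hprod : ∀ s : ℂ, 3 / 2 < s.re → HasProd (fun p : ℕ => if good p then
      ((1 - α p * (p : ℂ) ^ (-s)) * (1 - starRingEnd ℂ (α p) * (p : ℂ) ^ (-s)))⁻¹ else 1) (F s))
    (hprod2 : ∀ s : ℂ, 3 / 2 < s.re → HasProd (fun p : ℕ => if good p then
      ((1 - β p * (p : ℂ) ^ (-s)) * (1 - starRingEnd ℂ (β p) * (p : ℂ) ^ (-s)))⁻¹ else 1) (F2 s))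
    (hreal1 : ε = 1 → ∀ σ : ℝ, 1 < σ → F2 σ ≠ 0) (hreal : ε = -1 → ∀ σ : ℝ, 1 < σ → F σ ≠ 0) :
    (∃ V : ℂ → ℂ, DifferentiableOn ℂ V {s | 1 < s.re} ∧ ∀ s : ℂ, 1 < s.re → F s = F2 s * exp (V s)) ∧
    ∀ δ : ℝ, 0 < δ → ∀ᶠ w : ℝ in 𝓝[>] 0,
      -(ε * (κ * lam w)) - C - δ ≤ ε * (Real.log ‖F (1 + w)‖ - Real.log ‖F2 (1 + w)‖) := by
  have hε1 : |ε| = 1 := by rcases hε with h | h <;> rw [h] <;> simp
  have hε2 : (ε : ℂ) * ε = 1 := by
    rcases hε with h | h <;> rw [h] <;> push_cast <;> ring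
  have hε3 : ε * ε = 1 := by rcases hε with h | h <;> rw [h] <;> norm_num
  set m := mq good α β ε κ with hm
  set Kc : ℝ := |C| + 2 * (|κ| + 10) with hKc
  have hKc0 : 0 ≤ Kc := by positivity
  have hmle : ∀ n : ℕ, 1 ≤ n → |m n| ≤ (|κ| + 10) * (n : ℝ) ^ (-(1 / 2) : ℝ) := by
    intro n hn
    have h1 := mm_le hgood hα ε κ hε1 n hn
    have h2 := ell_le hgood hβ n hn
    rw [hm]
    unfold mq
    refine (abs_add_le _ _).trans ?_
    rw [abs_mul, hε1, one_mul]
    linarith
  have hPS : ∀ n : ℕ, 1 ≤ n → |PS C m n| ≤ Kc * (n : ℝ) ^ (1 / 2 : ℝ) :=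
    fun n hn => PS_le_gen (by positivity) hmle C n hn
  have hAS : ∀ n : ℕ, 1 ≤ n → |AS C m n| ≤ 2 * Kc * (n : ℝ) ^ (1 / 2 : ℝ) :=
    fun n _ => AS_le hKc0 hPS n
  set E2 : ℂ → ℂ := EE 0 (fun k => PS C m k / k) with hE2
  set W : ℂ → ℂ := fun s => ((∑' p, cc good α 1 p s) - ∑' p, cc good β 1 p s) - κ * LSeries pr s
    - ε * (EE C m s + C)
    - ε * ((s - 1) * E2 s) - ε * ((s - 1) * ((s - 1) * (D * riemannZeta s))) with hW
  have hWd : DifferentiableOn ℂ W {s | 1 < s.re} := by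
    apply DifferentiableOn.sub
    · apply DifferentiableOn.sub
      · apply DifferentiableOn.sub
        · exact ((CC_differentiable hgood hα 1).sub (CC_differentiable hgood hβ 1)).sub
            (pr_differentiable.const_mul _)
        · exact ((EE_differentiable hKc0 hPS).add_const _).const_mul _
      · apply DifferentiableOn.const_mul
        apply DifferentiableOn.mul (by fun_prop)
        exact EE_differentiable (by positivity : (0 : ℝ) ≤ 2 * Kc) hAS
    · apply DifferentiableOn.const_mul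
      apply DifferentiableOn.mul (by fun_prop)
      apply DifferentiableOn.mul (by fun_prop)
      apply DifferentiableOn.const_mul
      intro s hs
      have hs' : 1 < s.re := hs
      exact (differentiableAt_riemannZeta (by
        intro h; rw [h] at hs'; simp at hs')).differentiableWithinAt
  have hGsum : ∀ s : ℂ, 3 / 2 < s.re → LSeriesSummable (fun n => ((AS C m n + D : ℝ) : ℂ)) s ∧
      LSeries (fun n => ((AS C m n + D : ℝ) : ℂ)) s =
        LSeries (fun n => (AS C m n : ℂ)) s + D * riemannZeta s := by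
    intro s hs
    have hs1 : 1 < s.re := by linarith
    have e : (fun n => ((AS C m n + D : ℝ) : ℂ)) =
        (fun n => (AS C m n : ℂ)) + (D : ℂ) • (1 : ℕ → ℂ) := by
      funext n
      simp
    have h1 : LSeriesSummable (1 : ℕ → ℂ) s := LSeriesSummable_one_iff.2 hs1
    have h2 := PS_summable (C := 0) (m := fun k => PS C m k / k) hAS s hs
    have h2' : LSeriesSummable (fun n => (AS C m n : ℂ)) s := h2
    have h3 : LSeriesSummable ((D : ℂ) • (1 : ℕ → ℂ)) s := h1.smul _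
    rw [e]
    refine ⟨h2'.add h3, ?_⟩
    rw [LSeries_add h2' h3, LSeries_smul, LSeries_one_eq_riemannZeta hs1]
  have hrel : ∀ s : ℂ, 3 / 2 < s.re →
      F s = F2 s * exp (W s + ε * (s - 1) ^ 2 * LSeries (fun n => ((AS C m n + D : ℝ) : ℂ)) s) := by
    intro s hs
    have hs1 : 1 < s.re := by linarith
    have hL1 := ell_summable hgood hα hs
    have hL2 := ell_summable hgood hβ hs
    have e1 := F_exp hgood hα F hprod hs
    have e2 := F_exp hgood hβ F2 hprod2 hs
    rw [huu] at e1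
    set SL1 := ∑' n : ℕ, (ell good α n : ℂ) * (n : ℂ) ^ (1 - s) with hSL1
    set SL2 := ∑' n : ℕ, (ell good β n : ℂ) * (n : ℂ) ^ (1 - s) with hSL2
    have hP : HasSum (fun n : ℕ => (m (n + 1) : ℂ) * ((n + 1 : ℕ) : ℂ) ^ (1 - s))
        (ε * (κ * LSeries pr s - SL1) + ε * SL2) := by
      have h1 : HasSum (LSeries.term pr s) (LSeries pr s) := (pr_summable hs1).hasSum
      have h2 := (((h1.mul_left (κ : ℂ)).sub hL1.hasSum).mul_left (ε : ℂ)).add
        (hL2.hasSum.mul_left (ε : ℂ))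
      have e : (fun n : ℕ => (ε : ℂ) * (κ * LSeries.term pr s n - (ell good α n : ℂ) * (n : ℂ) ^ (1 - s))
          + ε * ((ell good β n : ℂ) * (n : ℂ) ^ (1 - s))) =
          fun n : ℕ => (m n : ℂ) * ((n : ℕ) : ℂ) ^ (1 - s) := by
        funext n
        have e1 : (ε : ℂ) * (κ * LSeries.term pr s n - (ell good α n : ℂ) * (n : ℂ) ^ (1 - s)) =
            (mm good α ε κ n : ℂ) * (n : ℂ) ^ (1 - s) := by
          by_cases hp : n.Prime
          · have hnc : (n : ℂ) ≠ 0 := by exact_mod_cast hp.ne_zero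
            rw [LSeries.term_of_ne_zero hp.ne_zero]
            unfold mm pr
            rw [if_pos hp, if_pos hp, sub_eq_add_neg 1 s, Complex.cpow_add _ _ hnc, Complex.cpow_one,
              Complex.cpow_neg]
            have hns : (n : ℂ) ^ s ≠ 0 := by
              rw [Complex.cpow_ne_zero_iff]; exact Or.inl hnc
            push_cast
            field_simp
          · have hng : ¬ good n := fun h => hp (hgood n h)
            unfold mm ell LSeries.term pr
            simp [hp, hng]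
        rw [hm]
        unfold mq
        push_cast
        linear_combination e1
      rw [e] at h2
      have h3 := (hasSum_nat_add_iff' (f := fun n : ℕ => (m n : ℂ) * ((n : ℕ) : ℂ) ^ (1 - s)) 1).2 h2
      have h4 : m 0 = 0 := by
        have hng : ¬ good 0 := fun h => Nat.not_prime_zero (hgood 0 h)
        rw [hm]; unfold mq mm ell
        simp [Nat.not_prime_zero, hng]
      simp only [sum_range_one, h4, Complex.ofReal_zero, zero_mul, sub_zero] at h3
      exact h3
    have hab := abel_rel hKc0 hPS s hs _ hP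
    have hP2 : HasSum (fun n : ℕ => ((PS C m (n + 1) / ((n + 1 : ℕ) : ℝ) : ℝ) : ℂ) * ((n + 1 : ℕ) : ℂ) ^ (1 - s))
        (LSeries (fun n => (PS C m n : ℂ)) s) := by
      have h3 : HasSum (LSeries.term (fun n => (PS C m n : ℂ)) s) (LSeries (fun n => (PS C m n : ℂ)) s) :=
        (PS_summable hPS s hs).hasSum
      have h4 := (hasSum_nat_add_iff' (f := LSeries.term (fun n => (PS C m n : ℂ)) s) 1).2 h3
      simp only [sum_range_one, LSeries.term_zero, sub_zero] at h4
      have e : (fun n : ℕ => ((PS C m (n + 1) / ((n + 1 : ℕ) : ℝ) : ℝ) : ℂ) * ((n + 1 : ℕ) : ℂ) ^ (1 - s)) =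
          fun n => LSeries.term (fun n => (PS C m n : ℂ)) s (n + 1) := by
        funext n
        have hn : ((n + 1 : ℕ) : ℂ) ≠ 0 := by exact_mod_cast (by omega : n + 1 ≠ 0)
        have hns : ((n + 1 : ℕ) : ℂ) ^ s ≠ 0 := by
          rw [Complex.cpow_ne_zero_iff]; exact Or.inl hn
        rw [LSeries.term_of_ne_zero (by omega : n + 1 ≠ 0), sub_eq_add_neg 1 s,
          Complex.cpow_add _ _ hn, Complex.cpow_one, Complex.cpow_neg]
        push_cast at hn hns ⊢
        field_simp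
      rw [e]
      exact h4
    have hab2 := abel_rel (C := 0) (m := fun k => PS C m k / k) (by positivity : (0 : ℝ) ≤ 2 * Kc) hAS s hs _ hP2
    have hab2' : (s - 1) * LSeries (fun n => (AS C m n : ℂ)) s = E2 s + LSeries (fun n => (PS C m n : ℂ)) s := by
      have := hab2
      simp only [Complex.ofReal_zero, add_zero] at this
      exact this
    rw [e1, e2, (hGsum s hs).2, ← Complex.exp_add]
    congr 1
    have e6 : (ε : ℂ) * (s - 1) ^ 2 * (LSeries (fun n => (AS C m n : ℂ)) s + D * riemannZeta s) =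
        ε * ((s - 1) * E2 s) + ε * (EE C m s + C + (ε * (κ * LSeries pr s - SL1) + ε * SL2)) +
          ε * ((s - 1) * ((s - 1) * (D * riemannZeta s))) := by
      have e7 : (ε : ℂ) * (s - 1) ^ 2 * (LSeries (fun n => (AS C m n : ℂ)) s + D * riemannZeta s) =
          ε * ((s - 1) * ((s - 1) * LSeries (fun n => (AS C m n : ℂ)) s)) +
          ε * ((s - 1) * ((s - 1) * (D * riemannZeta s))) := by ring
      rw [e7, hab2', ← hab]; ring
    rw [e6, hW]
    simp only
    linear_combination (-(κ * LSeries pr s - SL1 + SL2)) * hε2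
  obtain ⟨hsum, hall⟩ := core2q (fun n => AS C m n + D) hG ε hε F F2 W hF hF2 hWd
    (fun s hs => (hGsum s hs).1) hrel hreal1 hreal
  set G : ℕ → ℝ := fun n => AS C m n + D with hGdef
  refine ⟨⟨fun s => W s + ε * (s - 1) ^ 2 * LSeries (fun n => (G n : ℂ)) s, ?_, hall⟩, fun δ hδ => ?_⟩
  · refine hWd.add (DifferentiableOn.mul (by fun_prop) ?_)
    intro s hs
    refine (LSeries_analyticOnNhd (fun n => (G n : ℂ)) s ?_).differentiableAt.differentiableWithinAt
    have h1 : LSeries.abscissaOfAbsConv (fun n => (G n : ℂ)) ≤ ((1 : ℝ) : EReal) :=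
      LSeries.abscissaOfAbsConv_le_of_forall_lt_LSeriesSummable fun y hy => hsum y (by simpa using hy)
    exact lt_of_le_of_lt h1 (by exact_mod_cast hs)
  have hCC : ∀ᶠ w : ℝ in 𝓝[>] 0, ‖∑' p, cc good α 1 p (1 + w)‖ < δ / 8 := by
    have := (CC_one_tendsto hgood hα).norm
    rw [norm_zero] at this
    exact this.eventually_lt_const (by positivity)
  have hCC2 : ∀ᶠ w : ℝ in 𝓝[>] 0, ‖∑' p, cc good β 1 p (1 + w)‖ < δ / 8 := by
    have := (CC_one_tendsto hgood hβ).norm
    rw [norm_zero] at this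
    exact this.eventually_lt_const (by positivity)
  have hK32 : 0 ≤ K32 := tsum_nonneg fun n => by positivity
  have hw1 : ∀ᶠ w : ℝ in 𝓝[>] 0, w ≤ 1 := by
    have : Set.Iic (1 : ℝ) ∈ 𝓝 (0 : ℝ) := Iic_mem_nhds one_pos
    exact mem_nhdsWithin_of_mem_nhds this
  have hsmall : ∀ᶠ w : ℝ in 𝓝[>] 0, w * (8 * Kc * K32) < δ / 4 := by
    have h1 : Tendsto (fun w : ℝ => w * (8 * Kc * K32)) (𝓝[>] 0) (𝓝 0) := by
      have : ContinuousAt (fun w : ℝ => w * (8 * Kc * K32)) 0 := by fun_prop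
      have h2 := this.tendsto
      rw [zero_mul] at h2
      exact h2.mono_left nhdsWithin_le_nhds
    exact h1.eventually_lt_const (by positivity)
  have hzeta : ∀ᶠ w : ℝ in 𝓝[>] 0, ‖(w : ℂ) * ((w : ℂ) * (D * riemannZeta (1 + w)))‖ < δ / 4 := by
    have hpath : Tendsto (fun w : ℝ => (1 + w : ℂ)) (𝓝[>] 0) (𝓝[≠] 1) := by
      rw [tendsto_nhdsWithin_iff]
      constructor
      · have : ContinuousAt (fun w : ℝ => (1 : ℂ) + (w : ℂ)) 0 := by fun_prop
        have h2 := this.tendsto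
        simp only [ofReal_zero, add_zero] at h2
        exact h2.mono_left nhdsWithin_le_nhds
      · filter_upwards [self_mem_nhdsWithin] with ε hε
        have hε' : (0 : ℝ) < ε := hε
        simp only [Set.mem_compl_iff, Set.mem_singleton_iff, add_eq_left]
        exact_mod_cast hε'.ne'
    have h1 := riemannZeta_residue_one.comp hpath
    have h2 : Tendsto (fun w : ℝ => (w : ℂ)) (𝓝[>] 0) (𝓝 0) := by
      have : ContinuousAt (fun w : ℝ => (w : ℂ)) 0 := by fun_prop
      have h3 := this.tendsto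
      simp only [ofReal_zero] at h3
      exact h3.mono_left nhdsWithin_le_nhds
    have h3 := ((h2.mul_const (D : ℂ)).mul h1).norm
    rw [zero_mul, zero_mul, norm_zero] at h3
    have h4 := h3.eventually_lt_const (by positivity : (0 : ℝ) < δ / 4)
    filter_upwards [h4] with w h5
    refine lt_of_eq_of_lt ?_ h5
    congr 1
    simp only [Function.comp_apply, add_sub_cancel_left]
    ring
  filter_upwards [hCC, hCC2, hsmall, hzeta, self_mem_nhdsWithin, hw1] with w h1 h1b h2 hz h3 h4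
  have hw : (0 : ℝ) < w := h3
  have hre : (1 : ℝ) < ((1 : ℂ) + w).re := by simp [hw]
  have h5 := hall (1 + w) hre
  have hF2ne : F2 (1 + w) ≠ 0 := by
    rcases hε with h | h
    · have := hreal1 h (1 + w) (by linarith)
      push_cast at this
      exact this
    · have h6 := hreal h (1 + w) (by linarith)
      push_cast at h6
      intro h7
      rw [h5, h7, zero_mul] at h6
      exact h6 rfl
  have h6 : Real.log ‖F (1 + w)‖ - Real.log ‖F2 (1 + w)‖ = (W (1 + w)).re +
      (ε * ((1 + w : ℂ) - 1) ^ 2 * LSeries (fun n => (G n : ℂ)) (1 + w)).re := by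
    rw [h5, norm_mul, Complex.norm_exp, Real.log_mul (norm_ne_zero_iff.2 hF2ne) (Real.exp_ne_zero _),
      Real.log_exp, add_re]
    ring
  have h7 : (ε * ((1 + w : ℂ) - 1) ^ 2 * LSeries (fun n => (G n : ℂ)) (1 + w)).re =
      ε * (w ^ 2 * (LSeries (fun n => (G n : ℂ)) ((1 + w : ℝ) : ℂ)).re) := by
    have e1 : (ε : ℂ) * ((1 + w : ℂ) - 1) ^ 2 = ((ε * w ^ 2 : ℝ) : ℂ) := by push_cast; ring
    have e2 : ((1 : ℂ) + w) = ((1 + w : ℝ) : ℂ) := by push_cast; rfl
    rw [e1, Complex.re_ofReal_mul, e2]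
    ring
  have h8 := re_LSeries_nonneg G hG (1 + w)
  have h9 : 0 ≤ w ^ 2 * (LSeries (fun n => (G n : ℂ)) ((1 + w : ℝ) : ℂ)).re := mul_nonneg (by positivity) h8
  have h10 : ε * (Real.log ‖F (1 + w)‖ - Real.log ‖F2 (1 + w)‖) = ε * (W (1 + w)).re +
      w ^ 2 * (LSeries (fun n => (G n : ℂ)) ((1 + w : ℝ) : ℂ)).re := by
    rw [h6, h7, mul_add, ← mul_assoc ε ε, hε3, one_mul]
  rw [h10]
  have h11 : (W (1 + w)).re = (∑' p, cc good α 1 p (1 + w)).re - (∑' p, cc good β 1 p (1 + w)).re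
      - κ * lam w -
      ε * ((EE C m (1 + w)).re + C) - ε * (w * (E2 (1 + w)).re) -
      ε * ((w : ℂ) * ((w : ℂ) * (D * riemannZeta (1 + w)))).re := by
    rw [hW]
    simp only
    rw [pr_eq_lam hw]
    have e8 : ((1 : ℂ) + w - 1) * E2 (1 + w) = (w : ℂ) * E2 (1 + w) := by ring
    have e9 : ((1 : ℂ) + w - 1) * (((1 : ℂ) + w - 1) * (D * riemannZeta (1 + w))) =
      (w : ℂ) * ((w : ℂ) * (D * riemannZeta (1 + w))) := by ring
    rw [e8, e9]
    simp only [sub_re, re_ofReal_mul, add_re, ofReal_re]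
  have h13 : |(EE C m (1 + w)).re| ≤ w * (2 * Kc * K32) := by
    refine (Complex.abs_re_le_norm _).trans ((EE_bound hKc0 hPS (1 + w) hre.le).2.trans ?_)
    have e3 : ‖(1 : ℂ) + w - 1‖ = w := by
      rw [add_sub_cancel_left, Complex.norm_real, Real.norm_eq_abs, abs_of_pos hw]
    have e4 : ‖(1 : ℂ) + w‖ = 1 + w := by
      have : ((1 : ℂ) + w) = ((1 + w : ℝ) : ℂ) := by push_cast; rfl
      rw [this, Complex.norm_real, Real.norm_eq_abs, abs_of_pos (by linarith)]
    rw [e3, e4]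
    calc w * (1 + w) * Kc * K32 ≤ w * 2 * Kc * K32 := by gcongr; linarith
      _ = _ := by ring
  have h13b : |w * (E2 (1 + w)).re| ≤ w * (4 * Kc * K32) := by
    rw [abs_mul, abs_of_pos hw]
    refine mul_le_mul_of_nonneg_left ?_ hw.le
    refine (Complex.abs_re_le_norm _).trans
      ((EE_bound (by positivity : (0 : ℝ) ≤ 2 * Kc) hAS (1 + w) hre.le).2.trans ?_)
    have e3 : ‖(1 : ℂ) + w - 1‖ = w := by
      rw [add_sub_cancel_left, Complex.norm_real, Real.norm_eq_abs, abs_of_pos hw]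
    have e4 : ‖(1 : ℂ) + w‖ = 1 + w := by
      have : ((1 : ℂ) + w) = ((1 + w : ℝ) : ℂ) := by push_cast; rfl
      rw [this, Complex.norm_real, Real.norm_eq_abs, abs_of_pos (by linarith)]
    rw [e3, e4]
    have e5 : w * (1 + w) ≤ 2 := by nlinarith
    calc w * (1 + w) * (2 * Kc) * K32 ≤ 2 * (2 * Kc) * K32 := by gcongr
      _ = 4 * Kc * K32 := by ring
  have h14 : |((w : ℂ) * ((w : ℂ) * (D * riemannZeta (1 + w)))).re| ≤ δ / 4 :=
    (Complex.abs_re_le_norm _).trans hz.le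
  rw [h11]
  have g1 : |(∑' p, cc good α 1 p (1 + w)).re| ≤ δ / 8 := (Complex.abs_re_le_norm _).trans h1.le
  have g2 : |(∑' p, cc good β 1 p (1 + w)).re| ≤ δ / 8 := (Complex.abs_re_le_norm _).trans h1b.le
  set x1 := (∑' p, cc good α 1 p (1 + w)).re
  set x5 := (∑' p, cc good β 1 p (1 + w)).re
  set x2 := (EE C m (1 + w)).re
  set x3 := w * (E2 (1 + w)).re
  set x4 := ((w : ℂ) * ((w : ℂ) * (D * riemannZeta (1 + w)))).re
  have h15 := abs_le.1 g1
  have h15b := abs_le.1 g2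
  have h16 := abs_le.1 h13
  have h19 := abs_le.1 h13b
  have h20 := abs_le.1 h14
  have e10 : ε * (x1 - x5 - κ * lam w - ε * (x2 + C) - ε * x3 - ε * x4) =
      ε * (x1 - x5) - ε * (κ * lam w) - (ε * ε) * (x2 + C + x3 + x4) := by ring
  rw [e10, hε3]
  have h21 : -(δ / 4) ≤ ε * (x1 - x5) := by
    rcases hε with h | h <;> rw [h] <;> linarith [h15.1, h15.2, h15b.1, h15b.2]
  have h22 : w * (2 * Kc * K32) + w * (4 * Kc * K32) ≤ w * (8 * Kc * K32) := by
    have : 0 ≤ w * (Kc * K32) := by positivity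
    nlinarith
  linarith [h16.2, h19.2, h20.2]

end

end Pool.Agent.H930R3.BK
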