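import Pool.Agent.H930R3.BK.Q2

/-! The sharp relation between the continued L-function and the averaged Euler products of one curve,
without a sign condition. -/

set_option autoImplicit false

open Complex Filter Topology Finset

namespace Pool.Agent.H930R3.BK

open Pool.Agent.H438R3.BSD Pool.Agent.H341R2

section

variable {good : ℕ → Prop} [DecidablePred good] {α : ℕ → ℂ}

theorem rel_sharp (hgood : ∀ p, good p → p.Prime) (hα : ∀ p, good p → ‖α p‖ = (p : ℝ) ^ (1 / 2 : ℝ))
    (κ C : ℝ) (F : ℂ → ℂ)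
    (hprod : ∀ s : ℂ, 3 / 2 < s.re → HasProd (fun p : ℕ => if good p then
      ((1 - α p * (p : ℂ) ^ (-s)) * (1 - starRingEnd ℂ (α p) * (p : ℂ) ^ (-s)))⁻¹ else 1) (F s)) :
    ∃ W : ℂ → ℂ, DifferentiableOn ℂ W {s | 1 < s.re} ∧
      (∀ s : ℂ, 3 / 2 < s.re →
        F s = exp (W s + (s - 1) ^ 2 * LSeries (fun n => (AS C (mt good α 1 κ 1) n : ℂ)) s)) ∧
      (∀ s : ℂ, 3 / 2 < s.re → LSeriesSummable (fun n => (AS C (mt good α 1 κ 1) n : ℂ)) s) ∧
      ∀ δ : ℝ, 0 < δ → ∀ᶠ w : ℝ in 𝓝[>] 0, |(W (1 + w)).re + κ * lam w + C| ≤ δ := by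
  set m := mt good α 1 κ 1 with hm
  set Kc : ℝ := |C| + 2 * (|κ| + 5 + 2 * |(1 : ℝ)|) with hKc
  have hKc0 : 0 ≤ Kc := by positivity
  have hPS : ∀ n : ℕ, 1 ≤ n → |PS C m n| ≤ Kc * (n : ℝ) ^ (1 / 2 : ℝ) :=
    fun n hn => PS_le_gen (by positivity) (fun k hk => mt_le hgood hα 1 κ 1 (by simp) k hk) C n hn
  have hAS : ∀ n : ℕ, 1 ≤ n → |AS C m n| ≤ 2 * Kc * (n : ℝ) ^ (1 / 2 : ℝ) :=
    fun n _ => AS_le hKc0 hPS n
  set E2 : ℂ → ℂ := EE 0 (fun k => PS C m k / k) with hE2
  set W : ℂ → ℂ := fun s => (∑' p, cc good α 1 p s) - κ * LSeries pr s - (EE C m s + C)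
    - (s - 1) * E2 s with hW
  have hWd : DifferentiableOn ℂ W {s | 1 < s.re} := by
    apply DifferentiableOn.sub
    · apply DifferentiableOn.sub
      · exact (CC_differentiable hgood hα 1).sub (pr_differentiable.const_mul _)
      · exact ((EE_differentiable hKc0 hPS).add_const _)
    · apply DifferentiableOn.mul (by fun_prop)
      exact EE_differentiable (by positivity : (0 : ℝ) ≤ 2 * Kc) hAS
  have hrel : ∀ s : ℂ, 3 / 2 < s.re →
      F s = exp (W s + (s - 1) ^ 2 * LSeries (fun n => (AS C m n : ℂ)) s) := by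
    intro s hs
    have hs1 : 1 < s.re := by linarith
    have hL := ell_summable hgood hα hs
    have hU1 := uu1_summable hgood hα hs1
    have hU2 := uu2_summable hgood hα hs1
    have hFe := F_exp hgood hα F hprod hs
    set SL := ∑' n : ℕ, (ell good α n : ℂ) * (n : ℂ) ^ (1 - s) with hSL
    set S1 := ∑' n : ℕ, (uu good α n : ℂ) * (n : ℂ) ^ (1 - s) with hS1
    set S2 := ∑' n : ℕ, (uu good α n : ℂ) * (n : ℂ) ^ (2 - 2 * s) with hS2
    have hP : HasSum (fun n : ℕ => (m (n + 1) : ℂ) * ((n + 1 : ℕ) : ℂ) ^ (1 - s))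
        (κ * LSeries pr s - SL - (S1 - S2)) := by
      have h1 : HasSum (LSeries.term pr s) (LSeries pr s) := (pr_summable hs1).hasSum
      have h2 := ((h1.mul_left (κ : ℂ)).sub hL.hasSum).sub
        (hU1.hasSum.sub (sq_hasSum hgood hα hs1))
      have e : (fun n : ℕ => (κ * LSeries.term pr s n - (ell good α n : ℂ) * (n : ℂ) ^ (1 - s)
          - ((uu good α n : ℂ) * (n : ℂ) ^ (1 - s) - (sq good α n : ℂ) * (n : ℂ) ^ (1 - s)))) =
          fun n : ℕ => (m n : ℂ) * ((n : ℕ) : ℂ) ^ (1 - s) := by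
        funext n
        have e1 : ((κ : ℂ) * LSeries.term pr s n - (ell good α n : ℂ) * (n : ℂ) ^ (1 - s)) =
            (mm good α 1 κ n : ℂ) * (n : ℂ) ^ (1 - s) := by
          by_cases hp : n.Prime
          · have hnc : (n : ℂ) ≠ 0 := by exact_mod_cast hp.ne_zero
            rw [LSeries.term_of_ne_zero hp.ne_zero]
            unfold mm pr
            rw [if_pos hp, if_pos hp, sub_eq_add_neg 1 s, Complex.cpow_add _ _ hnc, Complex.cpow_one,
              Complex.cpow_neg]
            have hns : (n : ℂ) ^ s ≠ 0 := by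
              rw [Complex.cpow_ne_zero_iff]; exact Or.inl hnc
            push_cast
            field_simp
          · have hng : ¬ good n := fun h => hp (hgood n h)
            unfold mm ell LSeries.term pr
            simp [hp, hng]
        rw [hm]
        unfold mt
        push_cast
        linear_combination e1
      rw [e] at h2
      have h3 := (hasSum_nat_add_iff' (f := fun n : ℕ => (m n : ℂ) * ((n : ℕ) : ℂ) ^ (1 - s)) 1).2 h2
      have h4 : m 0 = 0 := by
        rw [hm]; unfold mt mm sq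
        rw [uu_not hgood hα Nat.not_prime_zero]
        simp [Nat.not_prime_zero, uu_not hgood hα Nat.not_prime_zero]
      simp only [sum_range_one, h4, Complex.ofReal_zero, zero_mul, sub_zero] at h3
      exact h3
    have hab := abel_rel hKc0 hPS s hs _ hP
    have hP2 : HasSum (fun n : ℕ => ((PS C m (n + 1) / ((n + 1 : ℕ) : ℝ) : ℝ) : ℂ) * ((n + 1 : ℕ) : ℂ) ^ (1 - s))
        (LSeries (fun n => (PS C m n : ℂ)) s) := by
      have h3 : HasSum (LSeries.term (fun n => (PS C m n : ℂ)) s) (LSeries (fun n => (PS C m n : ℂ)) s) :=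
        (PS_summable hPS s hs).hasSum
      have h4 := (hasSum_nat_add_iff' (f := LSeries.term (fun n => (PS C m n : ℂ)) s) 1).2 h3
      simp only [sum_range_one, LSeries.term_zero, sub_zero] at h4
      have e : (fun n : ℕ => ((PS C m (n + 1) / ((n + 1 : ℕ) : ℝ) : ℝ) : ℂ) * ((n + 1 : ℕ) : ℂ) ^ (1 - s)) =
          fun n => LSeries.term (fun n => (PS C m n : ℂ)) s (n + 1) := by
        funext n
        have hn : ((n + 1 : ℕ) : ℂ) ≠ 0 := by exact_mod_cast (by omega : n + 1 ≠ 0)
        have hns : ((n + 1 : ℕ) : ℂ) ^ s ≠ 0 := by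
          rw [Complex.cpow_ne_zero_iff]; exact Or.inl hn
        rw [LSeries.term_of_ne_zero (by omega : n + 1 ≠ 0), sub_eq_add_neg 1 s,
          Complex.cpow_add _ _ hn, Complex.cpow_one, Complex.cpow_neg]
        push_cast at hn hns ⊢
        field_simp
      rw [e]
      exact h4
    have hab2 := abel_rel (C := 0) (m := fun k => PS C m k / k) (by positivity : (0 : ℝ) ≤ 2 * Kc) hAS s hs _ hP2
    have hab2' : (s - 1) * LSeries (fun n => (AS C m n : ℂ)) s = E2 s + LSeries (fun n => (PS C m n : ℂ)) s := by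
      have := hab2
      simp only [Complex.ofReal_zero, add_zero] at this
      exact this
    rw [hFe]
    congr 1
    have e6 : (s - 1) ^ 2 * LSeries (fun n => (AS C m n : ℂ)) s =
        (s - 1) * E2 s + (EE C m s + C + (κ * LSeries pr s - SL - (S1 - S2))) := by
      have e7 : (s - 1) ^ 2 * LSeries (fun n => (AS C m n : ℂ)) s =
          (s - 1) * ((s - 1) * LSeries (fun n => (AS C m n : ℂ)) s) := by ring
      rw [e7, hab2', ← hab]; ring
    rw [e6, hW]
    simp only
    ring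
  refine ⟨W, hWd, hrel, fun s hs => PS_summable (C := 0) (m := fun k => PS C m k / k) hAS s hs,
    fun δ hδ => ?_⟩
  have hCC : ∀ᶠ w : ℝ in 𝓝[>] 0, ‖∑' p, cc good α 1 p (1 + w)‖ < δ / 2 := by
    have := (CC_one_tendsto hgood hα).norm
    rw [norm_zero] at this
    exact this.eventually_lt_const (by positivity)
  have hK32 : 0 ≤ K32 := tsum_nonneg fun n => by positivity
  have hw1 : ∀ᶠ w : ℝ in 𝓝[>] 0, w ≤ 1 := by
    have : Set.Iic (1 : ℝ) ∈ 𝓝 (0 : ℝ) := Iic_mem_nhds one_pos
    exact mem_nhdsWithin_of_mem_nhds this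
  have hsmall : ∀ᶠ w : ℝ in 𝓝[>] 0, w * (8 * Kc * K32) < δ / 2 := by
    have h1 : Tendsto (fun w : ℝ => w * (8 * Kc * K32)) (𝓝[>] 0) (𝓝 0) := by
      have : ContinuousAt (fun w : ℝ => w * (8 * Kc * K32)) 0 := by fun_prop
      have h2 := this.tendsto
      rw [zero_mul] at h2
      exact h2.mono_left nhdsWithin_le_nhds
    exact h1.eventually_lt_const (by positivity)
  filter_upwards [hCC, hsmall, self_mem_nhdsWithin, hw1] with w h1 h2 h3 h4
  have hw : (0 : ℝ) < w := h3
  have hre : (1 : ℝ) < ((1 : ℂ) + w).re := by simp [hw]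
  have h11 : (W (1 + w)).re = (∑' p, cc good α 1 p (1 + w)).re - κ * lam w -
      ((EE C m (1 + w)).re + C) - (w * (E2 (1 + w)).re) := by
    rw [hW]
    simp only
    rw [pr_eq_lam hw]
    have e8 : ((1 : ℂ) + w - 1) * E2 (1 + w) = (w : ℂ) * E2 (1 + w) := by ring
    rw [e8]
    simp only [sub_re, re_ofReal_mul, add_re, ofReal_re]
  have h13 : |(EE C m (1 + w)).re| ≤ w * (2 * Kc * K32) := by
    refine (Complex.abs_re_le_norm _).trans ((EE_bound hKc0 hPS (1 + w) hre.le).2.trans ?_)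
    have e3 : ‖(1 : ℂ) + w - 1‖ = w := by
      rw [add_sub_cancel_left, Complex.norm_real, Real.norm_eq_abs, abs_of_pos hw]
    have e4 : ‖(1 : ℂ) + w‖ = 1 + w := by
      have : ((1 : ℂ) + w) = ((1 + w : ℝ) : ℂ) := by push_cast; rfl
      rw [this, Complex.norm_real, Real.norm_eq_abs, abs_of_pos (by linarith)]
    rw [e3, e4]
    calc w * (1 + w) * Kc * K32 ≤ w * 2 * Kc * K32 := by gcongr; linarith
      _ = _ := by ring
  have h13b : |w * (E2 (1 + w)).re| ≤ w * (4 * Kc * K32) := by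
    rw [abs_mul, abs_of_pos hw]
    refine mul_le_mul_of_nonneg_left ?_ hw.le
    refine (Complex.abs_re_le_norm _).trans
      ((EE_bound (by positivity : (0 : ℝ) ≤ 2 * Kc) hAS (1 + w) hre.le).2.trans ?_)
    have e3 : ‖(1 : ℂ) + w - 1‖ = w := by
      rw [add_sub_cancel_left, Complex.norm_real, Real.norm_eq_abs, abs_of_pos hw]
    have e4 : ‖(1 : ℂ) + w‖ = 1 + w := by
      have : ((1 : ℂ) + w) = ((1 + w : ℝ) : ℂ) := by push_cast; rfl
      rw [this, Complex.norm_real, Real.norm_eq_abs, abs_of_pos (by linarith)]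
    rw [e3, e4]
    have e5 : w * (1 + w) ≤ 2 := by nlinarith
    calc w * (1 + w) * (2 * Kc) * K32 ≤ 2 * (2 * Kc) * K32 := by gcongr
      _ = 4 * Kc * K32 := by ring
  have g1 : |(∑' p, cc good α 1 p (1 + w)).re| ≤ δ / 2 := (Complex.abs_re_le_norm _).trans h1.le
  rw [h11]
  set x1 := (∑' p, cc good α 1 p (1 + w)).re
  set x2 := (EE C m (1 + w)).re
  set x3 := w * (E2 (1 + w)).re
  have h15 := abs_le.1 g1
  have h16 := abs_le.1 h13
  have h19 := abs_le.1 h13b
  have h22 : w * (2 * Kc * K32) + w * (4 * Kc * K32) ≤ w * (8 * Kc * K32) := by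
    have : 0 ≤ w * (Kc * K32) := by positivity
    nlinarith
  rw [abs_le]
  constructor <;> linarith [h16.1, h16.2, h19.1, h19.2, h15.1, h15.2]

end

end Pool.Agent.H930R3.BK
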