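import Pool.Agent.H930R3.BK.R1
import Pool.Agent.H930R3.BK.E
import Pool.Agent.H234R4.BSD.Comp

/-! Comparison, with constants, of the products of two elliptic curves. -/

set_option autoImplicit false

open Complex Filter Topology Finset

namespace Pool.Agent.H930R3.BK

open Pool.Agent.H438R3.BSD Pool.Agent.H341R2

lemma lead_ne {F : ℂ → ℂ} {m : ℕ} {c : ℂ} (hc0 : c ≠ 0)
    (hc : Tendsto (fun s : ℂ => F s / (s - 1) ^ m) (𝓝[≠] 1) (𝓝 c)) :
    ∀ᶠ w : ℝ in 𝓝[>] 0, F (1 + w) ≠ 0 := by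
  have hpath : Tendsto (fun w : ℝ => (1 + w : ℂ)) (𝓝[>] 0) (𝓝[≠] 1) := by
    rw [tendsto_nhdsWithin_iff]
    constructor
    · have : ContinuousAt (fun w : ℝ => (1 : ℂ) + (w : ℂ)) 0 := by fun_prop
      have h2 := this.tendsto
      simp only [ofReal_zero, add_zero] at h2
      exact h2.mono_left nhdsWithin_le_nhds
    · filter_upwards [self_mem_nhdsWithin] with ε hε
      have hε' : (0 : ℝ) < ε := hε
      simp only [Set.mem_compl_iff, Set.mem_singleton_iff, add_eq_left]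
      exact_mod_cast hε'.ne'
  filter_upwards [(hc.comp hpath).eventually_ne hc0] with w hw h0
  apply hw
  simp only [Function.comp_apply]
  rw [h0, zero_div]

lemma zeta_small (D δ : ℝ) (hδ : 0 < δ) :
    ∀ᶠ w : ℝ in 𝓝[>] 0, ‖(w : ℂ) * ((w : ℂ) * (D * riemannZeta (1 + w)))‖ < δ := by
  have hpath : Tendsto (fun w : ℝ => (1 + w : ℂ)) (𝓝[>] 0) (𝓝[≠] 1) := by
    rw [tendsto_nhdsWithin_iff]
    constructor
    · have : ContinuousAt (fun w : ℝ => (1 : ℂ) + (w : ℂ)) 0 := by fun_prop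
      have h2 := this.tendsto
      simp only [ofReal_zero, add_zero] at h2
      exact h2.mono_left nhdsWithin_le_nhds
    · filter_upwards [self_mem_nhdsWithin] with ε hε
      have hε' : (0 : ℝ) < ε := hε
      simp only [Set.mem_compl_iff, Set.mem_singleton_iff, add_eq_left]
      exact_mod_cast hε'.ne'
  have h1 := riemannZeta_residue_one.comp hpath
  have h2 : Tendsto (fun w : ℝ => (w : ℂ)) (𝓝[>] 0) (𝓝 0) := by
    have : ContinuousAt (fun w : ℝ => (w : ℂ)) 0 := by fun_prop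
    have h3 := this.tendsto
    simp only [ofReal_zero] at h3
    exact h3.mono_left nhdsWithin_le_nhds
  have h3 := ((h2.mul_const (D : ℂ)).mul h1).norm
  rw [zero_mul, zero_mul, norm_zero] at h3
  have h4 := h3.eventually_lt_const hδ
  filter_upwards [h4] with w h5
  refine lt_of_eq_of_lt ?_ h5
  congr 1
  simp only [Function.comp_apply, add_sub_cancel_left]
  ring

lemma SP_one : SP 1 = 0 := by
  unfold SP
  simp [Finset.filter_singleton, Nat.not_prime_one]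

lemma LE_one (a b : ℤ) (θ : ℝ) : LE a b θ 1 = 0 := by
  have hn1 : ¬ Good a b 1 := fun hh => Nat.not_prime_one hh.1
  unfold LE EP UU
  simp [Finset.filter_singleton, hn1]

open Classical in
lemma AS_mt (a b : ℤ) (κ C : ℝ) {n : ℕ} (hn : 1 ≤ n) :
    AS C (mt (Good a b) (al a b) 1 κ 1) n = C * ∑ k ∈ Finset.Icc 1 n, (1 : ℝ) / k +
      ∑ k ∈ Finset.Icc 2 n, (κ * SP k - LE a b 1 k) / k := by
  unfold AS
  rw [PS, zero_add, Icc_split hn, Finset.sum_insert (by simp), Finset.sum_insert (by simp)]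
  have e1 : PS C (mt (Good a b) (al a b) 1 κ 1) 1 = C := by
    rw [PS_mt, SP_one, LE_one]; ring
  rw [e1]
  have e4 : ∑ k ∈ Finset.Icc 2 n, PS C (mt (Good a b) (al a b) 1 κ 1) k / k = ∑ k ∈ Finset.Icc 2 n,
      (C * (1 / (k : ℝ)) + (κ * SP k - LE a b 1 k) / k) := by
    refine Finset.sum_congr rfl fun k _ => ?_
    rw [PS_mt]
    ring
  rw [e4, Finset.sum_add_distrib, ← Finset.mul_sum]
  push_cast
  ring

open Classical in
/-- One-sided bounds for logarithmic averages, with constants, for two curves. -/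
theorem pair_sharp {a₁ b₁ a₂ b₂ : ℤ} {F₁ F₂ : ℂ → ℂ} (hF₁ : IsL a₁ b₁ F₁) (hF₂ : IsL a₂ b₂ F₂)
    (hreal : ∀ σ : ℝ, 1 < σ → analyticOrderAt F₂ σ ≤ analyticOrderAt F₁ σ)
    (m₁ m₂ : ℕ) (c₁ c₂ : ℂ) (hc1 : c₁ ≠ 0) (hc2 : c₂ ≠ 0)
    (hc₁ : Tendsto (fun s : ℂ => F₁ s / (s - 1) ^ m₁) (𝓝[≠] 1) (𝓝 c₁))
    (hc₂ : Tendsto (fun s : ℂ => F₂ s / (s - 1) ^ m₂) (𝓝[≠] 1) (𝓝 c₂)) (δ : ℝ) (hδ : 0 < δ) :
    ¬ (∀ᶠ n : ℕ in atTop, ∑ k ∈ Finset.Icc 2 n,
      ((Real.log ‖c₁‖ - Real.log ‖c₂‖) + (LE a₁ b₁ 1 k - LE a₂ b₂ 1 k) -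
        ((m₁ : ℝ) - m₂) * (Real.eulerMascheroniConstant + Real.log (Real.log k))) / k ≤
        (-δ) * Real.log n) := by
  intro h
  set L : ℝ := Real.log ‖c₁‖ - Real.log ‖c₂‖ with hL
  set κ : ℝ := (m₁ : ℝ) - m₂ with hκ
  -- comparison with the sums of `1/p`
  have hS : ∀ᶠ n : ℕ in atTop, -(L - κ * Real.eulerMascheroniConstant +
      κ * (SP n - Real.log (Real.log n))) ≤ -(L - κ * K0) + δ / 4 := by
    have h1 := ((mertens_S.const_mul κ).const_add
      (L - κ * Real.eulerMascheroniConstant)).const_mul (-1)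
    have e : -1 * (L - κ * Real.eulerMascheroniConstant + κ * (Real.eulerMascheroniConstant - K0)) =
      -(L - κ * K0) := by ring
    rw [e] at h1
    filter_upwards [h1.eventually_lt_const (by linarith :
      -(L - κ * K0) < -(L - κ * K0) + δ / 4)] with n hn
    refine le_trans (le_of_eq ?_) hn.le
    unfold SP
    ring
  have hS2 := avg_le _ _ (δ / 4) (by positivity) hS
  set C : ℝ := -(L - κ * K0) - δ / 2 with hC
  set A₁ := AS C (mt (Good a₁ b₁) (al a₁ b₁) 1 m₁ 1) with hA₁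
  set A₂ := AS 0 (mt (Good a₂ b₂) (al a₂ b₂) 1 m₂ 1) with hA₂
  -- the sums are bounded below
  have hlow : ∀ᶠ n : ℕ in atTop, -|C| ≤ A₁ n - A₂ n := by
    filter_upwards [h, hS2, eventually_ge_atTop 1] with n h1 h2 h3
    rw [hA₁, hA₂, AS_mt _ _ _ _ h3, AS_mt _ _ _ _ h3]
    have e5 : ∑ k ∈ Finset.Icc 2 n, (m₁ * SP k - LE a₁ b₁ 1 k) / k -
        ∑ k ∈ Finset.Icc 2 n, (m₂ * SP k - LE a₂ b₂ 1 k) / k =
        -(∑ k ∈ Finset.Icc 2 n, (L + (LE a₁ b₁ 1 k - LE a₂ b₂ 1 k) -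
        κ * (Real.eulerMascheroniConstant + Real.log (Real.log k))) / k) -
        ∑ k ∈ Finset.Icc 2 n, -(L - κ * Real.eulerMascheroniConstant +
      κ * (SP k - Real.log (Real.log k))) / k := by
      rw [← Finset.sum_neg_distrib, ← Finset.sum_sub_distrib, ← Finset.sum_sub_distrib]
      refine Finset.sum_congr rfl fun k _ => ?_
      rw [hκ]
      ring
    have h4 := harm_bounds n h3
    have h5 : C * ∑ k ∈ Finset.Icc 1 n, (1 : ℝ) / k = C + C * Real.log n +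
        C * (∑ k ∈ Finset.Icc 2 n, (1 : ℝ) / k - Real.log n) := by
      rw [Icc_split h3, Finset.sum_insert (by simp)]
      push_cast
      ring
    have h6 : |C + C * (∑ k ∈ Finset.Icc 2 n, (1 : ℝ) / k - Real.log n)| ≤ |C| := by
      have e6 : C + C * (∑ k ∈ Finset.Icc 2 n, (1 : ℝ) / k - Real.log n) =
        C * (1 + (∑ k ∈ Finset.Icc 2 n, (1 : ℝ) / k - Real.log n)) := by ring
      rw [e6, abs_mul]
      have h7 : |1 + (∑ k ∈ Finset.Icc 2 n, (1 : ℝ) / k - Real.log n)| ≤ 1 := by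
        have h8 : ∑ k ∈ Finset.Icc 2 n, (1 : ℝ) / k ≤ Real.log n := harm_le n h3
        rw [abs_le] at h4 ⊢
        constructor <;> linarith [h4.1]
      calc |C| * _ ≤ |C| * 1 := mul_le_mul_of_nonneg_left h7 (abs_nonneg _)
        _ = _ := mul_one _
    have h9 := (abs_le.1 h6).1
    rw [h5]
    have h10 : C * Real.log n - (-δ) * Real.log n -
        (-(L - κ * K0) + δ / 4 + δ / 4) * Real.log n = 0 := by
      rw [hC]; ring
    linarith
  obtain ⟨N, hN⟩ := eventually_atTop.1 hlow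
  set D : ℝ := |C| + ∑ k ∈ Finset.range N, |A₁ k - A₂ k| with hD
  have hG : ∀ n, 0 ≤ A₁ n - A₂ n + D := by
    intro n
    rcases Nat.lt_or_ge n N with hn | hn
    · have h1 : |A₁ n - A₂ n| ≤ ∑ k ∈ Finset.range N, |A₁ k - A₂ k| :=
        Finset.single_le_sum (f := fun k => |A₁ k - A₂ k|) (fun k _ => abs_nonneg _) (Finset.mem_range.2 hn)
      have h2 := neg_abs_le (A₁ n - A₂ n)
      have h3 := abs_nonneg C
      linarith
    · have h1 := hN n hn
      have h2 : 0 ≤ ∑ k ∈ Finset.range N, |A₁ k - A₂ k| := Finset.sum_nonneg fun k _ => abs_nonneg _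
      linarith
  obtain ⟨W₁, hW₁, hrel₁, hsum₁, hK₁⟩ := rel_sharp (good := Good a₁ b₁) (α := al a₁ b₁)
    (fun p hp => hp.1) (fun p hp => al_norm hp) m₁ C F₁ (prod_of_isL hF₁)
  obtain ⟨W₂, hW₂, hrel₂, hsum₂, hK₂⟩ := rel_sharp (good := Good a₂ b₂) (α := al a₂ b₂)
    (fun p hp => hp.1) (fun p hp => al_norm hp) m₂ 0 F₂ (prod_of_isL hF₂)
  set W : ℂ → ℂ := fun s => W₁ s - W₂ s - (s - 1) * ((s - 1) * (D * riemannZeta s)) with hW
  have hWd : DifferentiableOn ℂ W {s | 1 < s.re} := by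
    apply DifferentiableOn.sub (hW₁.sub hW₂)
    apply DifferentiableOn.mul (by fun_prop)
    apply DifferentiableOn.mul (by fun_prop)
    apply DifferentiableOn.const_mul
    intro s hs
    have hs' : 1 < s.re := hs
    exact (differentiableAt_riemannZeta (by
      intro h; rw [h] at hs'; simp at hs')).differentiableWithinAt
  have hGsum : ∀ s : ℂ, 3 / 2 < s.re → LSeriesSummable (fun n => ((A₁ n - A₂ n + D : ℝ) : ℂ)) s ∧
      LSeries (fun n => ((A₁ n - A₂ n + D : ℝ) : ℂ)) s =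
        LSeries (fun n => (A₁ n : ℂ)) s - LSeries (fun n => (A₂ n : ℂ)) s + D * riemannZeta s := by
    intro s hs
    have hs1 : 1 < s.re := by linarith
    have e : (fun n => ((A₁ n - A₂ n + D : ℝ) : ℂ)) =
        (fun n => (A₁ n : ℂ)) - (fun n => (A₂ n : ℂ)) + (D : ℂ) • (1 : ℕ → ℂ) := by
      funext n
      simp
    have h1 : LSeriesSummable (1 : ℕ → ℂ) s := LSeriesSummable_one_iff.2 hs1
    have h3 : LSeriesSummable ((D : ℂ) • (1 : ℕ → ℂ)) s := h1.smul _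
    rw [e]
    refine ⟨((hsum₁ s hs).sub (hsum₂ s hs)).add h3, ?_⟩
    rw [LSeries_add ((hsum₁ s hs).sub (hsum₂ s hs)) h3, LSeries_smul, LSeries_one_eq_riemannZeta hs1,
      LSeries_sub (hsum₁ s hs) (hsum₂ s hs)]
  have hrel : ∀ s : ℂ, 3 / 2 < s.re → F₁ s = F₂ s * exp (W s +
      (s - 1) ^ 2 * LSeries (fun n => ((A₁ n - A₂ n + D : ℝ) : ℂ)) s) := by
    intro s hs
    rw [(hGsum s hs).2, hrel₁ s hs, hrel₂ s hs, ← Complex.exp_add]
    congr 1
    rw [hW]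
    ring
  obtain ⟨hall, -⟩ := Pool.Agent.H234R4.BSD.coreR (fun n => A₁ n - A₂ n + D) hG F₁ F₂ W hF₁.1 hF₂.1
    (F_ne_zero hF₁) (F_ne_zero hF₂) hWd (fun s hs => (hGsum s hs).1) hrel hreal
  have t1 := F_lead hc1 hc₁
  have t2 := F_lead hc2 hc₂
  have t3 := lam_lim.const_mul κ
  have t4 := ((t1.sub t2).add t3).eventually_lt_const (by linarith :
    Real.log ‖c₁‖ - Real.log ‖c₂‖ + κ * -K0 < Real.log ‖c₁‖ - Real.log ‖c₂‖ + κ * -K0 + δ / 16)
  obtain ⟨w, hw1, hw2, hw3, hw4, hw5, hw6⟩ := ((hK₁ (δ / 16) (by positivity)).and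
    ((hK₂ (δ / 16) (by positivity)).and ((zeta_small D (δ / 16) (by positivity)).and
    (t4.and ((lead_ne hc2 hc₂).and self_mem_nhdsWithin))))).exists
  have hw : (0 : ℝ) < w := hw6
  have hre : (1 : ℝ) < ((1 : ℂ) + w).re := by simp [hw]
  have h5 := hall (1 + w) hre
  set G : ℕ → ℝ := fun n => A₁ n - A₂ n + D with hGdef
  have h6 : Real.log ‖F₁ (1 + w)‖ - Real.log ‖F₂ (1 + w)‖ = (W (1 + w)).re +
      (((1 + w : ℂ) - 1) ^ 2 * LSeries (fun n => (G n : ℂ)) (1 + w)).re := by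
    rw [h5, norm_mul, Complex.norm_exp, Real.log_mul (norm_ne_zero_iff.2 hw5) (Real.exp_ne_zero _),
      Real.log_exp, add_re]
    ring
  have h7 : (((1 + w : ℂ) - 1) ^ 2 * LSeries (fun n => (G n : ℂ)) (1 + w)).re =
      (w ^ 2 * (LSeries (fun n => (G n : ℂ)) ((1 + w : ℝ) : ℂ)).re) := by
    have e1 : ((1 + w : ℂ) - 1) ^ 2 = ((w ^ 2 : ℝ) : ℂ) := by push_cast; ring
    have e2 : ((1 : ℂ) + w) = ((1 + w : ℝ) : ℂ) := by push_cast; rfl
    rw [e1, Complex.re_ofReal_mul, e2]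
  have h8 := re_LSeries_nonneg G hG (1 + w)
  have h9 : 0 ≤ w ^ 2 * (LSeries (fun n => (G n : ℂ)) ((1 + w : ℝ) : ℂ)).re := mul_nonneg (by positivity) h8
  have h11 : (W (1 + w)).re = (W₁ (1 + w)).re - (W₂ (1 + w)).re -
      ((w : ℂ) * ((w : ℂ) * (D * riemannZeta (1 + w)))).re := by
    rw [hW]
    simp only
    have e9 : ((1 : ℂ) + w - 1) * (((1 : ℂ) + w - 1) * (D * riemannZeta (1 + w))) =
      (w : ℂ) * ((w : ℂ) * (D * riemannZeta (1 + w))) := by ring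
    rw [e9]
    simp only [sub_re]
  have h14 : |((w : ℂ) * ((w : ℂ) * (D * riemannZeta (1 + w)))).re| ≤ δ / 16 :=
    (Complex.abs_re_le_norm _).trans hw3.le
  rw [h7, h11] at h6
  have g1 := abs_le.1 hw1
  have g2 := abs_le.1 hw2
  have g3 := abs_le.1 h14
  set y1 := (W₁ (1 + w)).re
  set y2 := (W₂ (1 + w)).re
  set y3 := ((w : ℂ) * ((w : ℂ) * (D * riemannZeta (1 + w)))).re
  set y4 := w ^ 2 * (LSeries (fun n => (G n : ℂ)) ((1 + w : ℝ) : ℂ)).re
  have e10 : Real.log ‖F₁ (1 + w)‖ - m₁ * Real.log w - (Real.log ‖F₂ (1 + w)‖ - m₂ * Real.log w) +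
      κ * (lam w + Real.log w) = Real.log ‖F₁ (1 + w)‖ - Real.log ‖F₂ (1 + w)‖ + κ * lam w := by
    rw [hκ]; ring
  rw [e10, h6] at hw4
  have e11 : κ * lam w = m₁ * lam w - m₂ * lam w := by rw [hκ]; ring
  rw [e11] at hw4
  have e12 : C = -(L - κ * K0) - δ / 2 := hC
  have e13 : κ * -K0 = -(κ * K0) := by ring
  rw [e13, ← hL] at hw4
  linarith [g1.1, g1.2, g2.1, g2.2, g3.1, g3.2]

end Pool.Agent.H930R3.BK
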