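import Pool.Agent.H930R3.BK.E

/-! The one-sided theorem with constants, for general Euler products of degree two. -/

set_option autoImplicit false

open Complex Filter Topology Finset

namespace Pool.Agent.H930R3.BK

open Pool.Agent.H438R3.BSD Pool.Agent.H341R2

section

variable (good : ℕ → Prop) [DecidablePred good] (α : ℕ → ℂ)

/-- the logarithm of the product over `p ≤ n`, with the square terms -/
noncomputable def LG (n : ℕ) : ℝ :=
  (∑ k ∈ Finset.Icc 1 n, if k.Prime then ell good α k else 0) +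
    ∑ k ∈ Finset.Icc 1 n, (uu good α k - sq good α k)

lemma PS_LG (ε κ C : ℝ) (n : ℕ) :
    PS C (mt good α ε κ 1) n = C + ε * (κ * SP n - LG good α n) := by
  unfold PS mt LG SP
  rw [Finset.sum_sub_distrib, ← Finset.mul_sum]
  have e : ∑ k ∈ Finset.Icc 1 n, mm good α ε κ k = ε * (κ * ∑ p ∈ (Finset.Icc 1 n).filter Nat.Prime, (1 : ℝ) / p -
      ∑ k ∈ Finset.Icc 1 n, if k.Prime then ell good α k else 0) := by
    rw [Finset.sum_filter, Finset.mul_sum, ← Finset.sum_sub_distrib, Finset.mul_sum]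
    refine Finset.sum_congr rfl fun p _ => ?_
    unfold mm
    split_ifs <;> ring
  rw [e]
  ring

variable {good α}

theorem one_side_gen (hg : ∀ p, good p → p.Prime)
    (ha : ∀ p, good p → ‖α p‖ = (p : ℝ) ^ (1 / 2 : ℝ)) {F : ℂ → ℂ} (hF : Differentiable ℂ F)
    (hprod : ∀ s : ℂ, 3 / 2 < s.re → HasProd (fun p : ℕ => if good p then
      ((1 - α p * (p : ℂ) ^ (-s)) * (1 - starRingEnd ℂ (α p) * (p : ℂ) ^ (-s)))⁻¹ else 1) (F s))
    (ε : ℝ) (hε : ε = 1 ∨ ε = -1)
    (m : ℕ) (c : ℂ) (hc0 : c ≠ 0)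
    (hc : Tendsto (fun s : ℂ => F s / (s - 1) ^ m) (𝓝[≠] 1) (𝓝 c))
    (hreal : ε = -1 → ∀ σ : ℝ, 1 < σ → F σ ≠ 0) (δ : ℝ) (hδ : 0 < δ) :
    ¬ (∀ᶠ n : ℕ in atTop, ε * (∑ k ∈ Finset.Icc 2 n,
      (Real.log ‖c‖ + LG good α k - m * (Real.eulerMascheroniConstant + Real.log (Real.log k))) / k) ≤
        -δ * Real.log n) := by
  intro h
  have hε1 : |ε| = 1 := by rcases hε with h | h <;> rw [h] <;> simp
  -- comparison with the sums of `1/p`
  have hS : ∀ᶠ n : ℕ in atTop, -(ε * (Real.log ‖c‖ - m * Real.eulerMascheroniConstant +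
      m * (SP n - Real.log (Real.log n)))) ≤ -(ε * (Real.log ‖c‖ - m * K0)) + δ / 4 := by
    have h1 := ((mertens_S.const_mul (m : ℝ)).const_add
      (Real.log ‖c‖ - m * Real.eulerMascheroniConstant)).const_mul (-ε)
    have e : -ε * (Real.log ‖c‖ - m * Real.eulerMascheroniConstant + m * (Real.eulerMascheroniConstant - K0)) =
      -(ε * (Real.log ‖c‖ - m * K0)) := by ring
    rw [e] at h1
    filter_upwards [h1.eventually_lt_const (by linarith :
      -(ε * (Real.log ‖c‖ - m * K0)) < -(ε * (Real.log ‖c‖ - m * K0)) + δ / 4)] with n hn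
    refine le_trans (le_of_eq ?_) hn.le
    unfold SP
    ring
  have hS2 := avg_le _ _ (δ / 4) (by positivity) hS
  set C : ℝ := - ε * (Real.log ‖c‖ - m * K0) - δ / 2 with hC
  set mtt := mt good α ε m 1 with hmtt
  -- the sums are bounded below
  have hlow : ∀ᶠ n : ℕ in atTop, -|C| ≤ AS C mtt n := by
    filter_upwards [h, hS2, eventually_ge_atTop 1] with n h1 h2 h3
    have hAS : AS C mtt n = C * ∑ k ∈ Finset.Icc 1 n, (1 : ℝ) / k + ∑ k ∈ Finset.Icc 2 n,
        ε * (m * SP k - LG good α k) / k := by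
      unfold AS
      rw [PS, zero_add, Icc_split h3, Finset.sum_insert (by simp), Finset.sum_insert (by simp)]
      have e1 : PS C mtt 1 = C := by
        rw [hmtt, PS_LG]
        have e2 : SP 1 = 0 := by
          unfold SP
          simp [Finset.filter_singleton, Nat.not_prime_one]
        have hu1 : uu good α 1 = 0 := uu_not hg ha Nat.not_prime_one
        have e3 : LG good α 1 = 0 := by
          unfold LG
          simp only [Finset.Icc_self, Finset.sum_singleton, if_neg Nat.not_prime_one, zero_add]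
          unfold sq
          have : Nat.sqrt 1 = 1 := by norm_num
          rw [this, hu1]
          simp
        rw [e2, e3]; ring
      rw [e1]
      have e4 : ∑ k ∈ Finset.Icc 2 n, PS C mtt k / k = ∑ k ∈ Finset.Icc 2 n,
          (C * (1 / (k : ℝ)) + ε * (m * SP k - LG good α k) / k) := by
        refine Finset.sum_congr rfl fun k _ => ?_
        rw [hmtt, PS_LG]
        ring
      rw [e4, Finset.sum_add_distrib, ← Finset.mul_sum]
      push_cast
      ring
    rw [hAS]
    have e5 : ∑ k ∈ Finset.Icc 2 n, ε * (m * SP k - LG good α k) / k =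
        -(ε * (∑ k ∈ Finset.Icc 2 n,
      (Real.log ‖c‖ + LG good α k - m * (Real.eulerMascheroniConstant + Real.log (Real.log k))) / k)) -
        ∑ k ∈ Finset.Icc 2 n, -(ε * (Real.log ‖c‖ - m * Real.eulerMascheroniConstant +
      m * (SP k - Real.log (Real.log k)))) / k := by
      rw [Finset.mul_sum, ← Finset.sum_neg_distrib, ← Finset.sum_sub_distrib]
      refine Finset.sum_congr rfl fun k _ => ?_
      ring
    rw [e5]
    have h4 := harm_bounds n h3
    have h5 : C * ∑ k ∈ Finset.Icc 1 n, (1 : ℝ) / k = C + C * Real.log n +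
        C * (∑ k ∈ Finset.Icc 2 n, (1 : ℝ) / k - Real.log n) := by
      rw [Icc_split h3, Finset.sum_insert (by simp)]
      push_cast
      ring
    have h6 : |C + C * (∑ k ∈ Finset.Icc 2 n, (1 : ℝ) / k - Real.log n)| ≤ |C| := by
      have e6 : C + C * (∑ k ∈ Finset.Icc 2 n, (1 : ℝ) / k - Real.log n) =
        C * (1 + (∑ k ∈ Finset.Icc 2 n, (1 : ℝ) / k - Real.log n)) := by ring
      rw [e6, abs_mul]
      have h7 : |1 + (∑ k ∈ Finset.Icc 2 n, (1 : ℝ) / k - Real.log n)| ≤ 1 := by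
        have h8 : ∑ k ∈ Finset.Icc 2 n, (1 : ℝ) / k ≤ Real.log n := harm_le n h3
        rw [abs_le] at h4 ⊢
        constructor <;> linarith [h4.1]
      calc |C| * _ ≤ |C| * 1 := mul_le_mul_of_nonneg_left h7 (abs_nonneg _)
        _ = _ := mul_one _
    have h9 := (abs_le.1 h6).1
    rw [h5]
    have h10 : C * Real.log n - (-δ) * Real.log n -
        (-(ε * (Real.log ‖c‖ - m * K0)) + δ / 4 + δ / 4) * Real.log n = 0 := by
      rw [hC]; ring
    linarith
  obtain ⟨N, hN⟩ := eventually_atTop.1 hlow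
  set D : ℝ := |C| + ∑ k ∈ Finset.range N, |AS C mtt k| with hD
  have hG : ∀ n, 0 ≤ AS C mtt n + D := by
    intro n
    rcases Nat.lt_or_ge n N with hn | hn
    · have h1 : |AS C mtt n| ≤ ∑ k ∈ Finset.range N, |AS C mtt k| :=
        Finset.single_le_sum (f := fun k => |AS C mtt k|) (fun k _ => abs_nonneg _) (Finset.mem_range.2 hn)
      have h2 := neg_abs_le (AS C mtt n)
      have h3 := abs_nonneg C
      linarith
    · have h1 := hN n hn
      have h2 : 0 ≤ ∑ k ∈ Finset.range N, |AS C mtt k| := Finset.sum_nonneg fun k _ => abs_nonneg _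
      linarith
  obtain ⟨-, hmain⟩ := main_sharp hg ha ε m 1 C D hε zero_le_one le_rfl hG F hF hprod hreal
  have h1 := hmain (δ / 8) (by positivity)
  have h2 := (F_lead hc0 hc).const_mul ε
  have h3 := (lam_lim.const_mul (m : ℝ)).const_mul ε
  have h4 := (h2.add h3).eventually_lt_const (by linarith :
    ε * Real.log ‖c‖ + ε * (m * -K0) < ε * Real.log ‖c‖ + ε * (m * -K0) + δ / 8)
  obtain ⟨w, hw1, hw2⟩ := (h1.and h4).exists
  have e7 : ε * (Real.log ‖F (1 + w)‖ - m * Real.log w) + ε * (m * (lam w + Real.log w)) =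
    ε * Real.log ‖F (1 + w)‖ + ε * (m * lam w) := by ring
  rw [e7] at hw2
  have e8 : C = - (ε * Real.log ‖c‖ + ε * (m * -K0)) - δ / 2 := by
    rw [hC]; ring
  have e9 : (1 - (1 : ℝ)) * Real.log 2 = 0 := by ring
  rw [e9] at hw1
  linarith

/-- sums over squares -/
lemma sum_sq (n : ℕ) : ∑ k ∈ Finset.Icc 1 n, sq good α k = ∑ p ∈ Finset.Icc 1 (Nat.sqrt n), uu good α p := by
  unfold sq
  rw [← Finset.sum_filter]
  refine Finset.sum_nbij' (fun k => Nat.sqrt k) (fun p => p * p) ?_ ?_ ?_ ?_ ?_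
  · intro k hk
    simp only [Finset.mem_filter, Finset.mem_Icc] at hk ⊢
    have h2 : 1 ≤ Nat.sqrt k := by
      by_contra hcon
      have : Nat.sqrt k = 0 := by omega
      rw [this] at hk
      omega
    exact ⟨h2, Nat.sqrt_le_sqrt hk.1.2⟩
  · intro p hp
    simp only [Finset.mem_filter, Finset.mem_Icc] at hp ⊢
    refine ⟨⟨Nat.mul_pos hp.1 hp.1, ?_⟩, ?_⟩
    · exact (Nat.mul_le_mul hp.2 hp.2).trans (Nat.sqrt_le n)
    · rw [Nat.sqrt_eq]
  · intro k hk
    simp only [Finset.mem_filter] at hk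
    exact hk.2
  · intro p hp
    exact Nat.sqrt_eq p
  · intro k hk
    rfl

end

end Pool.Agent.H930R3.BK
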