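import Pool.Agent.H930R3.BK.X1
import Pool.Agent.H234R4.Dir.Final

/-! Quadratic Dirichlet L-functions at the central point, with the exact constant. -/

set_option autoImplicit false

open Complex Filter Topology Finset

namespace Pool.Agent.H930R3.BK.Chi

open Pool.Agent.H438R3.BSD Pool.Agent.H341R2 Pool.Agent.H234R4.Dir
open Pool.Agent.H438R3.BSD.Gen (LLc ellc)

variable {N : ℕ} [NeZero N] (χ : DirichletCharacter ℂ N)

/-- the primes not dividing the modulus -/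
def gd (p : ℕ) : Prop := p.Prime ∧ ps χ p ≠ 0

/-- `χ(p) √p` -/
noncomputable def al (p : ℕ) : ℂ := ((ps χ p * (p : ℝ) ^ (1 / 2 : ℝ) : ℝ) : ℂ)

lemma ps_sq (h2 : χ ^ 2 = 1) {p : ℕ} (hp : gd χ p) : ps χ p ^ 2 = 1 := by
  rcases val χ h2 p with h | h | h
  · exact absurd h.1 hp.2
  · rw [h.1]; norm_num
  · rw [h.1]; norm_num

lemma al_nm (h2 : χ ^ 2 = 1) {p : ℕ} (hp : gd χ p) : ‖al χ p‖ = (p : ℝ) ^ (1 / 2 : ℝ) := by
  unfold al
  rw [Complex.norm_real, Real.norm_eq_abs, abs_mul]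
  have h3 : |ps χ p| = 1 := by
    rcases val χ h2 p with h | h | h
    · exact absurd h.1 hp.2
    · rw [h.1]; norm_num
    · rw [h.1]; norm_num
  rw [h3, one_mul, abs_of_nonneg (by positivity)]

lemma conj_al (p : ℕ) : starRingEnd ℂ (al χ p) = al χ p := by
  unfold al
  rw [Complex.conj_ofReal]

lemma al_term (h2 : χ ^ 2 = 1) {p : ℕ} (hp : p.Prime) (s : ℂ) :
    al χ p * (p : ℂ) ^ (-s) = χ (p : ZMod N) * (p : ℂ) ^ (-(s - 1 / 2)) := by
  have hpc : (p : ℂ) ≠ 0 := by exact_mod_cast hp.ne_zero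
  have hp0 : (0 : ℝ) ≤ p := by positivity
  unfold al
  push_cast
  rw [ps_cast χ h2, Complex.ofReal_cpow hp0, mul_assoc]
  congr 1
  push_cast
  rw [← Complex.cpow_add _ _ hpc]
  congr 1
  ring

open Classical in
lemma prod_sq (h2 : χ ^ 2 = 1) (s : ℂ) (hs : 3 / 2 < s.re) :
    HasProd (fun p : ℕ => if gd χ p then
      ((1 - al χ p * (p : ℂ) ^ (-s)) * (1 - starRingEnd ℂ (al χ p) * (p : ℂ) ^ (-s)))⁻¹ else 1)
      ((FD χ s) ^ 2) := by
  have h1 := (prodD χ h2 s hs).mul (prodD χ h2 s hs)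
  rw [pow_two]
  convert h1 using 1
  funext p
  by_cases hp : p.Prime
  · rw [LL_eq χ h2 hp (by linarith), conj_al, al_term χ h2 hp]
    by_cases hg : ps χ p = 0
    · have hng : ¬ gd χ p := fun h => h.2 hg
      have h3 : χ (p : ZMod N) = 0 := by rw [← ps_cast χ h2, hg]; simp
      rw [if_neg hng, h3]
      simp
    · rw [if_pos ⟨hp, hg⟩, mul_inv]
  · have hng : ¬ gd χ p := fun h => hp h.1
    rw [if_neg hng]
    unfold LLc
    rw [if_neg hp, Complex.exp_zero, mul_one]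

/-- the partial Euler product `∏_{p ≤ x} (1 - χ(p)/√p)⁻¹` at the central point -/
noncomputable def PP (x : ℕ) : ℝ :=
  ∏ p ∈ (Finset.Icc 1 x).filter Nat.Prime, (1 - (χ (p : ZMod N)).re / Real.sqrt p)⁻¹

lemma ps_div (p : ℕ) : (χ (p : ZMod N)).re / Real.sqrt p = ps χ p * (p : ℝ) ^ (-(1 / 2) : ℝ) := by
  unfold ps
  rw [Real.rpow_neg (by positivity), ← Real.sqrt_eq_rpow, div_eq_mul_inv]

lemma fac_pos (h2 : χ ^ 2 = 1) {p : ℕ} (hp : p.Prime) : 0 < 1 - (χ (p : ZMod N)).re / Real.sqrt p := by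
  have h1 := (ell_eq χ h2 hp).2
  rw [ps_div]
  have := le_abs_self (ps χ p * (p : ℝ) ^ (-(1 / 2) : ℝ))
  linarith

lemma PP_pos (h2 : χ ^ 2 = 1) (x : ℕ) : 0 < PP χ x :=
  Finset.prod_pos fun p hp => inv_pos.2 (fac_pos χ h2 (Finset.mem_filter.1 hp).2)

open Classical in
lemma ell_al (h2 : χ ^ 2 = 1) {p : ℕ} (hp : p.Prime) :
    ell (gd χ) (al χ) p = 2 * Real.log (1 - (χ (p : ZMod N)).re / Real.sqrt p) := by
  have hp0 : (0 : ℝ) < p := by exact_mod_cast hp.pos
  unfold ell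
  by_cases hg : ps χ p = 0
  · have hng : ¬ gd χ p := fun h => h.2 hg
    rw [if_neg hng]
    have : (χ (p : ZMod N)).re = 0 := hg
    rw [this]; simp
  · rw [if_pos ⟨hp, hg⟩]
    congr 2
    have e : (1 : ℂ) - al χ p / p = ((1 - (χ (p : ZMod N)).re / Real.sqrt p : ℝ) : ℂ) := by
      rw [ps_div]
      unfold al
      push_cast
      have h3 : (((p : ℝ) ^ (1 / 2 : ℝ) : ℝ) : ℂ) / p = (((p : ℝ) ^ (-(1 / 2) : ℝ) : ℝ) : ℂ) := by
        have h4 : (p : ℝ) ^ (1 / 2 : ℝ) / p = (p : ℝ) ^ (-(1 / 2) : ℝ) := by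
          nth_rewrite 2 [← Real.rpow_one (p : ℝ)]
          rw [← Real.rpow_sub hp0]; norm_num
        exact_mod_cast h4
      rw [mul_div_assoc, h3]
    rw [e, Complex.norm_real, Real.norm_eq_abs, abs_of_pos (fac_pos χ h2 hp)]

lemma log_PP (h2 : χ ^ 2 = 1) (x : ℕ) : Real.log (PP χ x) =
    -∑ p ∈ (Finset.Icc 1 x).filter Nat.Prime, Real.log (1 - (χ (p : ZMod N)).re / Real.sqrt p) := by
  unfold PP
  rw [Real.log_prod fun p hp => (inv_pos.2 (fac_pos χ h2 (Finset.mem_filter.1 hp).2)).ne',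
    ← Finset.sum_neg_distrib]
  exact Finset.sum_congr rfl fun p _ => Real.log_inv _

open Classical in
/-- the square terms -/
noncomputable def UD (n : ℕ) : ℝ :=
  ∑ k ∈ Finset.Icc 1 n, (uu (gd χ) (al χ) k - sq (gd χ) (al χ) k)

open Classical in
lemma LG_eq (h2 : χ ^ 2 = 1) (n : ℕ) : LG (gd χ) (al χ) n = -2 * Real.log (PP χ n) + UD χ n := by
  unfold LG UD
  rw [log_PP χ h2]
  congr 1
  rw [← Finset.sum_filter, ← Finset.sum_neg_distrib, Finset.mul_sum]
  refine Finset.sum_congr rfl fun p hp => ?_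
  rw [ell_al χ h2 (Finset.mem_filter.1 hp).2]
  ring

open Classical in
lemma uu_al (h2 : χ ^ 2 = 1) (p : ℕ) : uu (gd χ) (al χ) p = if gd χ p then (1 : ℝ) / p else 0 := by
  unfold uu
  split_ifs with h
  · have hp0 : (0 : ℝ) < p := by exact_mod_cast h.1.pos
    have e : (al χ p) ^ 2 = ((p : ℝ) : ℂ) := by
      unfold al
      rw [← Complex.ofReal_pow]
      congr 1
      rw [mul_pow, ps_sq χ h2 h, one_mul, ← Real.rpow_natCast, ← Real.rpow_mul hp0.le]
      norm_num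
    rw [e, Complex.ofReal_re]
    field_simp
  · rfl

open Classical in
/-- the sums of `1/p` over the primes dividing the modulus -/
lemma sum_uu_al (h2 : χ ^ 2 = 1) : ∃ B : ℝ, ∀ n : ℕ, N ≤ n →
    ∑ k ∈ Finset.Icc 1 n, uu (gd χ) (al χ) k = SP n - B := by
  refine ⟨∑ p ∈ (Finset.Icc 1 N).filter (fun p => p.Prime ∧ ps χ p = 0), (1 : ℝ) / p, fun n hn => ?_⟩
  have h3 : ∑ k ∈ Finset.Icc 1 n, uu (gd χ) (al χ) k +
      ∑ p ∈ (Finset.Icc 1 n).filter (fun p => p.Prime ∧ ps χ p = 0), (1 : ℝ) / p = SP n := by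
    unfold SP
    rw [Finset.sum_filter, Finset.sum_filter, ← Finset.sum_add_distrib]
    refine Finset.sum_congr rfl fun p _ => ?_
    rw [uu_al χ h2]
    unfold gd
    by_cases hp : p.Prime
    · by_cases hg : ps χ p = 0
      · simp [hp, hg]
      · simp [hp, hg]
    · simp [hp]
  have h4 : (Finset.Icc 1 n).filter (fun p => p.Prime ∧ ps χ p = 0) =
      (Finset.Icc 1 N).filter (fun p => p.Prime ∧ ps χ p = 0) := by
    ext p
    simp only [Finset.mem_filter, Finset.mem_Icc]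
    constructor
    · rintro ⟨⟨h5, h6⟩, h7, h8⟩
      refine ⟨⟨h5, ?_⟩, h7, h8⟩
      have h9 : ¬ IsUnit (p : ZMod N) := by
        rcases val χ h2 p with h | h | h
        · exact h.2.2
        · rw [h.1] at h8; norm_num at h8
        · rw [h.1] at h8; norm_num at h8
      have h10 : ¬ Nat.Coprime p N := fun h => h9 ((ZMod.isUnit_iff_coprime p N).2 h)
      have h11 : p ∣ N := by
        by_contra hcon
        exact h10 ((Nat.Prime.coprime_iff_not_dvd h7).2 hcon)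
      exact Nat.le_of_dvd (NeZero.pos N) h11
    · rintro ⟨⟨h5, h6⟩, h7, h8⟩
      exact ⟨⟨h5, h6.trans hn⟩, h7, h8⟩
  rw [← h4]
  linarith

lemma sqrt_tendsto : Tendsto (fun n : ℕ => Nat.sqrt n) atTop atTop := by
  refine tendsto_atTop_atTop.2 fun b => ⟨b * b, fun n hn => ?_⟩
  exact Nat.le_sqrt.2 hn

lemma loglog_sqrt : Tendsto (fun n : ℕ => Real.log (Real.log n) - Real.log (Real.log (Nat.sqrt n : ℕ)))
    atTop (𝓝 (Real.log 2)) := by
  have hs : Tendsto (fun n : ℕ => Real.log ((Nat.sqrt n : ℕ) : ℝ)) atTop atTop :=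
    Real.tendsto_log_atTop.comp (tendsto_natCast_atTop_atTop.comp sqrt_tendsto)
  have h1 : Tendsto (fun n : ℕ => Real.log n / Real.log ((Nat.sqrt n : ℕ) : ℝ)) atTop (𝓝 2) := by
    have hup : Tendsto (fun n : ℕ => 2 + 2 * Real.log 2 / Real.log ((Nat.sqrt n : ℕ) : ℝ)) atTop (𝓝 2) := by
      have := (hs.const_div_atTop (2 * Real.log 2)).const_add 2
      simpa using this
    refine tendsto_of_tendsto_of_tendsto_of_le_of_le' tendsto_const_nhds hup ?_ ?_
    · filter_upwards [hs.eventually_gt_atTop 0, eventually_ge_atTop 1] with n h2 h3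
      rw [le_div_iff₀ h2]
      have h4 : Real.log (((Nat.sqrt n : ℕ) : ℝ) ^ 2) ≤ Real.log n := by
        have h5 : 1 ≤ Nat.sqrt n := Nat.le_sqrt.2 (by omega)
        apply Real.log_le_log
        · have : (0 : ℝ) < ((Nat.sqrt n : ℕ) : ℝ) := by exact_mod_cast h5
          positivity
        · exact_mod_cast Nat.sqrt_le' n
      rw [Real.log_pow] at h4
      exact_mod_cast h4
    · filter_upwards [hs.eventually_gt_atTop 0, eventually_ge_atTop 1] with n h2 h3
      have h5 : 1 ≤ Nat.sqrt n := Nat.le_sqrt.2 (by omega)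
      have h5r : (1 : ℝ) ≤ ((Nat.sqrt n : ℕ) : ℝ) := by exact_mod_cast h5
      have hn0 : (0 : ℝ) < n := by exact_mod_cast h3
      have h4 : Real.log n ≤ Real.log ((2 * ((Nat.sqrt n : ℕ) : ℝ)) ^ 2) := by
        apply Real.log_le_log hn0
        have h6 : (n : ℝ) < (((Nat.sqrt n : ℕ) : ℝ) + 1) ^ 2 := by exact_mod_cast Nat.lt_succ_sqrt' n
        nlinarith
      rw [Real.log_pow, Real.log_mul (by norm_num) (by linarith)] at h4
      rw [div_le_iff₀ h2, add_mul, div_mul_cancel₀ _ h2.ne']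
      push_cast at h4
      linarith
  have h2 := h1.log (by norm_num : (2 : ℝ) ≠ 0)
  refine h2.congr' ?_
  filter_upwards [hs.eventually_gt_atTop 0, eventually_ge_atTop 2] with n h3 h4
  have h5 : 0 < Real.log (n : ℝ) := Real.log_pos (by exact_mod_cast (by omega : 1 < n))
  rw [Real.log_div h5.ne' h3.ne']

open Classical in
lemma UD_tendsto (h2 : χ ^ 2 = 1) : Tendsto (UD χ) atTop (𝓝 (Real.log 2)) := by
  obtain ⟨B, hB⟩ := sum_uu_al χ h2
  have m1 : Tendsto (fun n : ℕ => SP n - Real.log (Real.log n)) atTop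
      (𝓝 (Real.eulerMascheroniConstant - K0)) := mertens_S
  have m2 : Tendsto (fun n : ℕ => SP (Nat.sqrt n) - Real.log (Real.log (Nat.sqrt n : ℕ))) atTop
      (𝓝 (Real.eulerMascheroniConstant - K0)) := m1.comp sqrt_tendsto
  have m3 := (m1.sub m2).add loglog_sqrt
  rw [sub_self, zero_add] at m3
  refine m3.congr' ?_
  filter_upwards [eventually_ge_atTop N, sqrt_tendsto.eventually_ge_atTop N] with n h3 h4
  unfold UD
  rw [Finset.sum_sub_distrib, sum_sq, hB n h3, hB _ h4]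
  ring

end Pool.Agent.H930R3.BK.Chi
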