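import Pool.Agent.H930R3.BK.X2

/-! The one-sided theorem for the partial Euler products at the central point. -/

set_option autoImplicit false

open Complex Filter Topology Finset

namespace Pool.Agent.H930R3.BK.Chi

open Pool.Agent.H438R3.BSD Pool.Agent.H341R2 Pool.Agent.H234R4.Dir
open Pool.Agent.H438R3.BSD.Gen (LLc ellc)

variable {N : ℕ} [NeZero N] (χ : DirichletCharacter ℂ N)

/-- `P(x) (e ^ γ log x) ^ m / (√2 c)` -/
noncomputable def NP (m : ℕ) (c : ℝ) (x : ℕ) : ℝ :=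
  PP χ x * (Real.exp Real.eulerMascheroniConstant * Real.log x) ^ m / (Real.sqrt 2 * c)

/-- the logarithmic mean of `log NP(n)` over `2 ≤ n ≤ x` -/
noncomputable def NL (m : ℕ) (c : ℝ) (x : ℕ) : ℝ :=
  (∑ n ∈ Finset.Icc 2 x, Real.log (NP χ m c n) / n) / Real.log x

lemma NP_pos (h2 : χ ^ 2 = 1) (m : ℕ) {c : ℝ} (hc : 0 < c) {x : ℕ} (hx : 2 ≤ x) :
    0 < NP χ m c x := by
  have h1 : 0 < Real.log x := Real.log_pos (by exact_mod_cast (by omega : 1 < x))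
  have h3 := PP_pos χ h2 x
  unfold NP
  positivity

lemma log_NP (h2 : χ ^ 2 = 1) (m : ℕ) {c : ℝ} (hc : 0 < c) {x : ℕ} (hx : 2 ≤ x) :
    Real.log (NP χ m c x) = Real.log (PP χ x) +
      m * (Real.eulerMascheroniConstant + Real.log (Real.log x)) - Real.log 2 / 2 - Real.log c := by
  have h1 : 0 < Real.log x := Real.log_pos (by exact_mod_cast (by omega : 1 < x))
  have h3 := PP_pos χ h2 x
  unfold NP
  rw [Real.log_div (by positivity) (by positivity), Real.log_mul h3.ne' (by positivity),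
    Real.log_pow, Real.log_mul (by positivity) h1.ne', Real.log_exp,
    Real.log_mul (by positivity) hc.ne', Real.log_sqrt (by norm_num)]
  ring

lemma shift_lead {m : ℕ} {c : ℂ}
    (hc : Tendsto (fun s : ℂ => χ.LFunction s / (s - 1 / 2) ^ m) (𝓝[≠] (1 / 2)) (𝓝 c)) :
    Tendsto (fun s : ℂ => (FD χ s) ^ 2 / (s - 1) ^ (2 * m)) (𝓝[≠] 1) (𝓝 (c ^ 2)) := by
  have h1 : Tendsto (fun s : ℂ => s - 1 / 2) (𝓝[≠] 1) (𝓝[≠] (1 / 2)) := by
    rw [tendsto_nhdsWithin_iff]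
    constructor
    · have : ContinuousAt (fun s : ℂ => s - 1 / 2) 1 := by fun_prop
      have h3 := this.tendsto
      have e : (1 : ℂ) - 1 / 2 = 1 / 2 := by norm_num
      rw [e] at h3
      exact h3.mono_left nhdsWithin_le_nhds
    · filter_upwards [self_mem_nhdsWithin] with s hs
      simp only [Set.mem_compl_iff, Set.mem_singleton_iff] at hs ⊢
      intro h
      apply hs
      linear_combination h
  have h3 := (hc.comp h1).pow 2
  refine h3.congr fun s => ?_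
  simp only [Function.comp_apply]
  unfold FD
  have e : s - 1 / 2 - 1 / 2 = s - 1 := by ring
  rw [e, div_pow, pow_mul, ← pow_mul, ← pow_mul, mul_comm m 2]

open Classical in
theorem sides (h1 : χ ≠ 1) (h2 : χ ^ 2 = 1) (ε : ℝ) (hε : ε = 1 ∨ ε = -1) (m : ℕ) (c : ℂ)
    (hc0 : c ≠ 0)
    (hc : Tendsto (fun s : ℂ => χ.LFunction s / (s - 1 / 2) ^ m) (𝓝[≠] (1 / 2)) (𝓝 c))
    (hreal : ε = -1 → ∀ σ : ℝ, 1 / 2 < σ → σ < 1 → χ.LFunction σ ≠ 0) (δ : ℝ) (hδ : 0 < δ) :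
    ¬ (∀ᶠ n : ℕ in atTop, δ * Real.log n ≤ ε * ∑ k ∈ Finset.Icc 2 n, Real.log (NP χ m ‖c‖ k) / k) := by
  intro h
  have hcn : 0 < ‖c‖ := norm_pos_iff.2 hc0
  have hε1 : ε * ε = 1 := by rcases hε with h | h <;> rw [h] <;> norm_num
  have hU := ((UD_tendsto χ h2).sub_const (Real.log 2)).const_mul ε
  rw [sub_self, mul_zero] at hU
  have hU2 := avg_le _ _ (δ / 4) (by positivity)
    (hU.eventually_le_const (by positivity : (0 : ℝ) < δ / 4))
  refine one_side_gen (good := gd χ) (α := al χ) (fun p hp => hp.1) (fun p hp => al_nm χ h2 hp)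
    (F := fun s => (FD χ s) ^ 2) ((FD_diff χ h1).pow 2) (fun s hs => prod_sq χ h2 s hs) ε hε (2 * m) (c ^ 2)
    (pow_ne_zero _ hc0) (shift_lead χ hc) ?_ (δ := δ) hδ ?_
  · intro hε σ hσ
    apply pow_ne_zero
    unfold FD
    rcases lt_or_ge (σ - 1 / 2) 1 with h3 | h3
    · have := hreal hε (σ - 1 / 2) (by linarith) h3
      push_cast at this
      exact this
    · apply DirichletCharacter.LFunction_ne_zero_of_one_le_re χ (Or.inl h1)
      simp
      linarith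
  · filter_upwards [h, hU2, eventually_ge_atTop 1] with n h3 h4 h5
    have e : ε * ∑ k ∈ Finset.Icc 2 n, (Real.log ‖c ^ 2‖ + LG (gd χ) (al χ) k -
        ((2 * m : ℕ) : ℝ) * (Real.eulerMascheroniConstant + Real.log (Real.log k))) / k =
        -2 * (ε * ∑ k ∈ Finset.Icc 2 n, Real.log (NP χ m ‖c‖ k) / k) +
        ∑ k ∈ Finset.Icc 2 n, (ε * (UD χ k - Real.log 2)) / k := by
      rw [Finset.mul_sum, Finset.mul_sum, Finset.mul_sum, ← Finset.sum_add_distrib]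
      refine Finset.sum_congr rfl fun k hk => ?_
      rw [log_NP χ h2 m hcn (Finset.mem_Icc.1 hk).1, LG_eq χ h2, norm_pow, Real.log_pow]
      push_cast
      ring
    rw [e]
    have hlog : 0 ≤ Real.log n := Real.log_natCast_nonneg n
    nlinarith

open Classical in
theorem central_side (h1 : χ ≠ 1) (h2 : χ ^ 2 = 1) (ε : ℝ) (hε : ε = 1 ∨ ε = -1) (m : ℕ) (c : ℂ)
    (hc0 : c ≠ 0)
    (hc : Tendsto (fun s : ℂ => χ.LFunction s / (s - 1 / 2) ^ m) (𝓝[≠] (1 / 2)) (𝓝 c))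
    (hreal : ε = -1 → ∀ σ : ℝ, 1 / 2 < σ → σ < 1 → χ.LFunction σ ≠ 0) (δ : ℝ) (hδ : 0 < δ) :
    (∃ᶠ x : ℕ in atTop, ε * NL χ m ‖c‖ x < δ) ∧
    ∃ᶠ x : ℕ in atTop, ε * Real.log (NP χ m ‖c‖ x) < δ := by
  have hlog : ∀ᶠ x : ℕ in atTop, (1 : ℝ) < Real.log x :=
    (Real.tendsto_log_atTop.comp tendsto_natCast_atTop_atTop).eventually_gt_atTop _
  constructor
  · intro hcon
    refine sides χ h1 h2 ε hε m c hc0 hc hreal δ hδ ?_
    filter_upwards [hcon, hlog] with n h3 h4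
    push Not at h3
    unfold NL at h3
    rwa [← mul_div_assoc, le_div_iff₀ (by linarith)] at h3
  · intro hcon
    refine sides χ h1 h2 ε hε m c hc0 hc hreal (δ / 2) (by positivity) ?_
    have h3 : ∀ᶠ x : ℕ in atTop, -(ε * Real.log (NP χ m ‖c‖ x)) ≤ -δ := by
      filter_upwards [hcon] with n h4
      linarith [not_lt.1 h4]
    filter_upwards [avg_le _ _ (δ / 2) (by positivity) h3] with n h4
    have e : ∑ k ∈ Finset.Icc 2 n, -(ε * Real.log (NP χ m ‖c‖ k)) / k =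
        -(ε * ∑ k ∈ Finset.Icc 2 n, Real.log (NP χ m ‖c‖ k) / k) := by
      rw [Finset.mul_sum, ← Finset.sum_neg_distrib]
      exact Finset.sum_congr rfl fun k _ => by ring
    rw [e] at h4
    linarith

lemma exists_lead_half (h1 : χ ≠ 1) (h2 : χ ^ 2 = 1) : ∃ (m : ℕ) (c : ℂ),
    analyticOrderAt χ.LFunction (1 / 2) = m ∧ c ≠ 0 ∧
    Tendsto (fun s : ℂ => χ.LFunction s / (s - 1 / 2) ^ m) (𝓝[≠] (1 / 2)) (𝓝 c) := by
  obtain ⟨m, hm, -⟩ := Pool.Agent.H234R4.Dir.main χ h1 h2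
  have han : AnalyticAt ℂ χ.LFunction (1 / 2) :=
    (DirichletCharacter.differentiable_LFunction h1).analyticAt _
  obtain ⟨g, hg, hg0, hgF⟩ := (han.analyticOrderAt_eq_natCast).1 hm
  refine ⟨m, g (1 / 2), hm, hg0, ?_⟩
  have h3 : Tendsto g (𝓝[≠] (1 / 2)) (𝓝 (g (1 / 2))) :=
    hg.continuousAt.tendsto.mono_left nhdsWithin_le_nhds
  refine h3.congr' ?_
  filter_upwards [hgF.filter_mono nhdsWithin_le_nhds, self_mem_nhdsWithin] with s h4 h5
  have h6 : (s - 1 / 2) ^ m ≠ 0 := pow_ne_zero _ (sub_ne_zero.2 h5)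
  rw [h4, smul_eq_mul, mul_div_cancel_left₀ _ h6]

/-- The final theorem. -/
theorem central_main (h1 : χ ≠ 1) (h2 : χ ^ 2 = 1) : ∃ (m : ℕ) (c : ℂ),
    analyticOrderAt χ.LFunction (1 / 2) = m ∧ c ≠ 0 ∧
    Tendsto (fun s : ℂ => χ.LFunction s / (s - 1 / 2) ^ m) (𝓝[≠] (1 / 2)) (𝓝 c) ∧
    ∀ δ : ℝ, 0 < δ →
      ((∃ᶠ x : ℕ in atTop, NL χ m ‖c‖ x < δ) ∧ ∃ᶠ x : ℕ in atTop, NP χ m ‖c‖ x < 1 + δ) ∧
      ((∀ σ : ℝ, 1 / 2 < σ → σ < 1 → χ.LFunction σ ≠ 0) →
        (∃ᶠ x : ℕ in atTop, -δ < NL χ m ‖c‖ x) ∧ ∃ᶠ x : ℕ in atTop, 1 - δ < NP χ m ‖c‖ x) := by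
  obtain ⟨m, c, hm, hc0, hc⟩ := exists_lead_half χ h1 h2
  have hcn : 0 < ‖c‖ := norm_pos_iff.2 hc0
  refine ⟨m, c, hm, hc0, hc, fun δ hδ => ⟨⟨?_, ?_⟩, fun hreal => ⟨?_, ?_⟩⟩⟩
  · have h3 := (central_side χ h1 h2 1 (Or.inl rfl) m c hc0 hc (by norm_num) δ hδ).1
    simpa using h3
  · have h4 : 0 < Real.log (1 + δ) := Real.log_pos (by linarith)
    have h3 := (central_side χ h1 h2 1 (Or.inl rfl) m c hc0 hc (by norm_num) _ h4).2
    refine (h3.and_eventually (eventually_ge_atTop 2)).mono fun x hx => ?_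
    obtain ⟨h5, h6⟩ := hx
    rw [one_mul] at h5
    exact (Real.log_lt_log_iff (NP_pos χ h2 m hcn h6) (by linarith)).1 h5
  · have h3 := (central_side χ h1 h2 (-1) (Or.inr rfl) m c hc0 hc (fun _ => hreal) δ hδ).1
    refine h3.mono fun x hx => ?_
    linarith
  · rcases le_or_gt 1 δ with h4 | h4
    · have h3 : ∀ᶠ x : ℕ in atTop, 1 - δ < NP χ m ‖c‖ x := by
        filter_upwards [eventually_ge_atTop 2] with x hx
        have := NP_pos χ h2 m hcn hx
        linarith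
      exact h3.frequently
    · have h5 : 0 < -Real.log (1 - δ) := by
        have := Real.log_neg (by linarith : 0 < 1 - δ) (by linarith)
        linarith
      have h3 := (central_side χ h1 h2 (-1) (Or.inr rfl) m c hc0 hc (fun _ => hreal) _ h5).2
      refine (h3.and_eventually (eventually_ge_atTop 2)).mono fun x hx => ?_
      obtain ⟨h6, h7⟩ := hx
      rw [← Real.log_lt_log_iff (by linarith) (NP_pos χ h2 m hcn h7)]
      linarith

end Pool.Agent.H930R3.BK.Chi
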