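import Pool.Agent.H930R3.BK.X3

/-! Lower bounds for the central value. -/

set_option autoImplicit false

open Complex Filter Topology Finset

namespace Pool.Agent.H930R3.BK.Chi

open Pool.Agent.H438R3.BSD Pool.Agent.H341R2 Pool.Agent.H234R4.Dir
open Pool.Agent.H438R3.BSD.Gen (LLc ellc lE)

variable {N : ℕ} [NeZero N] (χ : DirichletCharacter ℂ N)

/-- the logarithmic mean of `log P(n)` over `2 ≤ n ≤ x` -/
noncomputable def PL (x : ℕ) : ℝ := (∑ n ∈ Finset.Icc 2 x, Real.log (PP χ n) / n) / Real.log x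

lemma lE_PP (h2 : χ ^ 2 = 1) (n : ℕ) : lE (ellc Nat.Prime (cD χ)) n = -Real.log (PP χ n) := by
  rw [log_PP χ h2, neg_neg, Finset.sum_filter]
  unfold lE
  refine Finset.sum_congr rfl fun p _ => ?_
  by_cases hp : p.Prime
  · rw [if_pos hp, (ell_eq χ h2 hp).1, ps_div]
  · rw [if_neg hp]
    unfold ellc
    rw [if_neg hp]

/-- a lower bound for the logarithmic means of the partial products settles the real zeros, and bounds the central
value from below -/
theorem lower_mean (h1 : χ ≠ 1) (h2 : χ ^ 2 = 1) (A : ℝ) (hA : 0 < A)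
    (h : ∀ η : ℝ, 0 < η → ∀ᶠ x : ℕ in atTop, Real.log A - η ≤ PL χ x) :
    (∀ ρ : ℂ, 1 / 2 < ρ.re → χ.LFunction ρ ≠ 0) ∧
    (∀ s : ℝ, 0 < s → (χ.LFunction (s : ℂ)).im = 0 ∧ 0 < (χ.LFunction (s : ℂ)).re) ∧
    A ≤ Real.sqrt 2 * (χ.LFunction (1 / 2)).re := by
  have hlog : ∀ᶠ x : ℕ in atTop, (1 : ℝ) < Real.log x :=
    (Real.tendsto_log_atTop.comp tendsto_natCast_atTop_atTop).eventually_gt_atTop _
  obtain ⟨B, hB⟩ := g_near χ h2
  obtain ⟨m0, hm0, -, -, hC⟩ := Pool.Agent.H234R4.Dir.main χ h1 h2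
  have hlow : ∀ᶠ x : ℕ in atTop, Real.log A - 1 - (|B| + 1) ≤ MD χ (1 / 2) x := by
    have h3 : ∀ᶠ n : ℕ in atTop, -((SD χ n + (1 / 2) * Real.log (Real.log n)) - Real.log (PP χ n)) ≤ |B| := by
      refine Eventually.of_forall fun n => ?_
      have h4 := hB n
      rw [lE_PP χ h2] at h4
      have h5 := (abs_le.1 h4).2
      have h6 := le_abs_self B
      linarith
    filter_upwards [avg_le _ _ 1 one_pos h3, h 1 one_pos, hlog] with n h4 h5 h6
    unfold PL at h5
    unfold MD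
    rw [le_div_iff₀ (by linarith)] at h5 ⊢
    have e : ∑ k ∈ Finset.Icc 2 n, -((SD χ k + (1 / 2) * Real.log (Real.log k)) - Real.log (PP χ k)) / k =
        ∑ k ∈ Finset.Icc 2 n, Real.log (PP χ k) / k -
        ∑ k ∈ Finset.Icc 2 n, (SD χ k + (1 / 2) * Real.log (Real.log k)) / k := by
      rw [← Finset.sum_sub_distrib]
      exact Finset.sum_congr rfl fun k _ => by ring
    rw [e] at h4
    nlinarith
  obtain ⟨hz, hpos⟩ := hC ⟨1 / 2, by norm_num, _, hlow⟩
  refine ⟨hz, hpos, ?_⟩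
  have hhalf := hpos (1 / 2) (by norm_num)
  have e0 : (((1 / 2 : ℝ)) : ℂ) = 1 / 2 := by push_cast; norm_num
  rw [e0] at hhalf
  have hLne : χ.LFunction (1 / 2) ≠ 0 := by
    intro h0
    rw [h0] at hhalf
    simp at hhalf
  have hnorm : ‖χ.LFunction (1 / 2)‖ = (χ.LFunction (1 / 2)).re := by
    have e1 : χ.LFunction (1 / 2) = (((χ.LFunction (1 / 2)).re : ℝ) : ℂ) := by
      apply Complex.ext
      · simp
      · rw [hhalf.1]; simp
    rw [e1, Complex.norm_real, Real.norm_eq_abs, Complex.ofReal_re, abs_of_pos hhalf.2]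
  have hcont : Tendsto (fun s : ℂ => χ.LFunction s / (s - 1 / 2) ^ 0) (𝓝[≠] (1 / 2))
      (𝓝 (χ.LFunction (1 / 2))) := by
    simp only [pow_zero, div_one]
    exact (DirichletCharacter.differentiable_LFunction h1).continuous.continuousAt.tendsto.mono_left
      nhdsWithin_le_nhds
  set c := χ.LFunction (1 / 2) with hc
  have hcn : 0 < ‖c‖ := norm_pos_iff.2 hLne
  rw [← hnorm]
  -- compare
  have key : ∀ δ : ℝ, 0 < δ → Real.log A ≤ Real.log (Real.sqrt 2 * ‖c‖) + 3 * δ := by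
    intro δ hδ
    have h3 := (central_side χ h1 h2 1 (Or.inl rfl) 0 c hLne hcont (by norm_num) δ hδ).1
    have h4 := avg_le (fun _ => Real.log (Real.sqrt 2 * ‖c‖)) (Real.log (Real.sqrt 2 * ‖c‖)) δ hδ
      (Eventually.of_forall fun _ => le_rfl)
    obtain ⟨x, hx, hx2, hx3, hx4⟩ := (h3.and_eventually ((h δ hδ).and (h4.and hlog))).exists
    have e1 : ∑ n ∈ Finset.Icc 2 x, Real.log (NP χ 0 ‖c‖ n) / n =
        ∑ n ∈ Finset.Icc 2 x, Real.log (PP χ n) / n -
        ∑ n ∈ Finset.Icc 2 x, Real.log (Real.sqrt 2 * ‖c‖) / n := by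
      rw [← Finset.sum_sub_distrib]
      refine Finset.sum_congr rfl fun n hn => ?_
      rw [log_NP χ h2 0 hcn (Finset.mem_Icc.1 hn).1, Real.log_mul (by positivity) hcn.ne',
        Real.log_sqrt (by norm_num)]
      push_cast
      ring
    rw [one_mul] at hx
    unfold NL at hx
    unfold PL at hx2
    rw [e1, div_lt_iff₀ (by linarith)] at hx
    rw [le_div_iff₀ (by linarith)] at hx2
    have h5 : (Real.log A - δ) * Real.log x < (δ + (Real.log (Real.sqrt 2 * ‖c‖) + δ)) * Real.log x := by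
      nlinarith
    have h6 := lt_of_mul_lt_mul_right h5 (by linarith : (0 : ℝ) ≤ Real.log x)
    linarith
  have h5 : Real.log A ≤ Real.log (Real.sqrt 2 * ‖c‖) := by
    refine le_of_forall_pos_le_add fun e he => ?_
    have := key (e / 3) (by positivity)
    linarith
  exact (Real.log_le_log_iff hA (by positivity)).1 h5

theorem lower_point (h1 : χ ≠ 1) (h2 : χ ^ 2 = 1) (A : ℝ) (hA : 0 < A)
    (h : ∀ᶠ x : ℕ in atTop, A ≤ PP χ x) :
    (∀ ρ : ℂ, 1 / 2 < ρ.re → χ.LFunction ρ ≠ 0) ∧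
    (∀ s : ℝ, 0 < s → (χ.LFunction (s : ℂ)).im = 0 ∧ 0 < (χ.LFunction (s : ℂ)).re) ∧
    A ≤ Real.sqrt 2 * (χ.LFunction (1 / 2)).re := by
  refine lower_mean χ h1 h2 A hA fun η hη => ?_
  have hlog : ∀ᶠ x : ℕ in atTop, (1 : ℝ) < Real.log x :=
    (Real.tendsto_log_atTop.comp tendsto_natCast_atTop_atTop).eventually_gt_atTop _
  have h3 : ∀ᶠ n : ℕ in atTop, -Real.log (PP χ n) ≤ -Real.log A := by
    filter_upwards [h] with n hn
    have := Real.log_le_log hA hn
    linarith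
  filter_upwards [avg_le _ _ η hη h3, hlog] with n h4 h5
  unfold PL
  rw [le_div_iff₀ (by linarith)]
  have e : ∑ k ∈ Finset.Icc 2 n, -Real.log (PP χ k) / k = -∑ k ∈ Finset.Icc 2 n, Real.log (PP χ k) / k := by
    rw [← Finset.sum_neg_distrib]
    exact Finset.sum_congr rfl fun k _ => by ring
  rw [e] at h4
  linarith

end Pool.Agent.H930R3.BK.Chi
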