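import Pool.Agent.H930R3.BK.X4
import Pool.Agent.H930R3.BK.R2

/-! Comparison of two quadratic Dirichlet L-functions through their partial Euler products. -/

set_option autoImplicit false

open Complex Filter Topology Finset

namespace Pool.Agent.H930R3.BK.Chi

open Pool.Agent.H438R3.BSD Pool.Agent.H341R2 Pool.Agent.H234R4.Dir

section

variable {good₁ good₂ : ℕ → Prop} [DecidablePred good₁] [DecidablePred good₂] {α₁ α₂ : ℕ → ℂ}

lemma AS_LG (hg : ∀ p, good₁ p → p.Prime)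
    (ha : ∀ p, good₁ p → ‖α₁ p‖ = (p : ℝ) ^ (1 / 2 : ℝ)) (κ C : ℝ) {n : ℕ} (hn : 1 ≤ n) :
    AS C (mt good₁ α₁ 1 κ 1) n = C * ∑ k ∈ Finset.Icc 1 n, (1 : ℝ) / k +
      ∑ k ∈ Finset.Icc 2 n, (κ * SP k - LG good₁ α₁ k) / k := by
  unfold AS
  rw [PS, zero_add, Icc_split hn, Finset.sum_insert (by simp), Finset.sum_insert (by simp)]
  have e1 : PS C (mt good₁ α₁ 1 κ 1) 1 = C := by
    rw [PS_LG, SP_one]
    have hu1 : uu good₁ α₁ 1 = 0 := uu_not hg ha Nat.not_prime_one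
    have e3 : LG good₁ α₁ 1 = 0 := by
      unfold LG
      simp only [Finset.Icc_self, Finset.sum_singleton, if_neg Nat.not_prime_one, zero_add]
      unfold sq
      have : Nat.sqrt 1 = 1 := by norm_num
      rw [this, hu1]
      simp
    rw [e3]; ring
  rw [e1]
  have e4 : ∑ k ∈ Finset.Icc 2 n, PS C (mt good₁ α₁ 1 κ 1) k / k = ∑ k ∈ Finset.Icc 2 n,
      (C * (1 / (k : ℝ)) + (κ * SP k - LG good₁ α₁ k) / k) := by
    refine Finset.sum_congr rfl fun k _ => ?_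
    rw [PS_LG]
    ring
  rw [e4, Finset.sum_add_distrib, ← Finset.mul_sum]
  push_cast
  ring

/-- The comparison theorem: an upper bound for the averages of the quotient. -/
theorem pair_gen (hg₁ : ∀ p, good₁ p → p.Prime)
    (ha₁ : ∀ p, good₁ p → ‖α₁ p‖ = (p : ℝ) ^ (1 / 2 : ℝ)) (hg₂ : ∀ p, good₂ p → p.Prime)
    (ha₂ : ∀ p, good₂ p → ‖α₂ p‖ = (p : ℝ) ^ (1 / 2 : ℝ)) {F₁ F₂ : ℂ → ℂ}
    (hF₁ : Differentiable ℂ F₁) (hF₂ : Differentiable ℂ F₂) (hn₁ : F₁ 2 ≠ 0) (hn₂ : F₂ 2 ≠ 0)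
    (hprod₁ : ∀ s : ℂ, 3 / 2 < s.re → HasProd (fun p : ℕ => if good₁ p then
      ((1 - α₁ p * (p : ℂ) ^ (-s)) * (1 - starRingEnd ℂ (α₁ p) * (p : ℂ) ^ (-s)))⁻¹ else 1) (F₁ s))
    (hprod₂ : ∀ s : ℂ, 3 / 2 < s.re → HasProd (fun p : ℕ => if good₂ p then
      ((1 - α₂ p * (p : ℂ) ^ (-s)) * (1 - starRingEnd ℂ (α₂ p) * (p : ℂ) ^ (-s)))⁻¹ else 1) (F₂ s))
    (hreal : ∀ σ : ℝ, 1 < σ → analyticOrderAt F₂ σ ≤ analyticOrderAt F₁ σ)
    (m₁ m₂ : ℕ) (c₁ c₂ : ℂ) (hc1 : c₁ ≠ 0) (hc2 : c₂ ≠ 0)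
    (hc₁ : Tendsto (fun s : ℂ => F₁ s / (s - 1) ^ m₁) (𝓝[≠] 1) (𝓝 c₁))
    (hc₂ : Tendsto (fun s : ℂ => F₂ s / (s - 1) ^ m₂) (𝓝[≠] 1) (𝓝 c₂)) (κ Q : ℝ)
    (h : ∀ᶠ n : ℕ in atTop, ∑ k ∈ Finset.Icc 2 n,
      ((LG good₁ α₁ k - LG good₂ α₂ k) -
        κ * (Real.eulerMascheroniConstant + Real.log (Real.log k))) / k ≤ Q * Real.log n) :
    (∀ s : ℂ, 1 < s.re → analyticOrderAt F₁ s = analyticOrderAt F₂ s) ∧ (m₁ : ℝ) - m₂ ≤ κ ∧
      ((m₁ : ℝ) - m₂ = κ → -(Real.log ‖c₁‖ - Real.log ‖c₂‖) ≤ Q) := by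
  -- comparison with the sums of `1/p`
  have key : ∀ η : ℝ, 0 < η → (∀ s : ℂ, 1 < s.re → analyticOrderAt F₁ s = analyticOrderAt F₂ s) ∧
      ∀ᶠ w : ℝ in 𝓝[>] 0, -(κ * lam w) - (Q + κ * K0 + η) - η ≤
        Real.log ‖F₁ (1 + w)‖ - Real.log ‖F₂ (1 + w)‖ := by
    intro η hη
    have hS : ∀ᶠ n : ℕ in atTop, -(-(κ * Real.eulerMascheroniConstant) +
        κ * (SP n - Real.log (Real.log n))) ≤ κ * K0 + η / 2 := by
      have h1 := ((mertens_S.const_mul κ).const_add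
        (-(κ * Real.eulerMascheroniConstant))).const_mul (-1)
      have e : -1 * (-(κ * Real.eulerMascheroniConstant) + κ * (Real.eulerMascheroniConstant - K0)) =
        κ * K0 := by ring
      rw [e] at h1
      filter_upwards [h1.eventually_lt_const (by linarith : κ * K0 < κ * K0 + η / 2)] with n hn
      refine le_trans (le_of_eq ?_) hn.le
      unfold SP
      ring
    have hS2 := avg_le _ _ (η / 2) (by positivity) hS
    set C : ℝ := Q + κ * K0 + η with hC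
    set A₁ := AS C (mt good₁ α₁ 1 κ 1) with hA₁
    set A₂ := AS 0 (mt good₂ α₂ 1 0 1) with hA₂
    have hlow : ∀ᶠ n : ℕ in atTop, -|C| ≤ A₁ n - A₂ n := by
      filter_upwards [h, hS2, eventually_ge_atTop 1] with n h1 h2 h3
      rw [hA₁, hA₂, AS_LG hg₁ ha₁ _ _ h3, AS_LG hg₂ ha₂ _ _ h3]
      have e5 : ∑ k ∈ Finset.Icc 2 n, (κ * SP k - LG good₁ α₁ k) / k -
          ∑ k ∈ Finset.Icc 2 n, (0 * SP k - LG good₂ α₂ k) / k =
          -(∑ k ∈ Finset.Icc 2 n, ((LG good₁ α₁ k - LG good₂ α₂ k) -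
          κ * (Real.eulerMascheroniConstant + Real.log (Real.log k))) / k) -
          ∑ k ∈ Finset.Icc 2 n, -(-(κ * Real.eulerMascheroniConstant) +
        κ * (SP k - Real.log (Real.log k))) / k := by
        rw [← Finset.sum_neg_distrib, ← Finset.sum_sub_distrib, ← Finset.sum_sub_distrib]
        refine Finset.sum_congr rfl fun k _ => ?_
        ring
      have h4 := harm_bounds n h3
      have h5 : C * ∑ k ∈ Finset.Icc 1 n, (1 : ℝ) / k = C + C * Real.log n +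
          C * (∑ k ∈ Finset.Icc 2 n, (1 : ℝ) / k - Real.log n) := by
        rw [Icc_split h3, Finset.sum_insert (by simp)]
        push_cast
        ring
      have h6 : |C + C * (∑ k ∈ Finset.Icc 2 n, (1 : ℝ) / k - Real.log n)| ≤ |C| := by
        have e6 : C + C * (∑ k ∈ Finset.Icc 2 n, (1 : ℝ) / k - Real.log n) =
          C * (1 + (∑ k ∈ Finset.Icc 2 n, (1 : ℝ) / k - Real.log n)) := by ring
        rw [e6, abs_mul]
        have h7 : |1 + (∑ k ∈ Finset.Icc 2 n, (1 : ℝ) / k - Real.log n)| ≤ 1 := by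
          have h8 : ∑ k ∈ Finset.Icc 2 n, (1 : ℝ) / k ≤ Real.log n := harm_le n h3
          rw [abs_le] at h4 ⊢
          constructor <;> linarith [h4.1]
        calc |C| * _ ≤ |C| * 1 := mul_le_mul_of_nonneg_left h7 (abs_nonneg _)
          _ = _ := mul_one _
      have h9 := (abs_le.1 h6).1
      rw [h5]
      have h10 : C * Real.log n - Q * Real.log n - (κ * K0 + η / 2 + η / 2) * Real.log n = 0 := by
        rw [hC]; ring
      linarith
    obtain ⟨N, hN⟩ := eventually_atTop.1 hlow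
    set D : ℝ := |C| + ∑ k ∈ Finset.range N, |A₁ k - A₂ k| with hD
    have hG : ∀ n, 0 ≤ A₁ n - A₂ n + D := by
      intro n
      rcases Nat.lt_or_ge n N with hn | hn
      · have h1 : |A₁ n - A₂ n| ≤ ∑ k ∈ Finset.range N, |A₁ k - A₂ k| :=
          Finset.single_le_sum (f := fun k => |A₁ k - A₂ k|) (fun k _ => abs_nonneg _) (Finset.mem_range.2 hn)
        have h2 := neg_abs_le (A₁ n - A₂ n)
        have h3 := abs_nonneg C
        linarith
      · have h1 := hN n hn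
        have h2 : 0 ≤ ∑ k ∈ Finset.range N, |A₁ k - A₂ k| := Finset.sum_nonneg fun k _ => abs_nonneg _
        linarith
    obtain ⟨W₁, hW₁, hrel₁, hsum₁, hK₁⟩ := rel_sharp (good := good₁) (α := α₁) hg₁ ha₁ κ C F₁ hprod₁
    obtain ⟨W₂, hW₂, hrel₂, hsum₂, hK₂⟩ := rel_sharp (good := good₂) (α := α₂) hg₂ ha₂ 0 0 F₂ hprod₂
    set W : ℂ → ℂ := fun s => W₁ s - W₂ s - (s - 1) * ((s - 1) * (D * riemannZeta s)) with hW
    have hWd : DifferentiableOn ℂ W {s | 1 < s.re} := by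
      apply DifferentiableOn.sub (hW₁.sub hW₂)
      apply DifferentiableOn.mul (by fun_prop)
      apply DifferentiableOn.mul (by fun_prop)
      apply DifferentiableOn.const_mul
      intro s hs
      have hs' : 1 < s.re := hs
      exact (differentiableAt_riemannZeta (by
        intro h; rw [h] at hs'; simp at hs')).differentiableWithinAt
    have hGsum : ∀ s : ℂ, 3 / 2 < s.re → LSeriesSummable (fun n => ((A₁ n - A₂ n + D : ℝ) : ℂ)) s ∧
        LSeries (fun n => ((A₁ n - A₂ n + D : ℝ) : ℂ)) s =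
          LSeries (fun n => (A₁ n : ℂ)) s - LSeries (fun n => (A₂ n : ℂ)) s + D * riemannZeta s := by
      intro s hs
      have hs1 : 1 < s.re := by linarith
      have e : (fun n => ((A₁ n - A₂ n + D : ℝ) : ℂ)) =
          (fun n => (A₁ n : ℂ)) - (fun n => (A₂ n : ℂ)) + (D : ℂ) • (1 : ℕ → ℂ) := by
        funext n
        simp
      have h1 : LSeriesSummable (1 : ℕ → ℂ) s := LSeriesSummable_one_iff.2 hs1
      have h3 : LSeriesSummable ((D : ℂ) • (1 : ℕ → ℂ)) s := h1.smul _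
      rw [e]
      refine ⟨((hsum₁ s hs).sub (hsum₂ s hs)).add h3, ?_⟩
      rw [LSeries_add ((hsum₁ s hs).sub (hsum₂ s hs)) h3, LSeries_smul, LSeries_one_eq_riemannZeta hs1,
        LSeries_sub (hsum₁ s hs) (hsum₂ s hs)]
    have hrel : ∀ s : ℂ, 3 / 2 < s.re → F₁ s = F₂ s * exp (W s +
        (s - 1) ^ 2 * LSeries (fun n => ((A₁ n - A₂ n + D : ℝ) : ℂ)) s) := by
      intro s hs
      rw [(hGsum s hs).2, hrel₁ s hs, hrel₂ s hs, ← Complex.exp_add]
      congr 1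
      rw [hW]
      ring
    obtain ⟨hall, hord⟩ := Pool.Agent.H234R4.BSD.coreR (fun n => A₁ n - A₂ n + D) hG F₁ F₂ W hF₁ hF₂
      hn₁ hn₂ hWd (fun s hs => (hGsum s hs).1) hrel hreal
    refine ⟨hord, ?_⟩
    filter_upwards [hK₁ (η / 4) (by positivity), hK₂ (η / 4) (by positivity),
      zeta_small D (η / 4) (by positivity), lead_ne hc2 hc₂, self_mem_nhdsWithin] with w hw1 hw2 hw3 hw5 hw6
    have hw : (0 : ℝ) < w := hw6
    have hre : (1 : ℝ) < ((1 : ℂ) + w).re := by simp [hw]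
    have h5 := hall (1 + w) hre
    set G : ℕ → ℝ := fun n => A₁ n - A₂ n + D with hGdef
    have h6 : Real.log ‖F₁ (1 + w)‖ - Real.log ‖F₂ (1 + w)‖ = (W (1 + w)).re +
        (((1 + w : ℂ) - 1) ^ 2 * LSeries (fun n => (G n : ℂ)) (1 + w)).re := by
      rw [h5, norm_mul, Complex.norm_exp, Real.log_mul (norm_ne_zero_iff.2 hw5) (Real.exp_ne_zero _),
        Real.log_exp, add_re]
      ring
    have h7 : (((1 + w : ℂ) - 1) ^ 2 * LSeries (fun n => (G n : ℂ)) (1 + w)).re =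
        (w ^ 2 * (LSeries (fun n => (G n : ℂ)) ((1 + w : ℝ) : ℂ)).re) := by
      have e1 : ((1 + w : ℂ) - 1) ^ 2 = ((w ^ 2 : ℝ) : ℂ) := by push_cast; ring
      have e2 : ((1 : ℂ) + w) = ((1 + w : ℝ) : ℂ) := by push_cast; rfl
      rw [e1, Complex.re_ofReal_mul, e2]
    have h8 := re_LSeries_nonneg G hG (1 + w)
    have h9 : 0 ≤ w ^ 2 * (LSeries (fun n => (G n : ℂ)) ((1 + w : ℝ) : ℂ)).re := mul_nonneg (by positivity) h8
    have h11 : (W (1 + w)).re = (W₁ (1 + w)).re - (W₂ (1 + w)).re -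
        ((w : ℂ) * ((w : ℂ) * (D * riemannZeta (1 + w)))).re := by
      rw [hW]
      simp only
      have e9 : ((1 : ℂ) + w - 1) * (((1 : ℂ) + w - 1) * (D * riemannZeta (1 + w))) =
        (w : ℂ) * ((w : ℂ) * (D * riemannZeta (1 + w))) := by ring
      rw [e9]
      simp only [sub_re]
    have h14 : |((w : ℂ) * ((w : ℂ) * (D * riemannZeta (1 + w)))).re| ≤ η / 4 :=
      (Complex.abs_re_le_norm _).trans hw3.le
    rw [h7, h11] at h6
    have g1 := abs_le.1 hw1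
    have g2 := abs_le.1 hw2
    have g3 := abs_le.1 h14
    rw [h6]
    linarith [g1.1, g1.2, g2.1, g2.2, g3.1, g3.2]
  have t1 := F_lead hc1 hc₁
  have t2 := F_lead hc2 hc₂
  have t3 := lam_lim.const_mul κ
  have t5 : Tendsto (fun w : ℝ => ((m₁ : ℝ) - m₂ - κ) * Real.log w +
      (Real.log ‖F₁ (1 + w)‖ - Real.log ‖F₂ (1 + w)‖ + κ * lam w) - ((m₁ : ℝ) - m₂ - κ) * Real.log w -
      (((m₁ : ℝ) - m₂ - κ) * Real.log w)) (𝓝[>] 0)
      (𝓝 (Real.log ‖c₁‖ - Real.log ‖c₂‖ + κ * -K0)) := by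
    refine ((t1.sub t2).add t3).congr fun w => ?_
    ring
  have hle : (m₁ : ℝ) - m₂ ≤ κ := by
    by_contra hcon
    push Not at hcon
    have hpos : 0 < (m₁ : ℝ) - m₂ - κ := by linarith
    have hbot : Tendsto (fun w : ℝ => ((m₁ : ℝ) - m₂ - κ) * Real.log w) (𝓝[>] 0) atBot :=
      Real.tendsto_log_nhdsGT_zero.const_mul_atBot hpos
    obtain ⟨w, hw1, hw2, hw3⟩ := ((key 1 one_pos).2.and
      ((t5.eventually_lt_const (lt_add_one _)).and
      (hbot.eventually (eventually_lt_atBot (-(Q + κ * K0 + 1) - 1 -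
        (Real.log ‖c₁‖ - Real.log ‖c₂‖ + κ * -K0 + 1)))))).exists
    linarith
  refine ⟨(key 1 one_pos).1, hle, fun heq => ?_⟩
  refine le_of_forall_pos_le_add fun e he => ?_
  have hz : (m₁ : ℝ) - m₂ - κ = 0 := by linarith
  obtain ⟨w, hw1, hw2⟩ := ((key (e / 3) (by positivity)).2.and
    (t5.eventually_lt_const (by linarith :
      Real.log ‖c₁‖ - Real.log ‖c₂‖ + κ * -K0 < Real.log ‖c₁‖ - Real.log ‖c₂‖ + κ * -K0 + e / 3))).exists
  rw [hz] at hw2
  have : κ * -K0 = -(κ * K0) := by ring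
  rw [this] at hw2
  linarith

end

end Pool.Agent.H930R3.BK.Chi
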