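import Pool.Agent.H930R3.BK.Y1

/-! Comparison of two quadratic Dirichlet L-functions: final form. -/

set_option autoImplicit false

open Complex Filter Topology Finset

namespace Pool.Agent.H930R3.BK.Chi

open Pool.Agent.H438R3.BSD Pool.Agent.H341R2 Pool.Agent.H234R4.Dir

lemma ord_sq {N : ℕ} [NeZero N] (χ : DirichletCharacter ℂ N) (h1 : χ ≠ 1) (s : ℂ) :
    analyticOrderAt (fun s => (FD χ s) ^ 2) s = 2 • analyticOrderAt χ.LFunction (s - 1 / 2) := by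
  have h3 := analyticOrderAt_comp_of_deriv_ne_zero (f := χ.LFunction) (g := fun s : ℂ => s - 1 / 2)
    (z₀ := s) (by fun_prop) (by
      have : deriv (fun s : ℂ => s - 1 / 2) s = 1 := by simp
      rw [this]; exact one_ne_zero)
  have h4 : analyticOrderAt (FD χ) s = analyticOrderAt χ.LFunction (s - 1 / 2) := h3
  rw [← h4]
  exact analyticOrderAt_pow ((FD_diff χ h1).analyticAt s) 2

/-- the logarithmic mean of `log (P₁(n)/P₂(n)) + κ (γ + log log n)` over `2 ≤ n ≤ x` -/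
noncomputable def CL {N₁ N₂ : ℕ} (χ₁ : DirichletCharacter ℂ N₁) (χ₂ : DirichletCharacter ℂ N₂)
    (κ : ℝ) (x : ℕ) : ℝ :=
  (∑ n ∈ Finset.Icc 2 x, (Real.log (PP χ₁ n) - Real.log (PP χ₂ n) +
    κ * (Real.eulerMascheroniConstant + Real.log (Real.log n))) / n) / Real.log x

variable {N₁ N₂ : ℕ} [NeZero N₁] [NeZero N₂] (χ₁ : DirichletCharacter ℂ N₁)
  (χ₂ : DirichletCharacter ℂ N₂)

open Classical in
theorem comparison (h11 : χ₁ ≠ 1) (h12 : χ₁ ^ 2 = 1) (h21 : χ₂ ≠ 1) (h22 : χ₂ ^ 2 = 1)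
    (hreal : ∀ σ : ℝ, 1 / 2 < σ → σ < 1 →
      analyticOrderAt χ₂.LFunction σ ≤ analyticOrderAt χ₁.LFunction σ) (κ A : ℝ) (hA : 0 < A)
    (h : ∀ η : ℝ, 0 < η → ∀ᶠ x : ℕ in atTop, Real.log A - η ≤ CL χ₁ χ₂ κ x) :
    (∀ ρ : ℂ, 1 / 2 < ρ.re → analyticOrderAt χ₁.LFunction ρ = analyticOrderAt χ₂.LFunction ρ) ∧
    ∃ (m₁ m₂ : ℕ) (c₁ c₂ : ℂ), analyticOrderAt χ₁.LFunction (1 / 2) = m₁ ∧
      analyticOrderAt χ₂.LFunction (1 / 2) = m₂ ∧ c₁ ≠ 0 ∧ c₂ ≠ 0 ∧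
      Tendsto (fun s : ℂ => χ₁.LFunction s / (s - 1 / 2) ^ m₁) (𝓝[≠] (1 / 2)) (𝓝 c₁) ∧
      Tendsto (fun s : ℂ => χ₂.LFunction s / (s - 1 / 2) ^ m₂) (𝓝[≠] (1 / 2)) (𝓝 c₂) ∧
      (m₁ : ℝ) ≤ m₂ + κ ∧ ((m₁ : ℝ) = m₂ + κ → A * ‖c₂‖ ≤ ‖c₁‖) := by
  obtain ⟨m₁, c₁, hm₁, hc1, hc₁⟩ := exists_lead_half χ₁ h11 h12
  obtain ⟨m₂, c₂, hm₂, hc2, hc₂⟩ := exists_lead_half χ₂ h21 h22
  have hcn1 : 0 < ‖c₁‖ := norm_pos_iff.2 hc1
  have hcn2 : 0 < ‖c₂‖ := norm_pos_iff.2 hc2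
  have hlog : ∀ᶠ x : ℕ in atTop, (1 : ℝ) < Real.log x :=
    (Real.tendsto_log_atTop.comp tendsto_natCast_atTop_atTop).eventually_gt_atTop _
  have hF2 : ∀ {N : ℕ} [NeZero N] (χ : DirichletCharacter ℂ N), χ ≠ 1 → (FD χ 2) ^ 2 ≠ 0 := by
    intro N _ χ h1
    apply pow_ne_zero
    unfold FD
    apply DirichletCharacter.LFunction_ne_zero_of_one_le_re χ (Or.inl h1)
    norm_num
  have hreal' : ∀ σ : ℝ, 1 < σ → analyticOrderAt (fun s => (FD χ₂ s) ^ 2) (σ : ℂ) ≤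
      analyticOrderAt (fun s => (FD χ₁ s) ^ 2) (σ : ℂ) := by
    intro σ hσ
    rw [ord_sq χ₂ h21, ord_sq χ₁ h11]
    have e : (σ : ℂ) - 1 / 2 = ((σ - 1 / 2 : ℝ) : ℂ) := by push_cast; ring
    rw [e]
    refine nsmul_le_nsmul_right ?_ 2
    rcases lt_or_ge (σ - 1 / 2) 1 with h3 | h3
    · exact hreal (σ - 1 / 2) (by linarith) h3
    · have h4 : χ₂.LFunction ((σ - 1 / 2 : ℝ) : ℂ) ≠ 0 := by
        apply DirichletCharacter.LFunction_ne_zero_of_one_le_re χ₂ (Or.inl h21)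
        simpa using h3
      have h5 : analyticOrderAt χ₂.LFunction ((σ - 1 / 2 : ℝ) : ℂ) = 0 :=
        ((DirichletCharacter.differentiable_LFunction h21).analyticAt _).analyticOrderAt_eq_zero.2 h4
      rw [h5]
      exact zero_le
  have key : ∀ η : ℝ, 0 < η → (∀ s : ℂ, 1 < s.re → analyticOrderAt (fun s => (FD χ₁ s) ^ 2) s =
      analyticOrderAt (fun s => (FD χ₂ s) ^ 2) s) ∧ (((2 * m₁ : ℕ) : ℝ)) - ((2 * m₂ : ℕ) : ℝ) ≤ 2 * κ ∧
      ((((2 * m₁ : ℕ) : ℝ)) - ((2 * m₂ : ℕ) : ℝ) = 2 * κ →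
        -(Real.log ‖c₁ ^ 2‖ - Real.log ‖c₂ ^ 2‖) ≤ -2 * Real.log A + η) := by
    intro η hη
    refine pair_gen (good₁ := gd χ₁) (good₂ := gd χ₂) (α₁ := al χ₁) (α₂ := al χ₂) (fun p hp => hp.1)
      (fun p hp => al_nm χ₁ h12 hp) (fun p hp => hp.1) (fun p hp => al_nm χ₂ h22 hp)
      ((FD_diff χ₁ h11).pow 2) ((FD_diff χ₂ h21).pow 2) (hF2 χ₁ h11) (hF2 χ₂ h21)
      (fun s hs => prod_sq χ₁ h12 s hs) (fun s hs => prod_sq χ₂ h22 s hs) hreal' (2 * m₁) (2 * m₂)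
      (c₁ ^ 2) (c₂ ^ 2) (pow_ne_zero _ hc1) (pow_ne_zero _ hc2) (shift_lead χ₁ hc₁) (shift_lead χ₂ hc₂)
      (2 * κ) (-2 * Real.log A + η) ?_
    have hU : Tendsto (fun n : ℕ => UD χ₁ n - UD χ₂ n) atTop (𝓝 0) := by
      have := (UD_tendsto χ₁ h12).sub (UD_tendsto χ₂ h22)
      rwa [sub_self] at this
    have hU2 := avg_le _ _ (η / 4) (by positivity)
      (hU.eventually_le_const (by positivity : (0 : ℝ) < η / 4))
    filter_upwards [h (η / 4) (by positivity), hU2, hlog] with n h3 h4 h5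
    unfold CL at h3
    rw [le_div_iff₀ (by linarith)] at h3
    have e : ∑ k ∈ Finset.Icc 2 n, ((LG (gd χ₁) (al χ₁) k - LG (gd χ₂) (al χ₂) k) -
        2 * κ * (Real.eulerMascheroniConstant + Real.log (Real.log k))) / k =
        -2 * (∑ k ∈ Finset.Icc 2 n, (Real.log (PP χ₁ k) - Real.log (PP χ₂ k) +
          κ * (Real.eulerMascheroniConstant + Real.log (Real.log k))) / k) +
        ∑ k ∈ Finset.Icc 2 n, (UD χ₁ k - UD χ₂ k) / k := by
      rw [Finset.mul_sum, ← Finset.sum_add_distrib]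
      refine Finset.sum_congr rfl fun k _ => ?_
      rw [LG_eq χ₁ h12, LG_eq χ₂ h22]
      ring
    rw [e]
    nlinarith
  refine ⟨fun ρ hρ => ?_, m₁, m₂, c₁, c₂, hm₁, hm₂, hc1, hc2, hc₁, hc₂, ?_, fun heq => ?_⟩
  · have h3 := (key 1 one_pos).1 (ρ + 1 / 2) (by simp; linarith)
    rw [ord_sq χ₁ h11, ord_sq χ₂ h21] at h3
    have e : ρ + 1 / 2 - 1 / 2 = ρ := by ring
    rw [e] at h3
    obtain ⟨n1, hn1⟩ : ∃ n : ℕ, analyticOrderAt χ₁.LFunction ρ = n := by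
      have h4 : (χ₁.LFunction) 2 ≠ 0 := by
        apply DirichletCharacter.LFunction_ne_zero_of_one_le_re χ₁ (Or.inl h11)
        norm_num
      exact Pool.Agent.H234R4.BSD.order_ne_top (DirichletCharacter.differentiable_LFunction h11) h4 ρ
    obtain ⟨n2, hn2⟩ : ∃ n : ℕ, analyticOrderAt χ₂.LFunction ρ = n := by
      have h4 : (χ₂.LFunction) 2 ≠ 0 := by
        apply DirichletCharacter.LFunction_ne_zero_of_one_le_re χ₂ (Or.inl h21)
        norm_num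
      exact Pool.Agent.H234R4.BSD.order_ne_top (DirichletCharacter.differentiable_LFunction h21) h4 ρ
    rw [hn1, hn2] at h3 ⊢
    have h5 : ((2 * n1 : ℕ) : ℕ∞) = ((2 * n2 : ℕ) : ℕ∞) := by
      push_cast
      simpa [nsmul_eq_mul] using h3
    have h6 : 2 * n1 = 2 * n2 := by exact_mod_cast h5
    have h7 : n1 = n2 := by omega
    rw [h7]
  · have h3 := (key 1 one_pos).2.1
    push_cast at h3
    linarith
  · have h3 : 2 * Real.log A ≤ 2 * (Real.log ‖c₁‖ - Real.log ‖c₂‖) := by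
      refine le_of_forall_pos_le_add fun e he => ?_
      have h4 := (key e he).2.2 (by push_cast; linarith)
      rw [norm_pow, norm_pow, Real.log_pow, Real.log_pow] at h4
      push_cast at h4
      linarith
    have h5 : Real.log (A * ‖c₂‖) ≤ Real.log ‖c₁‖ := by
      rw [Real.log_mul hA.ne' hcn2.ne']
      linarith
    exact (Real.log_le_log_iff (by positivity) hcn1).1 h5

/-- pointwise bounds give bounds for the means -/
lemma point_mean (h12 : χ₁ ^ 2 = 1) (h22 : χ₂ ^ 2 = 1) (κ A : ℝ) (hA : 0 < A)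
    (h : ∀ᶠ x : ℕ in atTop, A * PP χ₂ x ≤
      PP χ₁ x * (Real.exp Real.eulerMascheroniConstant * Real.log x) ^ κ) (η : ℝ) (hη : 0 < η) :
    ∀ᶠ x : ℕ in atTop, Real.log A - η ≤ CL χ₁ χ₂ κ x := by
  have hlog : ∀ᶠ x : ℕ in atTop, (1 : ℝ) < Real.log x :=
    (Real.tendsto_log_atTop.comp tendsto_natCast_atTop_atTop).eventually_gt_atTop _
  have h3 : ∀ᶠ n : ℕ in atTop, -(Real.log (PP χ₁ n) - Real.log (PP χ₂ n) +
      κ * (Real.eulerMascheroniConstant + Real.log (Real.log n))) ≤ -Real.log A := by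
    filter_upwards [h, hlog] with n hn h5
    have p1 := PP_pos χ₁ h12 n
    have p2 := PP_pos χ₂ h22 n
    have h6 : 0 < Real.exp Real.eulerMascheroniConstant * Real.log n :=
      mul_pos (Real.exp_pos _) (by linarith)
    have h7 := Real.log_le_log (by positivity) hn
    rw [Real.log_mul hA.ne' p2.ne', Real.log_mul p1.ne' (Real.rpow_pos_of_pos h6 _).ne',
      Real.log_rpow h6, Real.log_mul (Real.exp_pos _).ne' (by linarith : (0 : ℝ) < Real.log n).ne', Real.log_exp] at h7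
    linarith
  filter_upwards [avg_le _ _ η hη h3, hlog] with n h4 h5
  unfold CL
  rw [le_div_iff₀ (by linarith)]
  have e : ∑ k ∈ Finset.Icc 2 n, -(Real.log (PP χ₁ k) - Real.log (PP χ₂ k) +
      κ * (Real.eulerMascheroniConstant + Real.log (Real.log k))) / k =
      -∑ k ∈ Finset.Icc 2 n, (Real.log (PP χ₁ k) - Real.log (PP χ₂ k) +
      κ * (Real.eulerMascheroniConstant + Real.log (Real.log k))) / k := by
    rw [← Finset.sum_neg_distrib]
    exact Finset.sum_congr rfl fun k _ => by ring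
  rw [e] at h4
  linarith

end Pool.Agent.H930R3.BK.Chi
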