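import Pool.Agent.H930R3.BK.Y2

/-! Transport of positivity from one quadratic character to another. -/

set_option autoImplicit false

open Complex Filter Topology Finset

namespace Pool.Agent.H930R3.BK.Chi

open Pool.Agent.H438R3.BSD Pool.Agent.H341R2 Pool.Agent.H234R4.Dir

variable {N₁ N₂ : ℕ} [NeZero N₁] [NeZero N₂] (χ₁ : DirichletCharacter ℂ N₁)
  (χ₂ : DirichletCharacter ℂ N₂)

theorem transport (h11 : χ₁ ≠ 1) (h12 : χ₁ ^ 2 = 1) (h21 : χ₂ ≠ 1) (h22 : χ₂ ^ 2 = 1)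
    (hpos : ∀ s : ℝ, 0 < s → s < 1 → χ₂.LFunction (s : ℂ) ≠ 0) (κ A : ℝ) (hκ : κ < 1) (hA : 0 < A)
    (h : ∀ η : ℝ, 0 < η → ∀ᶠ x : ℕ in atTop, Real.log A - η ≤ CL χ₁ χ₂ κ x) :
    (∀ s : ℝ, 0 < s → (χ₁.LFunction (s : ℂ)).im = 0 ∧ 0 < (χ₁.LFunction (s : ℂ)).re) ∧
    (κ = 0 → A * (χ₂.LFunction (1 / 2)).re ≤ (χ₁.LFunction (1 / 2)).re) := by
  have hord0 : ∀ σ : ℝ, 0 < σ → σ < 1 → analyticOrderAt χ₂.LFunction (σ : ℂ) = 0 := fun σ h1 h2 =>
    ((DirichletCharacter.differentiable_LFunction h21).analyticAt _).analyticOrderAt_eq_zero.2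
      (hpos σ h1 h2)
  obtain ⟨hz, m₁, m₂, c₁, c₂, hm₁, hm₂, hc1, hc2, hc₁, hc₂, hle, heq⟩ := comparison χ₁ χ₂ h11 h12 h21 h22
    (fun σ h1 h2 => by rw [hord0 σ (by linarith) h2]; exact zero_le) κ A hA h
  have e0 : (((1 / 2 : ℝ)) : ℂ) = 1 / 2 := by push_cast; norm_num
  have hm20 : m₂ = 0 := by
    have h3 := hord0 (1 / 2) (by norm_num) (by norm_num)
    rw [e0, hm₂] at h3
    exact_mod_cast h3
  have hm10 : m₁ = 0 := by
    rw [hm20] at hle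
    push_cast at hle
    have h3 : (m₁ : ℝ) < 1 := by linarith
    have h4 : m₁ < 1 := by exact_mod_cast h3
    omega
  have hne : ∀ s : ℝ, 0 < s → s < 1 → χ₁.LFunction (s : ℂ) ≠ 0 := by
    intro s hs0 hs1 h0
    obtain ⟨t, ht0, ht1, ht⟩ := zero_right χ₁ h11 h12 s hs0 hs1 h0
    have han := (DirichletCharacter.differentiable_LFunction h11).analyticAt (t : ℂ)
    rcases lt_or_eq_of_le ht0 with h3 | h3
    · have h4 := hz (t : ℂ) (by
        show 1 / 2 < ((t : ℂ)).re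
        rw [Complex.ofReal_re]; exact h3)
      rw [hord0 t (by linarith) ht1] at h4
      exact (han.analyticOrderAt_eq_zero.1 h4) ht
    · rw [← h3, e0] at ht han
      rw [hm10] at hm₁
      exact (han.analyticOrderAt_eq_zero.1 (by rw [hm₁]; rfl)) ht
  have hpos₁ := pos_of_ne_zero χ₁ h11 h12 hne
  have hpos₂ := pos_of_ne_zero χ₂ h21 h22 hpos
  refine ⟨hpos₁, fun hκ0 => ?_⟩
  have hval : ∀ {N : ℕ} [NeZero N] (χ : DirichletCharacter ℂ N) (_ : χ ≠ 1) (c : ℂ)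
      (_ : Tendsto (fun s : ℂ => χ.LFunction s / (s - 1 / 2) ^ 0) (𝓝[≠] (1 / 2)) (𝓝 c))
      (_ : (χ.LFunction (((1 / 2 : ℝ)) : ℂ)).im = 0 ∧ 0 < (χ.LFunction (((1 / 2 : ℝ)) : ℂ)).re),
      ‖c‖ = (χ.LFunction (1 / 2)).re := by
    intro N _ χ h1 c hc hp
    simp only [pow_zero, div_one] at hc
    have h3 : Tendsto (fun s : ℂ => χ.LFunction s) (𝓝[≠] (1 / 2)) (𝓝 (χ.LFunction (1 / 2))) :=
      (DirichletCharacter.differentiable_LFunction h1).continuous.continuousAt.tendsto.mono_left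
        nhdsWithin_le_nhds
    have h4 : c = χ.LFunction (1 / 2) := tendsto_nhds_unique hc h3
    rw [e0] at hp
    rw [h4]
    have e1 : χ.LFunction (1 / 2) = (((χ.LFunction (1 / 2)).re : ℝ) : ℂ) := by
      apply Complex.ext
      · simp
      · rw [hp.1]; simp
    rw [e1, Complex.norm_real, Real.norm_eq_abs, Complex.ofReal_re, abs_of_pos hp.2]
  rw [hm10] at hc₁ heq
  rw [hm20] at hc₂ heq
  have h3 := heq (by rw [hκ0]; push_cast; ring)
  rw [hval χ₁ h11 c₁ hc₁ (hpos₁ _ (by norm_num)), hval χ₂ h21 c₂ hc₂ (hpos₂ _ (by norm_num))] at h3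
  exact h3

end Pool.Agent.H930R3.BK.Chi
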